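import Pool.Agent.Helper67.DO.DefsE

/-!
Holomorphic functions of several variables: integrals with a parameter, partial derivatives
(`lib_pd`), commutation, and the formulas for `dd`, `ec`, `gc`, `oc` by partial derivatives.
-/

set_option autoImplicit false

namespace Pool.Agent.Helper67.DO

open scoped BigOperators Real
open Set Filter Topology MeasureTheory

noncomputable section

section general

variable {E : Type} [NormedAddCommGroup E] [NormedSpace ℂ E]

/-- Cauchy estimate for the derivative -/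
lemma lib_cauchy {f : E → ℂ} {v : E} {r M : ℝ} (hr : 0 < r) (hM : 0 ≤ M)
    (hf : DifferentiableOn ℂ f (Metric.ball v r)) (hb : ∀ z ∈ Metric.ball v r, ‖f z‖ ≤ M) :
    ‖fderiv ℂ f v‖ ≤ 2 * M / r := by
  refine ContinuousLinearMap.opNorm_le_bound _ (by positivity) fun w => ?_
  by_cases hw : w = 0
  · rw [hw, map_zero, norm_zero, norm_zero, mul_zero]
  have hw' : 0 < ‖w‖ := norm_pos_iff.2 hw
  have hρ : 0 < r / (2 * ‖w‖) := by positivity
  have hmem : ∀ t : ℂ, ‖t‖ ≤ r / (2 * ‖w‖) → v + t • w ∈ Metric.ball v r := by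
    intro t ht
    rw [Metric.mem_ball, dist_eq_norm, add_sub_cancel_left, norm_smul]
    calc ‖t‖ * ‖w‖ ≤ r / (2 * ‖w‖) * ‖w‖ := mul_le_mul_of_nonneg_right ht hw'.le
      _ = r / 2 := by field_simp
      _ < r := by linarith
  have hline : ∀ t : ℂ, HasDerivAt (fun t : ℂ => v + t • w) w t := by
    intro t
    simpa using ((hasDerivAt_id t).smul_const w).const_add v
  have hdiff : ∀ t : ℂ, ‖t‖ ≤ r / (2 * ‖w‖) →
      DifferentiableAt ℂ (fun t : ℂ => f (v + t • w)) t := by
    intro t ht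
    have h1 : DifferentiableAt ℂ f (v + t • w) :=
      (hf _ (hmem t ht)).differentiableAt (Metric.isOpen_ball.mem_nhds (hmem t ht))
    exact h1.comp t (hline t).differentiableAt
  have hd : deriv (fun t : ℂ => f (v + t • w)) 0 = fderiv ℂ f v w := by
    have h1 : HasFDerivAt f (fderiv ℂ f v) (v + (0 : ℂ) • w) := by
      rw [zero_smul, add_zero]
      exact ((hf v (Metric.mem_ball_self hr)).differentiableAt
        (Metric.isOpen_ball.mem_nhds (Metric.mem_ball_self hr))).hasFDerivAt
    exact (h1.comp_hasDerivAt (0 : ℂ) (hline 0)).deriv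
  have hdc : DiffContOnCl ℂ (fun t : ℂ => f (v + t • w)) (Metric.ball 0 (r / (2 * ‖w‖))) := by
    refine DifferentiableOn.diffContOnCl ?_
    rw [closure_ball _ hρ.ne']
    intro t ht
    rw [Metric.mem_closedBall, dist_zero_right] at ht
    exact (hdiff t ht).differentiableWithinAt
  have h2 := Complex.norm_deriv_le_of_forall_mem_sphere_norm_le hρ hdc (C := M) (by
    intro t ht
    rw [mem_sphere_iff_norm, sub_zero] at ht
    exact hb _ (hmem t ht.le))
  rw [hd] at h2
  refine h2.trans (le_of_eq ?_)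
  field_simp

/-- continuity of the derivative in a parameter -/
lemma lib_fderiv_cont [ProperSpace E] {V : Set E} (hV : IsOpen V) {a b : ℝ} {G : E → ℝ → ℂ}
    (h1 : ContinuousOn (Function.uncurry G) (V ×ˢ uIcc a b))
    (h2 : ∀ θ ∈ uIcc a b, DifferentiableOn ℂ (fun v => G v θ) V) {v : E} (hv : v ∈ V) :
    ContinuousOn (fun θ => fderiv ℂ (fun v => G v θ) v) (uIcc a b) := by
  obtain ⟨r, hr, hrV⟩ := Metric.isOpen_iff.1 hV v hv
  have hK : IsCompact (Metric.closedBall v (r / 2) ×ˢ uIcc a b) :=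
    (isCompact_closedBall v (r / 2)).prod isCompact_uIcc
  have hsub : Metric.closedBall v (r / 2) ⊆ V :=
    (Metric.closedBall_subset_ball (by linarith)).trans hrV
  have huc : UniformContinuousOn (Function.uncurry G) (Metric.closedBall v (r / 2) ×ˢ uIcc a b) :=
    hK.uniformContinuousOn_of_continuous (h1.mono (prod_mono hsub le_rfl))
  rw [Metric.continuousOn_iff]
  intro θ hθ ε hε
  rw [Metric.uniformContinuousOn_iff] at huc
  obtain ⟨δ, hδ, hδ'⟩ := huc (ε * r / 8) (by positivity)
  refine ⟨δ, hδ, fun θ' hθ' hd => ?_⟩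
  rw [dist_eq_norm]
  have hdθ : ∀ τ ∈ uIcc a b, DifferentiableAt ℂ (fun v => G v τ) v := fun τ hτ =>
    (h2 τ hτ v hv).differentiableAt (hV.mem_nhds hv)
  have e : fderiv ℂ (fun v => G v θ') v - fderiv ℂ (fun v => G v θ) v =
      fderiv ℂ (fun v => G v θ' - G v θ) v := by
    rw [← fderiv_fun_sub (hdθ θ' hθ') (hdθ θ hθ)]
  rw [e]
  have hb := lib_cauchy (f := fun v => G v θ' - G v θ) (v := v) (r := r / 2) (M := ε * r / 8)
    (by positivity) (by positivity)
    (((h2 θ' hθ').mono (Metric.ball_subset_closedBall.trans hsub)).sub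
      ((h2 θ hθ).mono (Metric.ball_subset_closedBall.trans hsub))) (by
      intro z hz
      have hz' : z ∈ Metric.closedBall v (r / 2) := Metric.ball_subset_closedBall hz
      have := hδ' (z, θ') ⟨hz', hθ'⟩ (z, θ) ⟨hz', hθ⟩ (by
        rw [Prod.dist_eq, dist_self, max_eq_right dist_nonneg]
        exact hd)
      rw [dist_eq_norm] at this
      exact this.le)
  refine hb.trans_lt ?_
  have : 2 * (ε * r / 8) / (r / 2) = ε / 2 := by
    field_simp
    norm_num
  rw [this]
  linarith

/-- differentiation of an integral with a holomorphic parameter -/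
lemma lib_param [ProperSpace E] {V : Set E} (hV : IsOpen V) {a b : ℝ} {G : E → ℝ → ℂ}
    (h1 : ContinuousOn (Function.uncurry G) (V ×ˢ uIcc a b))
    (h2 : ∀ θ ∈ uIcc a b, DifferentiableOn ℂ (fun v => G v θ) V) {v : E} (hv : v ∈ V) :
    HasFDerivAt (fun v => ∫ θ in a..b, G v θ) (∫ θ in a..b, fderiv ℂ (fun v => G v θ) v) v := by
  obtain ⟨r, hr, hrV⟩ := Metric.isOpen_iff.1 hV v hv
  have hK : IsCompact (Metric.closedBall v (r / 2) ×ˢ uIcc a b) :=
    (isCompact_closedBall v (r / 2)).prod isCompact_uIcc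
  have hsub : Metric.closedBall v (r / 2) ⊆ V :=
    (Metric.closedBall_subset_ball (by linarith)).trans hrV
  obtain ⟨M, hM⟩ := hK.exists_bound_of_continuousOn (h1.mono (prod_mono hsub le_rfl))
  have hM0 : 0 ≤ M := (norm_nonneg _).trans
    (hM (v, a) ⟨Metric.mem_closedBall_self (by positivity), left_mem_uIcc⟩)
  have hcont : ∀ z ∈ V, ContinuousOn (fun θ => G z θ) (uIcc a b) := by
    intro z hz
    refine h1.comp (f := fun θ => (z, θ)) (by fun_prop) ?_
    intro θ hθ
    exact ⟨hz, hθ⟩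
  refine intervalIntegral.hasFDerivAt_integral_of_dominated_of_fderiv_le (𝕜 := ℂ)
    (F' := fun z θ => fderiv ℂ (fun v => G v θ) z) (bound := fun _ => 2 * M / (r / 4))
    (s := Metric.ball v (r / 4)) (Metric.ball_mem_nhds v (by positivity)) ?_ ?_ ?_ ?_ ?_ ?_
  · filter_upwards [hV.mem_nhds hv] with z hz
    exact ((hcont z hz).mono uIoc_subset_uIcc).aestronglyMeasurable measurableSet_uIoc
  · exact (hcont v hv).intervalIntegrable
  · exact ((lib_fderiv_cont hV h1 h2 hv).mono uIoc_subset_uIcc).aestronglyMeasurable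
      measurableSet_uIoc
  · refine Eventually.of_forall fun θ hθ z hz => ?_
    have hθ' := uIoc_subset_uIcc hθ
    rw [Metric.mem_ball] at hz
    have hs : Metric.ball z (r / 4) ⊆ Metric.closedBall v (r / 2) := by
      intro y hy
      rw [Metric.mem_ball] at hy
      rw [Metric.mem_closedBall]
      have := dist_triangle y z v
      linarith
    refine lib_cauchy (by positivity) hM0 ((h2 θ hθ').mono (hs.trans hsub)) ?_
    intro y hy
    exact hM (y, θ) ⟨hs hy, hθ'⟩
  · exact intervalIntegrable_const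
  · refine Eventually.of_forall fun θ hθ z hz => ?_
    have hθ' := uIoc_subset_uIcc hθ
    have hzV : z ∈ V := by
      refine hrV ?_
      rw [Metric.mem_ball] at hz ⊢
      linarith
    exact ((h2 θ hθ' z hzV).differentiableAt (hV.mem_nhds hzV)).hasFDerivAt

lemma lib_param_diff [ProperSpace E] {V : Set E} (hV : IsOpen V) {a b : ℝ} {G : E → ℝ → ℂ}
    (h1 : ContinuousOn (Function.uncurry G) (V ×ˢ uIcc a b))
    (h2 : ∀ θ ∈ uIcc a b, DifferentiableOn ℂ (fun x => G x θ) V) :
    DifferentiableOn ℂ (fun v => ∫ θ in a..b, G v θ) V := fun v hv =>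
  (lib_param hV h1 h2 hv).differentiableAt.differentiableWithinAt

/-- directional derivatives are holomorphic -/
lemma lib_dir [ProperSpace E] {V : Set E} (hV : IsOpen V) {f : E → ℂ}
    (hf : DifferentiableOn ℂ f V) (w : E) :
    DifferentiableOn ℂ (fun z => fderiv ℂ f z w) V := by
  intro v hv
  obtain ⟨r, hr, hrV⟩ := Metric.isOpen_iff.1 hV v hv
  set ρ : ℝ := r / (4 * (‖w‖ + 1)) with hρ
  have hw1 : 0 < ‖w‖ + 1 := by positivity
  have hρ0 : 0 < ρ := by positivity
  have hρw : ρ * ‖w‖ ≤ r / 4 := by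
    have : ρ * (‖w‖ + 1) = r / 4 := by
      rw [hρ]
      field_simp
    nlinarith
  have hmem : ∀ z ∈ Metric.ball v (r / 4), ∀ t : ℂ, ‖t‖ ≤ ρ → z + t • w ∈ V := by
    intro z hz t ht
    apply hrV
    rw [Metric.mem_ball] at hz ⊢
    have h1 : dist (z + t • w) z ≤ r / 4 := by
      rw [dist_eq_norm, add_sub_cancel_left, norm_smul]
      exact (mul_le_mul_of_nonneg_right ht (norm_nonneg _)).trans hρw
    have := dist_triangle (z + t • w) z v
    linarith
  have hline : ∀ (z : E) (t : ℂ), HasDerivAt (fun t : ℂ => z + t • w) w t := by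
    intro z t
    simpa using ((hasDerivAt_id t).smul_const w).const_add z
  have key : ∀ z ∈ Metric.ball v (r / 4), fderiv ℂ f z w = (2 * π * Complex.I : ℂ)⁻¹ •
      ∫ θ in (0 : ℝ)..2 * π, deriv (circleMap 0 ρ) θ • ((1 / (circleMap 0 ρ θ - 0) ^ 2) •
        f (z + circleMap 0 ρ θ • w)) := by
    intro z hz
    have hdc : DiffContOnCl ℂ (fun t : ℂ => f (z + t • w)) (Metric.ball 0 ρ) := by
      refine DifferentiableOn.diffContOnCl ?_
      rw [closure_ball _ hρ0.ne']
      intro t ht
      rw [Metric.mem_closedBall, dist_zero_right] at ht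
      have h1 : DifferentiableAt ℂ f (z + t • w) :=
        (hf _ (hmem z hz t ht)).differentiableAt (hV.mem_nhds (hmem z hz t ht))
      exact (h1.comp t (hline z t).differentiableAt).differentiableWithinAt
    have h0 : z ∈ V := by
      have := hmem z hz 0 (by rw [norm_zero]; exact hρ0.le)
      rwa [zero_smul, add_zero] at this
    have hd : deriv (fun t : ℂ => f (z + t • w)) 0 = fderiv ℂ f z w := by
      have h1 : HasFDerivAt f (fderiv ℂ f z) (z + (0 : ℂ) • w) := by
        rw [zero_smul, add_zero]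
        exact ((hf z h0).differentiableAt (hV.mem_nhds h0)).hasFDerivAt
      exact (h1.comp_hasDerivAt (0 : ℂ) (hline z 0)).deriv
    have h2 := hdc.deriv_eq_smul_circleIntegral hρ0
    have h3 : (2 * π * Complex.I : ℂ) ≠ 0 := Complex.two_pi_I_ne_zero
    rw [← hd, eq_inv_smul_iff₀ h3]
    exact h2.symm
  have hP : DifferentiableOn ℂ (fun z => (2 * π * Complex.I : ℂ)⁻¹ •
      ∫ θ in (0 : ℝ)..2 * π, deriv (circleMap 0 ρ) θ • ((1 / (circleMap 0 ρ θ - 0) ^ 2) •
        f (z + circleMap 0 ρ θ • w))) (Metric.ball v (r / 4)) := by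
    have hcm : ∀ θ : ℝ, ‖circleMap 0 ρ θ‖ ≤ ρ := by
      intro θ
      rw [norm_circleMap_zero, abs_of_pos hρ0]
    have hfc : ContinuousOn f V := hf.continuousOn
    have hmain : DifferentiableOn ℂ (fun z =>
      ∫ θ in (0 : ℝ)..2 * π, deriv (circleMap 0 ρ) θ • ((1 / (circleMap 0 ρ θ - 0) ^ 2) •
        f (z + circleMap 0 ρ θ • w))) (Metric.ball v (r / 4)) := ?_
    · exact hmain.fun_const_smul _
    refine lib_param_diff Metric.isOpen_ball ?_ ?_
    · have hne : ∀ θ : ℝ, circleMap 0 ρ θ - 0 ≠ 0 := by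
        intro θ
        rw [sub_zero]
        exact circleMap_ne_center hρ0.ne'
      have c1 : Continuous (fun θ : ℝ => deriv (circleMap 0 ρ) θ) := by
        have : (fun θ : ℝ => deriv (circleMap 0 ρ) θ) =
            fun θ : ℝ => circleMap 0 ρ θ * Complex.I := by
          funext θ
          rw [deriv_circleMap]
        rw [this]
        exact (continuous_circleMap 0 ρ).mul continuous_const
      have c2 : Continuous (fun θ : ℝ => 1 / (circleMap 0 ρ θ - 0) ^ 2) := by
        refine continuous_const.div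
          (((continuous_circleMap 0 ρ).sub continuous_const).pow 2) ?_
        intro θ
        exact pow_ne_zero 2 (hne θ)
      have c3 : ContinuousOn (fun p : E × ℝ => f (p.1 + circleMap 0 ρ p.2 • w))
          (Metric.ball v (r / 4) ×ˢ uIcc 0 (2 * π)) := by
        refine hfc.comp ?_ ?_
        · exact (continuous_fst.add
            (((continuous_circleMap 0 ρ).comp continuous_snd).smul continuous_const)).continuousOn
        · intro p hp
          exact hmem p.1 hp.1 _ (hcm p.2)
      exact ((c1.comp continuous_snd).continuousOn).smul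
        (((c2.comp continuous_snd).continuousOn).smul c3)
    · intro θ _
      refine DifferentiableOn.fun_const_smul (DifferentiableOn.fun_const_smul ?_ _) _
      intro z hz
      have h1 : DifferentiableAt ℂ f (z + circleMap 0 ρ θ • w) :=
        (hf _ (hmem z hz _ (hcm θ))).differentiableAt (hV.mem_nhds (hmem z hz _ (hcm θ)))
      exact (DifferentiableAt.comp z h1
        (differentiableAt_id.add_const _)).differentiableWithinAt
  have hv4 : v ∈ Metric.ball v (r / 4) := Metric.mem_ball_self (by positivity)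
  have hD := (hP v hv4).differentiableAt (Metric.ball_mem_nhds v (by positivity))
  refine (hD.congr_of_eventuallyEq ?_).differentiableWithinAt
  filter_upwards [Metric.ball_mem_nhds v (show 0 < r / 4 by positivity)] with z hz
  exact key z hz

/-- holomorphic functions are smooth -/
lemma lib_contDiff [FiniteDimensional ℂ E] {V : Set E} (hV : IsOpen V) (n : ℕ) :
    ∀ {f : E → ℂ}, DifferentiableOn ℂ f V → ContDiffOn ℂ n f V := by
  have : ProperSpace E := FiniteDimensional.proper ℂ E
  induction n with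
  | zero =>
    intro f hf
    exact contDiffOn_zero.2 hf.continuousOn
  | succ n ih =>
    intro f hf
    have h1 : ((n + 1 : ℕ) : WithTop ℕ∞) = (n : WithTop ℕ∞) + 1 := by push_cast; rfl
    rw [h1, contDiffOn_succ_iff_fderiv_of_isOpen hV]
    refine ⟨hf, ?_, ?_⟩
    · intro h
      exact absurd h (by exact_mod_cast WithTop.coe_ne_top)
    · rw [contDiffOn_clm_apply]
      intro w
      exact ih (lib_dir hV hf w)

end general

/-! ### Partial derivatives -/

/-- partial derivative -/
def lib_pd {n : ℕ} (i : Fin n) (F : (Fin n → ℂ) → ℂ) (z : Fin n → ℂ) : ℂ :=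
  deriv (fun t => F (Function.update z i t)) (z i)

/-- iterated partial derivatives -/
def lib_pds {n : ℕ} (l : List (Fin n)) (F : (Fin n → ℂ) → ℂ) : (Fin n → ℂ) → ℂ := l.foldr lib_pd F

lemma lib_pds_nil {n : ℕ} (F : (Fin n → ℂ) → ℂ) : lib_pds [] F = F := rfl

lemma lib_pds_cons {n : ℕ} (i : Fin n) (l : List (Fin n)) (F : (Fin n → ℂ) → ℂ) :
    lib_pds (i :: l) F = lib_pd i (lib_pds l F) := rfl

lemma lib_isOpen_PU (n : ℕ) {U : Set ℂ} (hU : IsOpen U) : IsOpen (PU n U) := by
  have : PU n U = Set.pi univ (fun _ : Fin n => U) := by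
    ext z
    simp [PU]
  rw [this]
  exact isOpen_set_pi finite_univ fun _ _ => hU

lemma lib_isOpen_St (s : ℝ) : IsOpen (St s) :=
  isOpen_lt (Complex.continuous_im.abs) continuous_const

lemma lib_real_St {s : ℝ} (hs : 0 < s) (x : ℝ) : (x : ℂ) ∈ St s := by
  show |((x : ℂ)).im| < s
  rw [Complex.ofReal_im, abs_zero]
  exact hs

lemma lib_cons_PU {n : ℕ} {U : Set ℂ} {a : ℂ} {v : Fin n → ℂ} (ha : a ∈ U) (hv : v ∈ PU n U) :
    (Fin.cons a v : Fin (n + 1) → ℂ) ∈ PU (n + 1) U := by
  intro i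
  refine Fin.cases ?_ (fun j => ?_) i
  · exact ha
  · exact hv j

lemma lib_update_PU {n : ℕ} {U : Set ℂ} {a : ℂ} {v : Fin n → ℂ} (i : Fin n) (ha : a ∈ U)
    (hv : v ∈ PU n U) : Function.update v i a ∈ PU n U := by
  intro j
  by_cases h : j = i
  · subst h
    rw [Function.update_self]
    exact ha
  · rw [Function.update_of_ne h]
    exact hv j

lemma lib_pd_eq_fderiv {n : ℕ} (i : Fin n) {F : (Fin n → ℂ) → ℂ} {z : Fin n → ℂ}
    (h : DifferentiableAt ℂ F z) : lib_pd i F z = fderiv ℂ F z (Pi.single i 1) := by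
  have h1 : HasFDerivAt F (fderiv ℂ F z) (Function.update z i (z i)) := by
    rw [Function.update_eq_self]
    exact h.hasFDerivAt
  exact (h1.comp_hasDerivAt (z i) (hasDerivAt_update z i (z i))).deriv

lemma lib_pd_congr {n : ℕ} (i : Fin n) {F G : (Fin n → ℂ) → ℂ} {U : Set ℂ} (hU : IsOpen U)
    (h : ∀ z ∈ PU n U, F z = G z) {z : Fin n → ℂ} (hz : z ∈ PU n U) : lib_pd i F z = lib_pd i G z := by
  refine Filter.EventuallyEq.deriv_eq ?_
  filter_upwards [hU.mem_nhds (hz i)] with t ht
  exact h _ (lib_update_PU i ht hz)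

lemma lib_pd_hol {n : ℕ} (i : Fin n) {F : (Fin n → ℂ) → ℂ} {U : Set ℂ} (hU : IsOpen U)
    (hF : DifferentiableOn ℂ F (PU n U)) : DifferentiableOn ℂ (lib_pd i F) (PU n U) := by
  refine (lib_dir (lib_isOpen_PU n hU) hF (Pi.single i 1)).congr ?_
  intro z hz
  exact lib_pd_eq_fderiv i ((hF z hz).differentiableAt ((lib_isOpen_PU n hU).mem_nhds hz))

lemma lib_pds_hol {n : ℕ} (l : List (Fin n)) {F : (Fin n → ℂ) → ℂ} {U : Set ℂ} (hU : IsOpen U)
    (hF : DifferentiableOn ℂ F (PU n U)) : DifferentiableOn ℂ (lib_pds l F) (PU n U) := by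
  induction l with
  | nil => exact hF
  | cons i l ih => exact lib_pd_hol i hU ih

lemma lib_pd_comm {n : ℕ} (i j : Fin n) {F : (Fin n → ℂ) → ℂ} {U : Set ℂ} (hU : IsOpen U)
    (hF : DifferentiableOn ℂ F (PU n U)) {z : Fin n → ℂ} (hz : z ∈ PU n U) :
    lib_pd i (lib_pd j F) z = lib_pd j (lib_pd i F) z := by
  have hO := lib_isOpen_PU n hU
  have hc : ContDiffAt ℂ 2 F z := by
    have h1 : ContDiffOn ℂ 2 F (PU n U) := by exact_mod_cast lib_contDiff hO 2 hF
    exact h1.contDiffAt (hO.mem_nhds hz)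
  have hsymm : IsSymmSndFDerivAt ℂ F z := by
    refine hc.isSymmSndFDerivAt ?_
    rw [minSmoothness_of_isRCLikeNormedField]
  have hd : ∀ k : Fin n, ∀ᶠ y in 𝓝 z, lib_pd k F y = fderiv ℂ F y (Pi.single k 1) := by
    intro k
    filter_upwards [hO.mem_nhds hz] with y hy
    exact lib_pd_eq_fderiv k ((hF y hy).differentiableAt (hO.mem_nhds hy))
  have hfd : DifferentiableAt ℂ (fderiv ℂ F) z := by
    have h1 : ContDiffAt ℂ 1 (fderiv ℂ F) z := hc.fderiv_right (by norm_num)
    exact h1.differentiableAt (by norm_num)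
  have key : ∀ k l : Fin n, lib_pd k (lib_pd l F) z =
      fderiv ℂ (fderiv ℂ F) z (Pi.single k 1) (Pi.single l 1) := by
    intro k l
    have h1 : DifferentiableAt ℂ (lib_pd l F) z :=
      (lib_pd_hol l hU hF z hz).differentiableAt (hO.mem_nhds hz)
    rw [lib_pd_eq_fderiv k h1, Filter.EventuallyEq.fderiv_eq (hd l)]
    rw [fderiv_clm_apply hfd (differentiableAt_const _)]
    simp
  rw [key, key]
  exact hsymm _ _

lemma lib_pds_congr {n : ℕ} (l : List (Fin n)) {F G : (Fin n → ℂ) → ℂ} {U : Set ℂ} (hU : IsOpen U)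
    (h : ∀ z ∈ PU n U, F z = G z) : ∀ z ∈ PU n U, lib_pds l F z = lib_pds l G z := by
  induction l with
  | nil => exact h
  | cons i l ih => exact fun z hz => lib_pd_congr i hU ih hz

lemma lib_pds_perm {n : ℕ} {l l' : List (Fin n)} (h : l.Perm l') {F : (Fin n → ℂ) → ℂ} {U : Set ℂ}
    (hU : IsOpen U) (hF : DifferentiableOn ℂ F (PU n U)) :
    ∀ z ∈ PU n U, lib_pds l F z = lib_pds l' F z := by
  induction h with
  | nil => exact fun z _ => rfl
  | cons i _ ih => exact fun z hz => lib_pd_congr i hU ih hz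
  | swap i j l => exact fun z hz => lib_pd_comm _ _ hU (lib_pds_hol l hU hF) hz
  | trans _ _ ih1 ih2 => exact fun z hz => (ih1 z hz).trans (ih2 z hz)

lemma lib_pd_const_mul {n : ℕ} (i : Fin n) (c : ℂ) (F : (Fin n → ℂ) → ℂ) (z : Fin n → ℂ) :
    lib_pd i (fun z => c * F z) z = c * lib_pd i F z := by
  unfold lib_pd
  exact deriv_const_mul_field c

lemma lib_pd_sum {n : ℕ} {J : Type} (i : Fin n) (S : Finset J) (F : J → (Fin n → ℂ) → ℂ) {U : Set ℂ}
    (hU : IsOpen U) (hF : ∀ j ∈ S, DifferentiableOn ℂ (F j) (PU n U)) {z : Fin n → ℂ}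
    (hz : z ∈ PU n U) : lib_pd i (fun z => ∑ j ∈ S, F j z) z = ∑ j ∈ S, lib_pd i (F j) z := by
  unfold lib_pd
  rw [← deriv_fun_sum]
  intro j hj
  have h1 : DifferentiableAt ℂ (F j) (Function.update z i (z i)) := by
    rw [Function.update_eq_self]
    exact (hF j hj z hz).differentiableAt ((lib_isOpen_PU n hU).mem_nhds hz)
  exact h1.comp (z i) (hasDerivAt_update z i (z i)).differentiableAt

/-- permutation of the variables -/
lemma lib_pd_permute {n : ℕ} (k : Fin n) (σ : Equiv.Perm (Fin n)) (F : (Fin n → ℂ) → ℂ)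
    (z : Fin n → ℂ) :
    lib_pd k (fun z => F (fun i => z (σ i))) z = lib_pd (σ.symm k) F (fun i => z (σ i)) := by
  unfold lib_pd
  have e1 : z k = (fun i => z (σ i)) (σ.symm k) := by
    show z k = z (σ (σ.symm k))
    rw [Equiv.apply_symm_apply]
  have e2 : ∀ t, (fun i => Function.update z k t (σ i)) =
      Function.update (fun i => z (σ i)) (σ.symm k) t := by
    intro t
    funext i
    by_cases h : i = σ.symm k
    · subst h
      rw [Function.update_self, Equiv.apply_symm_apply, Function.update_self]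
    · rw [Function.update_of_ne h, Function.update_of_ne]
      intro h'
      apply h
      rw [← h', Equiv.symm_apply_apply]
  simp only [e2]
  rw [Equiv.apply_symm_apply]

/-- alternating functions -/
lemma lib_pds_alt {n : ℕ} (l : List (Fin n)) {F : (Fin n → ℂ) → ℂ} {U : Set ℂ} (hU : IsOpen U)
    (σ : Equiv.Perm (Fin n)) {c : ℂ} (hF : ∀ z ∈ PU n U, F (fun i => z (σ i)) = c * F z) :
    ∀ z ∈ PU n U, lib_pds (l.map σ.symm) F (fun i => z (σ i)) = c * lib_pds l F z := by
  induction l with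
  | nil => exact hF
  | cons k l ih =>
    intro z hz
    rw [List.map_cons, lib_pds_cons, lib_pds_cons, ← lib_pd_permute k σ, ← lib_pd_const_mul]
    exact lib_pd_congr k hU ih hz

lemma lib_pds_zero {n : ℕ} (l : List (Fin n)) {F : (Fin n → ℂ) → ℂ} {U : Set ℂ} (hU : IsOpen U)
    (hF : BO n U F) (a b : Fin n) (hab : a ≠ b) (hl : (l.map (Equiv.swap a b)).Perm l)
    {z : Fin n → ℂ} (hz : z ∈ PU n U) (he : z a = z b) : lib_pds l F z = 0 := by
  have h1 := lib_pds_alt (F := F) l hU (Equiv.swap a b) (c := -1) (by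
    intro y hy
    rw [hF.alt y hy, Equiv.Perm.sign_swap hab]
    push_cast
    rfl) z hz
  rw [Equiv.symm_swap] at h1
  have h2 : (fun i => z (Equiv.swap a b i)) = z := by
    funext i
    by_cases h3 : i = a
    · rw [h3, Equiv.swap_apply_left, he]
    by_cases h4 : i = b
    · rw [h4, Equiv.swap_apply_right, he]
    rw [Equiv.swap_apply_of_ne_of_ne h3 h4]
  rw [h2, lib_pds_perm hl hU hF.hol z hz] at h1
  linear_combination h1 / 2

/-- derivative along a diagonal -/
lemma lib_pd_diag {n : ℕ} (i j : Fin n) (hij : i ≠ j) {F : (Fin n → ℂ) → ℂ} {z : Fin n → ℂ} {t0 : ℂ}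
    (hi : z i = t0) (hj : z j = t0) (h : DifferentiableAt ℂ F z) :
    deriv (fun t => F (Function.update (Function.update z i t) j t)) t0 = lib_pd i F z + lib_pd j F z := by
  have e : ∀ t, Function.update (Function.update z i t) j t =
      z + (t - t0) • ((Pi.single i 1 : Fin n → ℂ) + Pi.single j 1) := by
    intro t
    funext k
    simp only [Pi.add_apply, Pi.smul_apply, smul_eq_mul]
    by_cases h1 : k = j
    · subst h1
      rw [Function.update_self, Pi.single_eq_same, Pi.single_eq_of_ne hij.symm, hj]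
      ring
    · rw [Function.update_of_ne h1, Pi.single_eq_of_ne h1]
      by_cases h2 : k = i
      · subst h2
        rw [Function.update_self, Pi.single_eq_same, hi]
        ring
      · rw [Function.update_of_ne h2, Pi.single_eq_of_ne h2]
        ring
  simp only [e]
  have h1 : HasFDerivAt F (fderiv ℂ F z)
      (z + (t0 - t0) • ((Pi.single i 1 : Fin n → ℂ) + Pi.single j 1)) := by
    rw [sub_self, zero_smul, add_zero]
    exact h.hasFDerivAt
  have h2 : HasDerivAt (fun t : ℂ => z + (t - t0) • ((Pi.single i 1 : Fin n → ℂ) + Pi.single j 1))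
      ((Pi.single i 1 : Fin n → ℂ) + Pi.single j 1) t0 := by
    have h3 := (((hasDerivAt_id t0).sub_const t0).smul_const
      ((Pi.single i 1 : Fin n → ℂ) + Pi.single j 1)).const_add z
    rw [one_smul] at h3
    exact h3
  have h4 : deriv (fun t => F (z + (t - t0) • ((Pi.single i 1 : Fin n → ℂ) + Pi.single j 1))) t0 =
      fderiv ℂ F z (Pi.single i 1 + Pi.single j 1) := (h1.comp_hasDerivAt t0 h2).deriv
  rw [h4, map_add, lib_pd_eq_fderiv i h, lib_pd_eq_fderiv j h]

/-! ### Derivatives in the leading variables -/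

lemma lib_pd_zero_cons {n : ℕ} (F : (Fin (n + 1) → ℂ) → ℂ) (a : ℂ) (v : Fin n → ℂ) :
    lib_pd 0 F (Fin.cons a v) = deriv (fun t => F (Fin.cons t v)) a := by
  unfold lib_pd
  simp only [Fin.update_cons_zero, Fin.cons_zero]

lemma lib_pd_succ_cons {n : ℕ} (k : Fin n) (F : (Fin (n + 1) → ℂ) → ℂ) (a : ℂ) (v : Fin n → ℂ) :
    lib_pd k.succ F (Fin.cons a v) = lib_pd k (fun w => F (Fin.cons a w)) v := by
  unfold lib_pd
  simp only [← Fin.cons_update, Fin.cons_succ]

lemma lib_iter2 (f : ℂ → ℂ) (x : ℂ) : iteratedDeriv 2 f x = deriv (deriv f) x := by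
  rw [iteratedDeriv_succ, iteratedDeriv_one]

lemma lib_ec_eq (q : ℕ) (F : (Fin (q + 2) → ℂ) → ℂ) (v : Fin q → ℂ) :
    ec q F v = ∫ x in (0 : ℝ)..1, lib_pds [Fin.succ 0] F
      (Fin.cons (x : ℂ) (Fin.cons (x : ℂ) v : Fin (q + 1) → ℂ)) := by
  unfold ec
  refine intervalIntegral.integral_congr fun x _ => ?_
  simp only [lib_pds_cons, lib_pds_nil, lib_pd_succ_cons, lib_pd_zero_cons]

lemma lib_gc_eq (q : ℕ) (F : (Fin (q + 2) → ℂ) → ℂ) (v : Fin q → ℂ) :
    gc q F v = ∫ x in (0 : ℝ)..1, lib_pds [0, Fin.succ 0, Fin.succ 0] F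
      (Fin.cons (x : ℂ) (Fin.cons (x : ℂ) v : Fin (q + 1) → ℂ)) := by
  unfold gc
  refine intervalIntegral.integral_congr fun x _ => ?_
  simp only [lib_pds_cons, lib_pds_nil, lib_pd_succ_cons, lib_pd_zero_cons, lib_iter2]

lemma lib_oc_eq (q : ℕ) (F : (Fin (q + 3) → ℂ) → ℂ) (v : Fin q → ℂ) :
    oc q F v = ∫ x in (0 : ℝ)..1, lib_pds [Fin.succ 0, Fin.succ (Fin.succ 0), Fin.succ (Fin.succ 0)] F
      (Fin.cons (x : ℂ) (Fin.cons (x : ℂ) (Fin.cons (x : ℂ) v : Fin (q + 1) → ℂ) :
        Fin (q + 2) → ℂ)) := by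
  unfold oc
  refine intervalIntegral.integral_congr fun x _ => ?_
  simp only [lib_pds_cons, lib_pds_nil, lib_pd_succ_cons, lib_pd_zero_cons, lib_iter2]

lemma lib_dd_eq (q : ℕ) (F : (Fin (q + 1) → ℂ) → ℂ) (z : Fin q → ℂ) :
    dd q F z = ∑ i : Fin q, (-1 : ℂ) ^ (i : ℕ) * lib_pd i.succ F (i.succ.insertNth (z i) z) := by
  unfold dd lib_pd
  refine Finset.sum_congr rfl fun i _ => ?_
  simp only [Fin.update_insertNth, Fin.insertNth_apply_same]

end

end Pool.Agent.Helper67.DO
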