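import Pool.Agent.Helper67.DO.StmtsE1
import Pool.Agent.Helper26.DO.Lib

/-!
MP_d07457_gt, module E8: contraction with `Ω`.
-/

set_option autoImplicit false

namespace Pool.Agent.Helper67.DO

open scoped BigOperators Real
open Set Filter Topology MeasureTheory

noncomputable section

/-- `(x, x, x, v)` -/
def e8_c3 {q : ℕ} (x : ℂ) (v : Fin q → ℂ) : Fin (q + 3) → ℂ :=
  Fin.cons x (Fin.cons x (Fin.cons x v : Fin (q + 1) → ℂ) : Fin (q + 2) → ℂ)

/-- the three derivatives -/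
def e8_l (q : ℕ) : List (Fin (q + 3)) :=
  [Fin.succ 0, Fin.succ (Fin.succ 0), Fin.succ (Fin.succ 0)]

lemma e8_oc (q : ℕ) (F : (Fin (q + 3) → ℂ) → ℂ) (v : Fin q → ℂ) :
    oc q F v = ∫ x in (0 : ℝ)..1, lib_pds (e8_l q) F (e8_c3 (x : ℂ) v) := lib_oc_eq q F v

lemma e8_c3_mem {q : ℕ} {U : Set ℂ} {x : ℂ} {v : Fin q → ℂ} (hx : x ∈ U) (hv : v ∈ PU q U) :
    e8_c3 x v ∈ PU (q + 3) U :=
  lib_cons_PU hx (lib_cons_PU hx (lib_cons_PU hx hv))

lemma e8_c3_cont (q : ℕ) : Continuous (fun p : (Fin q → ℂ) × ℝ => e8_c3 (p.2 : ℂ) p.1) := by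
  refine continuous_pi fun i => ?_
  have h0 : Continuous (fun p : (Fin q → ℂ) × ℝ => (p.2 : ℂ)) :=
    Complex.continuous_ofReal.comp continuous_snd
  refine Fin.cases ?_ (fun i => ?_) i
  · exact h0
  refine Fin.cases ?_ (fun i => ?_) i
  · exact h0
  refine Fin.cases ?_ (fun i => ?_) i
  · exact h0
  · exact (continuous_apply i).comp continuous_fst

lemma e8_c3_diff (q : ℕ) (x : ℂ) : Differentiable ℂ (fun v : Fin q → ℂ => e8_c3 x v) := by
  refine differentiable_pi.2 fun i => ?_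
  refine Fin.cases ?_ (fun i => ?_) i
  · exact differentiable_const x
  refine Fin.cases ?_ (fun i => ?_) i
  · exact differentiable_const x
  refine Fin.cases ?_ (fun i => ?_) i
  · exact differentiable_const x
  · exact differentiable_apply i

section
variable {q : ℕ} {s : ℝ}

lemma e8_joint (hs : 0 < s) {H : (Fin (q + 3) → ℂ) → ℂ} (hH : DifferentiableOn ℂ H (PU (q + 3) (St s))) :
    ContinuousOn (Function.uncurry fun (v : Fin q → ℂ) (x : ℝ) => H (e8_c3 (x : ℂ) v))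
      (PU q (St s) ×ˢ uIcc 0 1) := by
  refine hH.continuousOn.comp (e8_c3_cont q).continuousOn ?_
  intro p hp
  exact e8_c3_mem (lib_real_St hs p.2) hp.1

lemma e8_slice (hs : 0 < s) {H : (Fin (q + 3) → ℂ) → ℂ} (hH : DifferentiableOn ℂ H (PU (q + 3) (St s)))
    (x : ℝ) : DifferentiableOn ℂ (fun v : Fin q → ℂ => H (e8_c3 (x : ℂ) v)) (PU q (St s)) := by
  refine hH.comp (e8_c3_diff q x).differentiableOn ?_
  intro v hv
  exact e8_c3_mem (lib_real_St hs x) hv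

lemma e8_hol (hs : 0 < s) {F : (Fin (q + 3) → ℂ) → ℂ} (hF : DifferentiableOn ℂ F (PU (q + 3) (St s))) :
    DifferentiableOn ℂ (oc q F) (PU q (St s)) := by
  have e : oc q F = fun v => ∫ x in (0 : ℝ)..1, lib_pds (e8_l q) F (e8_c3 (x : ℂ) v) :=
    funext fun v => e8_oc q F v
  rw [e]
  have hH := lib_pds_hol (e8_l q) (lib_isOpen_St s) hF
  exact lib_param_diff (lib_isOpen_PU q (lib_isOpen_St s)) (e8_joint hs hH)
    (fun x _ => e8_slice hs hH x)

lemma e8_int (hs : 0 < s) {H : (Fin (q + 3) → ℂ) → ℂ} (hH : DifferentiableOn ℂ H (PU (q + 3) (St s)))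
    {v : Fin q → ℂ} (hv : v ∈ PU q (St s)) :
    IntervalIntegrable (fun x : ℝ => H (e8_c3 (x : ℂ) v)) volume 0 1 := by
  refine ContinuousOn.intervalIntegrable ?_
  refine (e8_joint hs hH).comp (f := fun x : ℝ => (v, x)) (by fun_prop) ?_
  intro x hx
  exact ⟨hv, hx⟩

/-- linearity -/
lemma e8_sum (hs : 0 < s) {J : Type} (S : Finset J) (c : J → ℂ) (G : J → (Fin (q + 3) → ℂ) → ℂ)
    (hG : ∀ j ∈ S, DifferentiableOn ℂ (G j) (PU (q + 3) (St s))) {v : Fin q → ℂ}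
    (hv : v ∈ PU q (St s)) :
    oc q (fun z => ∑ j ∈ S, c j * G j z) v = ∑ j ∈ S, c j * oc q (G j) v := by
  have hU := lib_isOpen_St s
  have key : ∀ l : List (Fin (q + 3)), ∀ z ∈ PU (q + 3) (St s),
      lib_pds l (fun z => ∑ j ∈ S, c j * G j z) z = ∑ j ∈ S, c j * lib_pds l (G j) z := by
    intro l
    induction l with
    | nil => exact fun z _ => rfl
    | cons k l ih =>
      intro z hz
      rw [lib_pds_cons, lib_pd_congr k hU ih hz]
      rw [lib_pd_sum k S (fun j z => c j * lib_pds l (G j) z) hU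
        (fun j hj => (lib_pds_hol l hU (hG j hj)).const_mul (c j)) hz]
      refine Finset.sum_congr rfl fun j _ => ?_
      rw [lib_pd_const_mul, lib_pds_cons]
  rw [e8_oc]
  have e1 : ∀ x : ℝ, lib_pds (e8_l q) (fun z => ∑ j ∈ S, c j * G j z) (e8_c3 (x : ℂ) v) =
      ∑ j ∈ S, c j * lib_pds (e8_l q) (G j) (e8_c3 (x : ℂ) v) := fun x =>
    key _ _ (e8_c3_mem (lib_real_St hs x) hv)
  simp only [e1]
  rw [intervalIntegral.integral_finsetSum]
  · refine Finset.sum_congr rfl fun j _ => ?_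
    rw [intervalIntegral.integral_const_mul, e8_oc]
  · intro j hj
    exact (e8_int hs (lib_pds_hol _ hU (hG j hj)) hv).const_mul (c j)

/-- derivatives in the remaining variables -/
lemma e8_pd (hs : 0 < s) {F : (Fin (q + 3) → ℂ) → ℂ} (hF : DifferentiableOn ℂ F (PU (q + 3) (St s)))
    (k : Fin q) {v : Fin q → ℂ} (hv : v ∈ PU q (St s)) :
    lib_pd k (oc q F) v = oc q (lib_pd k.succ.succ.succ F) v := by
  have hU := lib_isOpen_St s
  have hO := lib_isOpen_PU q hU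
  have hH := lib_pds_hol (e8_l q) hU hF
  have e : oc q F = fun v => ∫ x in (0 : ℝ)..1, lib_pds (e8_l q) F (e8_c3 (x : ℂ) v) :=
    funext fun v => e8_oc q F v
  have h1 := lib_param (a := 0) (b := 1) (G := fun (v : Fin q → ℂ) (x : ℝ) =>
    lib_pds (e8_l q) F (e8_c3 (x : ℂ) v)) hO (e8_joint hs hH) (fun x _ => e8_slice hs hH x) hv
  have hint : IntervalIntegrable (fun x : ℝ => fderiv ℂ (fun v : Fin q → ℂ =>
      lib_pds (e8_l q) F (e8_c3 (x : ℂ) v)) v) volume 0 1 :=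
    (lib_fderiv_cont hO (e8_joint hs hH) (fun x _ => e8_slice hs hH x) hv).intervalIntegrable
  rw [e, lib_pd_eq_fderiv k h1.differentiableAt, h1.fderiv,
    ContinuousLinearMap.intervalIntegral_apply hint, e8_oc]
  refine intervalIntegral.integral_congr fun x _ => ?_
  have hx := e8_c3_mem (lib_real_St hs x) hv
  have h2 : DifferentiableAt ℂ (fun v : Fin q → ℂ => lib_pds (e8_l q) F (e8_c3 (x : ℂ) v)) v :=
    (e8_slice hs hH x v hv).differentiableAt (hO.mem_nhds hv)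
  show fderiv ℂ (fun v : Fin q → ℂ => lib_pds (e8_l q) F (e8_c3 (x : ℂ) v)) v (Pi.single k 1) =
    lib_pds (e8_l q) (lib_pd k.succ.succ.succ F) (e8_c3 (x : ℂ) v)
  rw [← lib_pd_eq_fderiv k h2]
  have h3 : lib_pd k (fun v : Fin q → ℂ => lib_pds (e8_l q) F (e8_c3 (x : ℂ) v)) v =
      lib_pds (k.succ.succ.succ :: e8_l q) F (e8_c3 (x : ℂ) v) := by
    rw [lib_pds_cons]
    unfold e8_c3
    rw [lib_pd_succ_cons, lib_pd_succ_cons, lib_pd_succ_cons]
  have h4 : lib_pds (e8_l q) (lib_pd k.succ.succ.succ F) (e8_c3 (x : ℂ) v) =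
      lib_pds (e8_l q ++ [k.succ.succ.succ]) F (e8_c3 (x : ℂ) v) := by
    unfold lib_pds
    rw [List.foldr_append]
    rfl
  rw [h3, h4]
  exact lib_pds_perm (List.perm_append_singleton _ _).symm hU hF _ hx

end

/-! ### Periodicity, symmetry, bounds -/

lemma e8_St_add (s : ℝ) {z : ℂ} (hz : z ∈ St s) : z + 1 ∈ St s := by
  show |(z + 1).im| < s
  rw [Complex.add_im, Complex.one_im, add_zero]
  exact hz

lemma e8_update_add {n : ℕ} (z : Fin n → ℂ) (i : Fin n) :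
    Function.update z i (z i + 1) = z + Pi.single i 1 := by
  funext k
  by_cases h : k = i
  · subst h
    rw [Function.update_self, Pi.add_apply, Pi.single_eq_same]
  · rw [Function.update_of_ne h, Pi.add_apply, Pi.single_eq_of_ne h, add_zero]

lemma e8_pds_per {n : ℕ} {s : ℝ} {F : (Fin n → ℂ) → ℂ} (hF : BO n (St s) F) (l : List (Fin n))
    (i : Fin n) : ∀ z ∈ PU n (St s), lib_pds l F (z + Pi.single i 1) = lib_pds l F z := by
  have hU := lib_isOpen_St s
  have hO := lib_isOpen_PU n hU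
  induction l with
  | nil =>
    intro z hz
    rw [← e8_update_add]
    exact hF.per z hz i
  | cons k l ih =>
    intro z hz
    have hH := lib_pds_hol l hU hF.hol
    have hz' : z + Pi.single i 1 ∈ PU n (St s) := by
      rw [← e8_update_add]
      exact lib_update_PU i (e8_St_add s (hz i)) hz
    rw [lib_pds_cons, lib_pd_eq_fderiv k ((hH z hz).differentiableAt (hO.mem_nhds hz)),
      lib_pd_eq_fderiv k ((hH _ hz').differentiableAt (hO.mem_nhds hz')), ← fderiv_comp_add_right]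
    have h1 : (fun y => lib_pds l F (y + Pi.single i 1)) =ᶠ[𝓝 z] lib_pds l F := by
      filter_upwards [hO.mem_nhds hz] with y hy
      exact ih y hy
    rw [h1.fderiv_eq]

lemma e8_per {q : ℕ} {s : ℝ} (hs : 0 < s) {F : (Fin (q + 3) → ℂ) → ℂ} (hF : BO (q + 3) (St s) F)
    {v : Fin q → ℂ} (hv : v ∈ PU q (St s)) (i : Fin q) :
    oc q F (Function.update v i (v i + 1)) = oc q F v := by
  rw [e8_oc, e8_oc]
  refine intervalIntegral.integral_congr fun x _ => ?_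
  have h1 : e8_c3 (x : ℂ) (Function.update v i (v i + 1)) =
      e8_c3 (x : ℂ) v + Pi.single i.succ.succ.succ 1 := by
    rw [← e8_update_add]
    unfold e8_c3
    rw [Fin.cons_update, Fin.cons_update, Fin.cons_update]
    simp only [Fin.cons_succ]
  show lib_pds (e8_l q) F (e8_c3 (x : ℂ) (Function.update v i (v i + 1))) = _
  rw [h1]
  exact e8_pds_per hF _ _ _ (e8_c3_mem (lib_real_St hs x) hv)

/-- extension of a permutation -/
def e8_ext {n : ℕ} (σ : Equiv.Perm (Fin n)) : Equiv.Perm (Fin (n + 1)) :=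
  Equiv.Perm.decomposeFin.symm (0, σ)

lemma e8_ext_zero {n : ℕ} (σ : Equiv.Perm (Fin n)) : e8_ext σ 0 = 0 :=
  Equiv.Perm.decomposeFin_symm_apply_zero 0 σ

lemma e8_ext_succ {n : ℕ} (σ : Equiv.Perm (Fin n)) (i : Fin n) : e8_ext σ i.succ = (σ i).succ := by
  unfold e8_ext
  rw [Equiv.Perm.decomposeFin_symm_apply_succ, Equiv.swap_self, Equiv.refl_apply]

lemma e8_ext_symm_zero {n : ℕ} (σ : Equiv.Perm (Fin n)) : (e8_ext σ).symm 0 = 0 := by
  rw [Equiv.symm_apply_eq, e8_ext_zero]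

lemma e8_ext_symm_succ {n : ℕ} (σ : Equiv.Perm (Fin n)) (i : Fin n) :
    (e8_ext σ).symm i.succ = (σ.symm i).succ := by
  rw [Equiv.symm_apply_eq, e8_ext_succ, Equiv.apply_symm_apply]

lemma e8_ext_sign {n : ℕ} (σ : Equiv.Perm (Fin n)) :
    Equiv.Perm.sign (e8_ext σ) = Equiv.Perm.sign σ := by
  unfold e8_ext
  rw [Equiv.Perm.decomposeFin.symm_sign, if_pos rfl, one_mul]

lemma e8_ext_cons {n : ℕ} (σ : Equiv.Perm (Fin n)) (x : ℂ) (v : Fin n → ℂ) :
    (Fin.cons x (fun i => v (σ i)) : Fin (n + 1) → ℂ) =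
      fun i => (Fin.cons x v : Fin (n + 1) → ℂ) (e8_ext σ i) := by
  funext i
  refine Fin.cases ?_ (fun i => ?_) i
  · rw [e8_ext_zero, Fin.cons_zero, Fin.cons_zero]
  · rw [e8_ext_succ, Fin.cons_succ, Fin.cons_succ]

lemma e8_alt {q : ℕ} {s : ℝ} (hs : 0 < s) {F : (Fin (q + 3) → ℂ) → ℂ} (hF : BO (q + 3) (St s) F)
    {v : Fin q → ℂ} (hv : v ∈ PU q (St s)) (σ : Equiv.Perm (Fin q)) :
    oc q F (fun i => v (σ i)) = ((Equiv.Perm.sign σ : ℤ) : ℂ) * oc q F v := by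
  rw [e8_oc, e8_oc, ← intervalIntegral.integral_const_mul]
  refine intervalIntegral.integral_congr fun x _ => ?_
  have h1 : e8_c3 (x : ℂ) (fun i => v (σ i)) =
      fun i => e8_c3 (x : ℂ) v (e8_ext (e8_ext (e8_ext σ)) i) := by
    unfold e8_c3
    rw [e8_ext_cons, e8_ext_cons, e8_ext_cons]
  have h2 := lib_pds_alt (F := F) (e8_l q) (lib_isOpen_St s) (e8_ext (e8_ext (e8_ext σ)))
    (c := ((Equiv.Perm.sign σ : ℤ) : ℂ)) (by
      intro z hz
      rw [hF.alt z hz, e8_ext_sign, e8_ext_sign, e8_ext_sign]) (e8_c3 (x : ℂ) v)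
    (e8_c3_mem (lib_real_St hs x) hv)
  have h3 : (e8_l q).map (e8_ext (e8_ext (e8_ext σ))).symm = e8_l q := by
    unfold e8_l
    simp only [List.map_cons, List.map_nil, e8_ext_symm_succ, e8_ext_symm_zero]
  rw [h3] at h2
  show lib_pds (e8_l q) F (e8_c3 (x : ℂ) fun i => v (σ i)) = _
  rw [h1, h2]

lemma e8_bound {q : ℕ} {s : ℝ} (hs : 0 < s) {F : (Fin (q + 3) → ℂ) → ℂ}
    (hF : DifferentiableOn ℂ F (PU (q + 3) (St s))) {M : ℝ}
    (hM : ∀ z ∈ PU (q + 3) (St s), ‖F z‖ ≤ M) {v : Fin q → ℂ} (hv : v ∈ PU q (St s)) :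
    ‖oc q F v‖ ≤ 16 / s ^ 3 * M := by
  have hU := lib_isOpen_St s
  have hρ : 0 < s / 2 := by positivity
  have hball : ∀ x : ℝ, Metric.closedBall (x : ℂ) (s / 2) ⊆ St s := by
    intro x z hz
    rw [Metric.mem_closedBall, dist_eq_norm] at hz
    have h1 := Complex.abs_im_le_norm (z - x)
    rw [Complex.sub_im, Complex.ofReal_im, sub_zero] at h1
    show |z.im| < s
    linarith
  rw [e8_oc]
  have hx : ∀ x : ℝ, ‖lib_pds (e8_l q) F (e8_c3 (x : ℂ) v)‖ ≤ 16 / s ^ 3 * M := by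
    intro x
    have hxs : (x : ℂ) ∈ St s := lib_real_St hs x
    set H : ℂ → ℂ := fun a => iteratedDeriv 2 (fun t : ℂ => F (Fin.cons (x : ℂ)
      (Fin.cons a (Fin.cons t v : Fin (q + 1) → ℂ) : Fin (q + 2) → ℂ))) (x : ℂ) with hH
    have e1 : lib_pds (e8_l q) F (e8_c3 (x : ℂ) v) = deriv H (x : ℂ) := by
      unfold e8_l e8_c3
      simp only [hH, lib_pds_cons, lib_pds_nil, lib_pd_succ_cons, lib_pd_zero_cons, lib_iter2]
    have e2 : ∀ a, H a = lib_pds [Fin.succ (Fin.succ 0), Fin.succ (Fin.succ 0)] F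
        (Fin.cons (x : ℂ) (Fin.cons a (Fin.cons (x : ℂ) v : Fin (q + 1) → ℂ) :
          Fin (q + 2) → ℂ)) := by
      intro a
      simp only [hH, lib_pds_cons, lib_pds_nil, lib_pd_succ_cons, lib_pd_zero_cons, lib_iter2]
    have hHd : DifferentiableOn ℂ H (St s) := by
      have h1 := lib_pds_hol [Fin.succ (Fin.succ (0 : Fin (q + 1))), Fin.succ (Fin.succ 0)] hU hF
      have h2 : H = fun a => lib_pds [Fin.succ (Fin.succ 0), Fin.succ (Fin.succ 0)] F
        (Fin.cons (x : ℂ) (Fin.cons a (Fin.cons (x : ℂ) v : Fin (q + 1) → ℂ) :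
          Fin (q + 2) → ℂ)) := funext e2
      rw [h2]
      refine h1.comp (t := PU (q + 3) (St s)) (f := fun a : ℂ => (Fin.cons (x : ℂ) (Fin.cons a
        (Fin.cons (x : ℂ) v : Fin (q + 1) → ℂ) : Fin (q + 2) → ℂ) : Fin (q + 3) → ℂ)) ?_ ?_
      · refine Differentiable.differentiableOn ?_
        refine differentiable_pi.2 fun i => ?_
        refine Fin.cases ?_ (fun i => ?_) i
        · exact differentiable_const _
        refine Fin.cases ?_ (fun i => ?_) i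
        · exact differentiable_id
        · exact differentiable_const _
      · intro a ha
        exact lib_cons_PU hxs (lib_cons_PU ha (lib_cons_PU hxs hv))
    have hHb : ∀ a ∈ St s, ‖H a‖ ≤ 8 / s ^ 2 * M := by
      intro a ha
      have hd : DifferentiableOn ℂ (fun t : ℂ => F (Fin.cons (x : ℂ)
          (Fin.cons a (Fin.cons t v : Fin (q + 1) → ℂ) : Fin (q + 2) → ℂ))) (St s) := by
        refine hF.comp (t := PU (q + 3) (St s)) (f := fun t : ℂ => (Fin.cons (x : ℂ) (Fin.cons a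
          (Fin.cons t v : Fin (q + 1) → ℂ) : Fin (q + 2) → ℂ) : Fin (q + 3) → ℂ)) ?_ ?_
        · refine Differentiable.differentiableOn ?_
          refine differentiable_pi.2 fun i => ?_
          refine Fin.cases ?_ (fun i => ?_) i
          · exact differentiable_const _
          refine Fin.cases ?_ (fun i => ?_) i
          · exact differentiable_const _
          refine Fin.cases ?_ (fun i => ?_) i
          · exact differentiable_id
          · exact differentiable_const _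
        · intro t ht
          exact lib_cons_PU hxs (lib_cons_PU ha (lib_cons_PU ht hv))
      have h1 := Complex.norm_iteratedDeriv_le_of_forall_mem_sphere_norm_le (c := (x : ℂ))
        (R := s / 2) (C := M) 2 hρ (f := fun t : ℂ => F (Fin.cons (x : ℂ)
          (Fin.cons a (Fin.cons t v : Fin (q + 1) → ℂ) : Fin (q + 2) → ℂ))) (by
          refine DifferentiableOn.diffContOnCl ?_
          rw [closure_ball _ hρ.ne']
          exact hd.mono (hball x)) (by
          intro t ht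
          exact hM _ (lib_cons_PU hxs (lib_cons_PU ha
            (lib_cons_PU (hball x (Metric.sphere_subset_closedBall ht)) hv))))
      refine h1.trans (le_of_eq ?_)
      rw [Nat.factorial_two]
      push_cast
      field_simp
      ring
    rw [e1]
    have h2 := Complex.norm_deriv_le_of_forall_mem_sphere_norm_le (c := (x : ℂ)) (R := s / 2)
      (C := 8 / s ^ 2 * M) (f := H) hρ (by
        refine DifferentiableOn.diffContOnCl ?_
        rw [closure_ball _ hρ.ne']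
        exact hHd.mono (hball x)) (by
        intro a ha
        exact hHb a (hball x (Metric.sphere_subset_closedBall ha)))
    refine h2.trans (le_of_eq ?_)
    field_simp
    ring
  refine (intervalIntegral.norm_integral_le_of_norm_le_const fun x _ => hx x).trans (le_of_eq ?_)
  rw [sub_zero, abs_one, mul_one]

/-! ### Wedge with `θ` -/

/-- common part of the two formulas -/
lemma e8_wd {n : ℕ} {s : ℝ} (hs : 0 < s) {F : (Fin (n + 2) → ℂ) → ℂ} (hF : BO (n + 2) (St s) F)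
    {v : Fin n → ℂ} (hv : v ∈ PU n (St s)) :
    oc n (wd (fun _ => 1) (n + 2) F) v = gc n F v -
      ∑ j : Fin n, (-1 : ℂ) ^ (j : ℕ) *
        oc n (fun z => F (Fin.removeNth j.succ.succ.succ z)) v := by
  have hG : ∀ i : Fin (n + 3), DifferentiableOn ℂ (fun z : Fin (n + 3) → ℂ =>
      F (Fin.removeNth i z)) (PU (n + 3) (St s)) := by
    intro i
    refine hF.hol.comp (f := fun z : Fin (n + 3) → ℂ => Fin.removeNth i z) ?_ ?_
    · refine Differentiable.differentiableOn ?_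
      refine differentiable_pi.2 fun k => ?_
      exact differentiable_apply _
    · intro z hz k
      exact hz _
  have e1 : wd (fun _ => 1) (n + 2) F = fun z => ∑ i : Fin (n + 3),
      (-1 : ℂ) ^ (i : ℕ) * F (Fin.removeNth i z) := by
    funext z
    unfold wd
    simp only [mul_one]
  rw [e1, e8_sum hs Finset.univ (fun i : Fin (n + 3) => (-1 : ℂ) ^ (i : ℕ))
    (fun i z => F (Fin.removeNth i z)) (fun i _ => hG i) hv]
  rw [Fin.sum_univ_succ, Fin.sum_univ_succ, Fin.sum_univ_succ]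
  have r1 : ∀ (m : ℕ) (i : Fin (m + 1)) (x : ℂ) (w : Fin (m + 1) → ℂ),
      Fin.removeNth (α := fun _ => ℂ) i.succ (Fin.cons x w) = Fin.cons x (Fin.removeNth i w) := by
    intro m i x w
    funext k
    refine Fin.cases ?_ (fun k => ?_) k
    · rw [Fin.removeNth_apply, Fin.succ_succAbove_zero, Fin.cons_zero, Fin.cons_zero]
    · rw [Fin.removeNth_apply, Fin.succ_succAbove_succ, Fin.cons_succ, Fin.cons_succ,
        Fin.removeNth_apply]
  have r0 : ∀ (m : ℕ) (x : ℂ) (w : Fin m → ℂ),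
      Fin.removeNth (α := fun _ => ℂ) 0 (Fin.cons x w) = w := by
    intro m x w
    funext k
    rw [Fin.removeNth_apply, Fin.zero_succAbove, Fin.cons_succ]
  have t0 : oc n (fun z => F (Fin.removeNth 0 z)) v = gc n F v := by
    unfold oc gc
    simp only [r0]
  have t1 : oc n (fun z => F (Fin.removeNth (Fin.succ 0) z)) v = 0 := by
    unfold oc
    simp only [r1, r0, deriv_const, intervalIntegral.integral_zero]
  have t2 : oc n (fun z => F (Fin.removeNth (Fin.succ (Fin.succ 0)) z)) v = 0 := by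
    unfold oc
    simp only [r1, r0, lib_iter2, deriv_const', intervalIntegral.integral_zero]
  rw [t0, t1, t2]
  simp only [Fin.val_zero, pow_zero, one_mul, mul_zero, zero_add, Fin.val_succ]
  rw [sub_eq_add_neg, ← Finset.sum_neg_distrib]
  congr 1
  refine Finset.sum_congr rfl fun j _ => ?_
  ring

/-! ### The differential -/

lemma e8_dup_hol {n : ℕ} {s : ℝ} {F : (Fin (n + 1) → ℂ) → ℂ}
    (hF : DifferentiableOn ℂ F (PU (n + 1) (St s))) (i : Fin n) :
    DifferentiableOn ℂ (fun z : Fin n → ℂ => lib_pd i.succ F (i.succ.insertNth (z i) z))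
      (PU n (St s)) := by
  refine (lib_pd_hol i.succ (lib_isOpen_St s) hF).comp
    (f := fun z : Fin n → ℂ => (i.succ.insertNth (z i) z : Fin (n + 1) → ℂ)) ?_ ?_
  · refine Differentiable.differentiableOn ?_
    refine differentiable_pi.2 fun k => ?_
    refine Fin.succAboveCases i.succ ?_ (fun k => ?_) k
    · simp only [Fin.insertNth_apply_same]
      exact differentiable_apply _
    · simp only [Fin.insertNth_apply_succAbove]
      exact differentiable_apply _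
  · intro z hz k
    refine Fin.succAboveCases i.succ ?_ (fun k => ?_) k
    · show (i.succ.insertNth (z i) z : Fin (n + 1) → ℂ) i.succ ∈ St s
      rw [Fin.insertNth_apply_same]
      exact hz i
    · show (i.succ.insertNth (z i) z : Fin (n + 1) → ℂ) (i.succ.succAbove k) ∈ St s
      rw [Fin.insertNth_apply_succAbove]
      exact hz k

lemma e8_ins_succ {n : ℕ} (i : Fin (n + 1)) (y x : ℂ) (w : Fin n → ℂ) :
    (i.succ.insertNth y (Fin.cons x w : Fin (n + 1) → ℂ) : Fin (n + 2) → ℂ) =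
      Fin.cons x (i.insertNth y w : Fin (n + 1) → ℂ) := by
  rw [Fin.insertNth_eq_iff]
  constructor
  · rw [Fin.cons_succ, Fin.insertNth_apply_same]
  · funext k
    refine Fin.cases ?_ (fun k => ?_) k
    · rw [Fin.removeNth_apply, Fin.succ_succAbove_zero, Fin.cons_zero, Fin.cons_zero]
    · rw [Fin.removeNth_apply, Fin.succ_succAbove_succ, Fin.cons_succ, Fin.cons_succ,
        Fin.insertNth_apply_succAbove]

lemma e8_ins_zero {n : ℕ} (y : ℂ) (w : Fin n → ℂ) :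
    ((0 : Fin (n + 1)).insertNth y w : Fin (n + 1) → ℂ) = Fin.cons y w := by
  rw [Fin.insertNth_zero']

/-- `(x, x, x, x, v)` -/
def e8_c4 {q : ℕ} (x : ℂ) (v : Fin q → ℂ) : Fin (q + 4) → ℂ :=
  Fin.cons x (e8_c3 x v : Fin (q + 3) → ℂ)

lemma e8_perm4 {n : ℕ} (a b c d a' b' c' d' : Fin n)
    (h : ∀ x : Fin n, (if a = x then 1 else 0) + (if b = x then 1 else 0) +
      (if c = x then 1 else 0) + (if d = x then 1 else 0) =
      ((if a' = x then 1 else 0) + (if b' = x then 1 else 0) +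
      (if c' = x then 1 else 0) + (if d' = x then 1 else 0) : ℕ)) :
    List.Perm [a, b, c, d] [a', b', c', d'] := by
  rw [List.perm_iff_count]
  intro x
  have := h x
  simp only [List.count_cons, List.count_nil, beq_iff_eq]
  omega

/-- vanishing on the diagonal -/
lemma e8_van {q : ℕ} {s : ℝ} (hs : 0 < s) {F : (Fin (q + 4) → ℂ) → ℂ}
    (hF : BO (q + 4) (St s) F) {v : Fin q → ℂ} (hv : v ∈ PU q (St s)) (x : ℝ)
    (a b c d e f : Fin (q + 4)) (hab : a ≠ b) (he : e8_c4 (x : ℂ) v a = e8_c4 (x : ℂ) v b)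
    (hl : ([c, d, e, f].map (Equiv.swap a b)).Perm [c, d, e, f]) :
    lib_pds [c, d, e, f] F (e8_c4 (x : ℂ) v) = 0 := by
  have hmem : e8_c4 (x : ℂ) v ∈ PU (q + 4) (St s) :=
    lib_cons_PU (lib_real_St hs x) (e8_c3_mem (lib_real_St hs x) hv)
  exact lib_pds_zero _ (lib_isOpen_St s) hF a b hab hl hmem he

lemma e8_n02 (n : ℕ) : (0 : Fin (n + 4)) ≠ Fin.succ (Fin.succ 0) := (Fin.succ_ne_zero _).symm

lemma e8_n12 (n : ℕ) : (Fin.succ 0 : Fin (n + 4)) ≠ Fin.succ (Fin.succ 0) := fun h =>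
  Fin.succ_ne_zero _ (Fin.succ_injective _ h).symm

lemma e8_n13 (n : ℕ) : (Fin.succ 0 : Fin (n + 4)) ≠ Fin.succ (Fin.succ (Fin.succ 0)) := fun h =>
  Fin.succ_ne_zero _ (Fin.succ_injective _ h).symm

lemma e8_n23 (n : ℕ) : (Fin.succ (Fin.succ 0) : Fin (n + 4)) ≠
    Fin.succ (Fin.succ (Fin.succ 0)) := fun h =>
  Fin.succ_ne_zero _ (Fin.succ_injective _ (Fin.succ_injective _ h)).symm

lemma e8_n01 (n : ℕ) : (0 : Fin (n + 4)) ≠ Fin.succ 0 := (Fin.succ_ne_zero _).symm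

lemma e8_n03 (n : ℕ) : (0 : Fin (n + 4)) ≠ Fin.succ (Fin.succ (Fin.succ 0)) :=
  (Fin.succ_ne_zero _).symm

lemma e8_pd_add {n : ℕ} {s : ℝ} (i : Fin n) {F G : (Fin n → ℂ) → ℂ}
    (hF : DifferentiableOn ℂ F (PU n (St s))) (hG : DifferentiableOn ℂ G (PU n (St s)))
    {z : Fin n → ℂ} (hz : z ∈ PU n (St s)) :
    lib_pd i (fun z => F z + G z) z = lib_pd i F z + lib_pd i G z := by
  have hO := lib_isOpen_PU n (lib_isOpen_St s)
  have h1 : DifferentiableAt ℂ F z := (hF z hz).differentiableAt (hO.mem_nhds hz)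
  have h2 : DifferentiableAt ℂ G z := (hG z hz).differentiableAt (hO.mem_nhds hz)
  rw [lib_pd_eq_fderiv (F := fun z => F z + G z) i (h1.add h2), lib_pd_eq_fderiv i h1, lib_pd_eq_fderiv i h2]
  have h3 : fderiv ℂ (fun z => F z + G z) z = fderiv ℂ F z + fderiv ℂ G z := fderiv_fun_add h1 h2
  rw [h3]
  rfl

/-- second type of diagonal derivative -/
lemma e8_diag23 {q : ℕ} {s : ℝ} {Q : (Fin (q + 4) → ℂ) → ℂ}
    (hQ : DifferentiableOn ℂ Q (PU (q + 4) (St s))) {v : Fin q → ℂ} (hv : v ∈ PU q (St s))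
    {x a t : ℂ} (hx : x ∈ St s) (ha : a ∈ St s) (ht : t ∈ St s) :
    deriv (fun t : ℂ => Q (Fin.cons x (Fin.cons a (Fin.cons t (Fin.cons t v :
        Fin (q + 1) → ℂ) : Fin (q + 2) → ℂ) : Fin (q + 3) → ℂ))) t =
      lib_pd (Fin.succ (Fin.succ 0)) Q (Fin.cons x (Fin.cons a (Fin.cons t (Fin.cons t v :
        Fin (q + 1) → ℂ) : Fin (q + 2) → ℂ) : Fin (q + 3) → ℂ)) +
      lib_pd (Fin.succ (Fin.succ (Fin.succ 0))) Q (Fin.cons x (Fin.cons a (Fin.cons t (Fin.cons t v :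
        Fin (q + 1) → ℂ) : Fin (q + 2) → ℂ) : Fin (q + 3) → ℂ)) := by
  set z : Fin (q + 4) → ℂ := Fin.cons x (Fin.cons a (Fin.cons t (Fin.cons t v :
        Fin (q + 1) → ℂ) : Fin (q + 2) → ℂ) : Fin (q + 3) → ℂ) with hz
  have hmem : z ∈ PU (q + 4) (St s) :=
    lib_cons_PU hx (lib_cons_PU ha (lib_cons_PU ht (lib_cons_PU ht hv)))
  have hO := lib_isOpen_PU (q + 4) (lib_isOpen_St s)
  have h1 : DifferentiableAt ℂ Q z := (hQ z hmem).differentiableAt (hO.mem_nhds hmem)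
  have h2 := lib_pd_diag (Fin.succ (Fin.succ 0)) (Fin.succ (Fin.succ (Fin.succ 0))) (e8_n23 q)
    (t0 := t) (by rw [hz, Fin.cons_succ, Fin.cons_succ, Fin.cons_zero])
    (by rw [hz, Fin.cons_succ, Fin.cons_succ, Fin.cons_succ, Fin.cons_zero]) h1
  rw [← h2]
  simp only [hz, ← Fin.cons_update, Fin.update_cons_zero]

lemma e8_diag12 {q : ℕ} {s : ℝ} {Q : (Fin (q + 4) → ℂ) → ℂ}
    (hQ : DifferentiableOn ℂ Q (PU (q + 4) (St s))) {v : Fin q → ℂ} (hv : v ∈ PU q (St s))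
    {x : ℂ} (hx : x ∈ St s) :
    deriv (fun t : ℂ => Q (Fin.cons x (Fin.cons t (Fin.cons t (Fin.cons x v :
        Fin (q + 1) → ℂ) : Fin (q + 2) → ℂ) : Fin (q + 3) → ℂ))) x =
      lib_pd (Fin.succ 0) Q (e8_c4 x v) + lib_pd (Fin.succ (Fin.succ 0)) Q (e8_c4 x v) := by
  have hmem : e8_c4 x v ∈ PU (q + 4) (St s) := lib_cons_PU hx (e8_c3_mem hx hv)
  have hO := lib_isOpen_PU (q + 4) (lib_isOpen_St s)
  have h1 : DifferentiableAt ℂ Q (e8_c4 x v) :=
    (hQ _ hmem).differentiableAt (hO.mem_nhds hmem)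
  have h2 := lib_pd_diag (Fin.succ 0) (Fin.succ (Fin.succ 0)) (e8_n12 q) (t0 := x) (by unfold e8_c4 e8_c3; rw [Fin.cons_succ, Fin.cons_zero])
    (by unfold e8_c4 e8_c3; rw [Fin.cons_succ, Fin.cons_succ, Fin.cons_zero]) h1
  rw [← h2]
  unfold e8_c4 e8_c3
  simp only [← Fin.cons_update, Fin.update_cons_zero]

lemma e8_van0 {q : ℕ} {s : ℝ} (hs : 0 < s) {F : (Fin (q + 4) → ℂ) → ℂ}
    (hF : BO (q + 4) (St s) F) {v : Fin q → ℂ} (hv : v ∈ PU q (St s)) (x : ℝ) :
    lib_pds [Fin.succ (Fin.succ 0), Fin.succ (Fin.succ (Fin.succ 0)),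
      Fin.succ (Fin.succ (Fin.succ 0)), Fin.succ 0] F (e8_c4 (x : ℂ) v) = 0 := by
  refine e8_van hs hF hv x (Fin.succ 0) (Fin.succ (Fin.succ 0)) _ _ _ _ (e8_n12 q) ?_ ?_
  · unfold e8_c4 e8_c3
    simp only [Fin.cons_succ, Fin.cons_zero]
  · simp only [List.map_cons, List.map_nil]
    rw [Equiv.swap_apply_right, Equiv.swap_apply_left,
      Equiv.swap_apply_of_ne_of_ne (e8_n13 q).symm (e8_n23 q).symm]
    refine e8_perm4 _ _ _ _ _ _ _ _ fun x => ?_
    ring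

lemma e8_van1 {q : ℕ} {s : ℝ} (hs : 0 < s) {F : (Fin (q + 4) → ℂ) → ℂ}
    (hF : BO (q + 4) (St s) F) {v : Fin q → ℂ} (hv : v ∈ PU q (St s)) (x : ℝ) :
    lib_pds [Fin.succ 0, Fin.succ (Fin.succ (Fin.succ 0)),
      Fin.succ (Fin.succ (Fin.succ 0)), Fin.succ (Fin.succ 0)] F (e8_c4 (x : ℂ) v) = 0 := by
  refine e8_van hs hF hv x (Fin.succ 0) (Fin.succ (Fin.succ 0)) _ _ _ _ (e8_n12 q) ?_ ?_
  · unfold e8_c4 e8_c3
    simp only [Fin.cons_succ, Fin.cons_zero]
  · simp only [List.map_cons, List.map_nil]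
    rw [Equiv.swap_apply_right, Equiv.swap_apply_left,
      Equiv.swap_apply_of_ne_of_ne (e8_n13 q).symm (e8_n23 q).symm]
    refine e8_perm4 _ _ _ _ _ _ _ _ fun x => ?_
    ring

lemma e8_van2 {q : ℕ} {s : ℝ} (hs : 0 < s) {F : (Fin (q + 4) → ℂ) → ℂ}
    (hF : BO (q + 4) (St s) F) {v : Fin q → ℂ} (hv : v ∈ PU q (St s)) (x : ℝ) :
    lib_pds [Fin.succ (Fin.succ 0), Fin.succ (Fin.succ (Fin.succ 0)),
      Fin.succ (Fin.succ (Fin.succ 0)), Fin.succ (Fin.succ 0)] F (e8_c4 (x : ℂ) v) = 0 := by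
  refine e8_van hs hF hv x (Fin.succ (Fin.succ 0)) (Fin.succ (Fin.succ (Fin.succ 0))) _ _ _ _
    (e8_n23 q) ?_ ?_
  · unfold e8_c4 e8_c3
    simp only [Fin.cons_succ, Fin.cons_zero]
  · simp only [List.map_cons, List.map_nil]
    rw [Equiv.swap_apply_right, Equiv.swap_apply_left]
    refine e8_perm4 _ _ _ _ _ _ _ _ fun x => ?_
    ring

lemma e8_van3 {q : ℕ} {s : ℝ} (hs : 0 < s) {F : (Fin (q + 4) → ℂ) → ℂ}
    (hF : BO (q + 4) (St s) F) {v : Fin q → ℂ} (hv : v ∈ PU q (St s)) (x : ℝ) :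
    lib_pds [Fin.succ 0, Fin.succ (Fin.succ 0), Fin.succ (Fin.succ 0),
      Fin.succ (Fin.succ (Fin.succ 0))] F (e8_c4 (x : ℂ) v) = 0 := by
  refine e8_van hs hF hv x (Fin.succ 0) (Fin.succ (Fin.succ (Fin.succ 0))) _ _ _ _
    (e8_n13 q) ?_ ?_
  · unfold e8_c4 e8_c3
    simp only [Fin.cons_succ, Fin.cons_zero]
  · simp only [List.map_cons, List.map_nil]
    rw [Equiv.swap_apply_right, Equiv.swap_apply_left,
      Equiv.swap_apply_of_ne_of_ne (e8_n12 q).symm (e8_n23 q)]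
    refine e8_perm4 _ _ _ _ _ _ _ _ fun x => ?_
    ring

lemma e8_van4 {q : ℕ} {s : ℝ} (hs : 0 < s) {F : (Fin (q + 4) → ℂ) → ℂ}
    (hF : BO (q + 4) (St s) F) {v : Fin q → ℂ} (hv : v ∈ PU q (St s)) (x : ℝ) :
    lib_pds [Fin.succ 0, Fin.succ (Fin.succ 0), Fin.succ (Fin.succ (Fin.succ 0)),
      Fin.succ (Fin.succ (Fin.succ 0))] F (e8_c4 (x : ℂ) v) = 0 := by
  refine e8_van hs hF hv x (Fin.succ 0) (Fin.succ (Fin.succ 0)) _ _ _ _ (e8_n12 q) ?_ ?_
  · unfold e8_c4 e8_c3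
    simp only [Fin.cons_succ, Fin.cons_zero]
  · simp only [List.map_cons, List.map_nil]
    rw [Equiv.swap_apply_right, Equiv.swap_apply_left,
      Equiv.swap_apply_of_ne_of_ne (e8_n13 q).symm (e8_n23 q).symm]
    refine e8_perm4 _ _ _ _ _ _ _ _ fun x => ?_
    ring

lemma e8_van5 {q : ℕ} {s : ℝ} (hs : 0 < s) {F : (Fin (q + 4) → ℂ) → ℂ}
    (hF : BO (q + 4) (St s) F) {v : Fin q → ℂ} (hv : v ∈ PU q (St s)) (x : ℝ) :
    lib_pds [Fin.succ 0, Fin.succ (Fin.succ (Fin.succ 0)), Fin.succ (Fin.succ 0),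
      Fin.succ (Fin.succ (Fin.succ 0))] F (e8_c4 (x : ℂ) v) = 0 := by
  refine e8_van hs hF hv x (Fin.succ 0) (Fin.succ (Fin.succ 0)) _ _ _ _ (e8_n12 q) ?_ ?_
  · unfold e8_c4 e8_c3
    simp only [Fin.cons_succ, Fin.cons_zero]
  · simp only [List.map_cons, List.map_nil]
    rw [Equiv.swap_apply_right, Equiv.swap_apply_left,
      Equiv.swap_apply_of_ne_of_ne (e8_n13 q).symm (e8_n23 q).symm]
    refine e8_perm4 _ _ _ _ _ _ _ _ fun x => ?_
    ring

lemma e8_van6 {q : ℕ} {s : ℝ} (hs : 0 < s) {F : (Fin (q + 4) → ℂ) → ℂ}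
    (hF : BO (q + 4) (St s) F) {v : Fin q → ℂ} (hv : v ∈ PU q (St s)) (x : ℝ) :
    lib_pds [Fin.succ 0, Fin.succ (Fin.succ (Fin.succ 0)), Fin.succ (Fin.succ (Fin.succ 0)),
      Fin.succ (Fin.succ (Fin.succ 0))] F (e8_c4 (x : ℂ) v) = 0 := by
  refine e8_van hs hF hv x 0 (Fin.succ (Fin.succ 0)) _ _ _ _ (e8_n02 q) ?_ ?_
  · unfold e8_c4 e8_c3
    simp only [Fin.cons_succ, Fin.cons_zero]
  · simp only [List.map_cons, List.map_nil]
    rw [Equiv.swap_apply_of_ne_of_ne (e8_n01 q).symm (e8_n12 q),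
      Equiv.swap_apply_of_ne_of_ne (e8_n03 q).symm (e8_n23 q).symm]

lemma e8_term0 {q : ℕ} {s : ℝ} (hs : 0 < s) {F : (Fin (q + 4) → ℂ) → ℂ}
    (hF : BO (q + 4) (St s) F) {v : Fin q → ℂ} (hv : v ∈ PU q (St s)) :
    oc q (fun z : Fin (q + 3) → ℂ => lib_pd (Fin.succ 0) F ((Fin.succ 0).insertNth (z 0) z)) v = 0 := by
  have h0 : ∀ x : ℝ, deriv (fun a : ℂ => iteratedDeriv 2 (fun t : ℂ =>
      (fun z : Fin (q + 3) → ℂ => lib_pd (Fin.succ 0) F ((Fin.succ 0).insertNth (z 0) z))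
      (Fin.cons (x : ℂ) (Fin.cons a (Fin.cons t v : Fin (q + 1) → ℂ) : Fin (q + 2) → ℂ)))
      (x : ℂ)) (x : ℂ) = 0 := by
    intro x
    rw [← e8_van0 hs hF hv x]
    unfold e8_c4 e8_c3
    simp only [lib_pds_cons, lib_pds_nil, lib_pd_succ_cons, lib_pd_zero_cons, lib_iter2, e8_ins_succ, e8_ins_zero,
      Fin.cons_zero]
  unfold oc
  simp only [h0, intervalIntegral.integral_zero]

lemma e8_term1 {q : ℕ} {s : ℝ} (hs : 0 < s) {F : (Fin (q + 4) → ℂ) → ℂ}
    (hF : BO (q + 4) (St s) F) {v : Fin q → ℂ} (hv : v ∈ PU q (St s)) :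
    oc q (fun z : Fin (q + 3) → ℂ => lib_pd (Fin.succ (Fin.succ 0)) F
      ((Fin.succ (Fin.succ 0)).insertNth (z (Fin.succ 0)) z)) v = 0 := by
  have hU := lib_isOpen_St s
  have h0 : ∀ x : ℝ, deriv (fun a : ℂ => iteratedDeriv 2 (fun t : ℂ =>
      (fun z : Fin (q + 3) → ℂ => lib_pd (Fin.succ (Fin.succ 0)) F
      ((Fin.succ (Fin.succ 0)).insertNth (z (Fin.succ 0)) z))
      (Fin.cons (x : ℂ) (Fin.cons a (Fin.cons t v : Fin (q + 1) → ℂ) : Fin (q + 2) → ℂ)))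
      (x : ℂ)) (x : ℂ) = 0 := by
    intro x
    have h1 := e8_diag12 (lib_pds_hol [Fin.succ (Fin.succ (Fin.succ 0)),
      Fin.succ (Fin.succ (Fin.succ 0)), Fin.succ (Fin.succ 0)] hU hF.hol) hv (lib_real_St hs x)
    rw [← lib_pds_cons, ← lib_pds_cons, e8_van1 hs hF hv x, e8_van2 hs hF hv x, add_zero] at h1
    rw [← h1]
    simp only [lib_pds_cons, lib_pds_nil, lib_pd_succ_cons, lib_pd_zero_cons, lib_iter2, e8_ins_succ, e8_ins_zero,
      Fin.cons_zero, Fin.cons_succ]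
  unfold oc
  simp only [h0, intervalIntegral.integral_zero]

lemma e8_term2 {q : ℕ} {s : ℝ} (hs : 0 < s) {F : (Fin (q + 4) → ℂ) → ℂ}
    (hF : BO (q + 4) (St s) F) {v : Fin q → ℂ} (hv : v ∈ PU q (St s)) :
    oc q (fun z : Fin (q + 3) → ℂ => lib_pd (Fin.succ (Fin.succ (Fin.succ 0))) F
      ((Fin.succ (Fin.succ (Fin.succ 0))).insertNth (z (Fin.succ (Fin.succ 0))) z)) v = 0 := by
  have hU := lib_isOpen_St s
  have hO := lib_isOpen_PU (q + 4) hU
  have h0 : ∀ x : ℝ, deriv (fun a : ℂ => iteratedDeriv 2 (fun t : ℂ =>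
      (fun z : Fin (q + 3) → ℂ => lib_pd (Fin.succ (Fin.succ (Fin.succ 0))) F
      ((Fin.succ (Fin.succ (Fin.succ 0))).insertNth (z (Fin.succ (Fin.succ 0))) z))
      (Fin.cons (x : ℂ) (Fin.cons a (Fin.cons t v : Fin (q + 1) → ℂ) : Fin (q + 2) → ℂ)))
      (x : ℂ)) (x : ℂ) = 0 := by
    intro x
    have hx := lib_real_St hs x
    set c2 : Fin (q + 4) := Fin.succ (Fin.succ 0) with hc2
    set c3 : Fin (q + 4) := Fin.succ (Fin.succ (Fin.succ 0)) with hc3
    set Q : (Fin (q + 4) → ℂ) → ℂ := lib_pd c3 F with hQ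
    have hQh : DifferentiableOn ℂ Q (PU (q + 4) (St s)) := lib_pd_hol c3 hU hF.hol
    set Q1 : (Fin (q + 4) → ℂ) → ℂ := fun z => lib_pd c2 Q z + lib_pd c3 Q z with hQ1
    have hQ1h : DifferentiableOn ℂ Q1 (PU (q + 4) (St s)) :=
      (lib_pd_hol c2 hU hQh).add (lib_pd_hol c3 hU hQh)
    set Q2 : (Fin (q + 4) → ℂ) → ℂ := fun z => lib_pd c2 Q1 z + lib_pd c3 Q1 z with hQ2
    have hd1 : ∀ a ∈ St s, ∀ t ∈ St s, deriv (fun t : ℂ => Q (Fin.cons (x : ℂ) (Fin.cons a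
        (Fin.cons t (Fin.cons t v : Fin (q + 1) → ℂ) : Fin (q + 2) → ℂ) : Fin (q + 3) → ℂ))) t =
        Q1 (Fin.cons (x : ℂ) (Fin.cons a
        (Fin.cons t (Fin.cons t v : Fin (q + 1) → ℂ) : Fin (q + 2) → ℂ) : Fin (q + 3) → ℂ)) :=
      fun a ha t ht => e8_diag23 hQh hv hx ha ht
    have hd2 : ∀ a ∈ St s, iteratedDeriv 2 (fun t : ℂ => Q (Fin.cons (x : ℂ) (Fin.cons a
        (Fin.cons t (Fin.cons t v : Fin (q + 1) → ℂ) : Fin (q + 2) → ℂ) : Fin (q + 3) → ℂ)))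
        (x : ℂ) = Q2 (Fin.cons (x : ℂ) (Fin.cons a (Fin.cons (x : ℂ) (Fin.cons (x : ℂ) v :
          Fin (q + 1) → ℂ) : Fin (q + 2) → ℂ) : Fin (q + 3) → ℂ)) := by
      intro a ha
      rw [lib_iter2]
      have h1 : (deriv fun t : ℂ => Q (Fin.cons (x : ℂ) (Fin.cons a
        (Fin.cons t (Fin.cons t v : Fin (q + 1) → ℂ) : Fin (q + 2) → ℂ) : Fin (q + 3) → ℂ)))
        =ᶠ[𝓝 (x : ℂ)] fun t : ℂ => Q1 (Fin.cons (x : ℂ) (Fin.cons a
        (Fin.cons t (Fin.cons t v : Fin (q + 1) → ℂ) : Fin (q + 2) → ℂ) : Fin (q + 3) → ℂ)) := by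
        filter_upwards [hU.mem_nhds hx] with t ht
        exact hd1 a ha t ht
      rw [h1.deriv_eq]
      exact e8_diag23 hQ1h hv hx ha hx
    have hd3 : deriv (fun a : ℂ => iteratedDeriv 2 (fun t : ℂ => Q (Fin.cons (x : ℂ) (Fin.cons a
        (Fin.cons t (Fin.cons t v : Fin (q + 1) → ℂ) : Fin (q + 2) → ℂ) : Fin (q + 3) → ℂ)))
        (x : ℂ)) (x : ℂ) = lib_pd (Fin.succ 0) Q2 (e8_c4 (x : ℂ) v) := by
      have h1 : (fun a : ℂ => iteratedDeriv 2 (fun t : ℂ => Q (Fin.cons (x : ℂ) (Fin.cons a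
        (Fin.cons t (Fin.cons t v : Fin (q + 1) → ℂ) : Fin (q + 2) → ℂ) : Fin (q + 3) → ℂ)))
        (x : ℂ)) =ᶠ[𝓝 (x : ℂ)] fun a : ℂ => Q2 (Fin.cons (x : ℂ) (Fin.cons a
          (Fin.cons (x : ℂ) (Fin.cons (x : ℂ) v :
          Fin (q + 1) → ℂ) : Fin (q + 2) → ℂ) : Fin (q + 3) → ℂ)) := by
        filter_upwards [hU.mem_nhds hx] with a ha
        exact hd2 a ha
      rw [h1.deriv_eq]
      unfold e8_c4 e8_c3
      rw [lib_pd_succ_cons, lib_pd_zero_cons]
    have hmem : e8_c4 (x : ℂ) v ∈ PU (q + 4) (St s) := lib_cons_PU hx (e8_c3_mem hx hv)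
    have hexp : ∀ z ∈ PU (q + 4) (St s), Q2 z = (lib_pds [c2, c2, c3] F z + lib_pds [c2, c3, c3] F z) +
        (lib_pds [c3, c2, c3] F z + lib_pds [c3, c3, c3] F z) := by
      intro z hz
      show lib_pd c2 Q1 z + lib_pd c3 Q1 z = _
      rw [e8_pd_add c2 (lib_pd_hol c2 hU hQh) (lib_pd_hol c3 hU hQh) hz,
        e8_pd_add c3 (lib_pd_hol c2 hU hQh) (lib_pd_hol c3 hU hQh) hz]
      rfl
    have hfin : lib_pd (Fin.succ 0) Q2 (e8_c4 (x : ℂ) v) = 0 := by
      have hA : DifferentiableOn ℂ (fun z => lib_pds [c2, c2, c3] F z + lib_pds [c2, c3, c3] F z)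
          (PU (q + 4) (St s)) := (lib_pds_hol _ hU hF.hol).add (lib_pds_hol _ hU hF.hol)
      have hB : DifferentiableOn ℂ (fun z => lib_pds [c3, c2, c3] F z + lib_pds [c3, c3, c3] F z)
          (PU (q + 4) (St s)) := (lib_pds_hol _ hU hF.hol).add (lib_pds_hol _ hU hF.hol)
      rw [lib_pd_congr (Fin.succ 0) hU hexp hmem, e8_pd_add (Fin.succ 0) hA hB hmem,
        e8_pd_add (Fin.succ 0) (lib_pds_hol _ hU hF.hol) (lib_pds_hol _ hU hF.hol) hmem,
        e8_pd_add (Fin.succ 0) (lib_pds_hol _ hU hF.hol) (lib_pds_hol _ hU hF.hol) hmem,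
        ← lib_pds_cons, ← lib_pds_cons, ← lib_pds_cons, ← lib_pds_cons, hc2, hc3, e8_van3 hs hF hv x,
        e8_van4 hs hF hv x, e8_van5 hs hF hv x, e8_van6 hs hF hv x, add_zero, add_zero]
    rw [← hfin, ← hd3]
    simp only [e8_ins_succ, e8_ins_zero, Fin.cons_zero, Fin.cons_succ, hc3]
  unfold oc
  simp only [h0, intervalIntegral.integral_zero]

lemma e8_dd {q : ℕ} {s : ℝ} (hs : 0 < s) {F : (Fin (q + 4) → ℂ) → ℂ}
    (hF : BO (q + 4) (St s) F) {v : Fin q → ℂ} (hv : v ∈ PU q (St s)) :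
    oc q (dd (q + 3) F) v = - dd q (oc (q + 1) F) v := by
  have e1 : dd (q + 3) F = fun z => ∑ i : Fin (q + 3), (-1 : ℂ) ^ (i : ℕ) *
      (fun z : Fin (q + 3) → ℂ => lib_pd i.succ F (i.succ.insertNth (z i) z)) z := by
    funext z
    exact lib_dd_eq (q + 3) F z
  rw [e1, e8_sum hs Finset.univ (fun i : Fin (q + 3) => (-1 : ℂ) ^ (i : ℕ))
    (fun i (z : Fin (q + 3) → ℂ) => lib_pd i.succ F (i.succ.insertNth (z i) z))
    (fun i _ => e8_dup_hol hF.hol i) hv]
  rw [Fin.sum_univ_succ, Fin.sum_univ_succ, Fin.sum_univ_succ, e8_term0 hs hF hv,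
    e8_term1 hs hF hv, e8_term2 hs hF hv, lib_dd_eq, ← Finset.sum_neg_distrib]
  simp only [mul_zero, zero_add]
  refine Finset.sum_congr rfl fun j _ => ?_
  have hw : (j.succ.insertNth (v j) v : Fin (q + 1) → ℂ) ∈ PU (q + 1) (St s) := by
    intro k
    refine Fin.succAboveCases j.succ ?_ (fun k => ?_) k
    · rw [Fin.insertNth_apply_same]
      exact hv j
    · rw [Fin.insertNth_apply_succAbove]
      exact hv k
  rw [e8_pd hs hF.hol j.succ hw]
  have e2 : oc q (fun z : Fin (q + 3) → ℂ => lib_pd j.succ.succ.succ.succ F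
      (j.succ.succ.succ.succ.insertNth (z j.succ.succ.succ) z)) v =
      oc (q + 1) (lib_pd j.succ.succ.succ.succ F) (j.succ.insertNth (v j) v) := by
    unfold oc
    simp only [e8_ins_succ, Fin.cons_succ]
  rw [e2, Fin.val_succ, Fin.val_succ, Fin.val_succ]
  ring

lemma e8_BO {q : ℕ} {s : ℝ} (hs : 0 < s) {F : (Fin (q + 3) → ℂ) → ℂ} (hF : BO (q + 3) (St s) F) :
    BO q (St s) (oc q F) := by
  obtain ⟨C, hC⟩ := hF.bdd
  exact ⟨e8_hol hs hF.hol, fun v hv i => e8_per hs hF hv i, fun v hv σ => e8_alt hs hF hv σ,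
    16 / s ^ 3 * C, fun v hv => e8_bound hs hF.hol hC hv⟩

end

theorem st_E8 : ST_E8 := by
  intro q s hs
  refine ⟨fun F hF => e8_BO hs hF, ⟨16 / s ^ 3, fun F hF M hM v hv => e8_bound hs hF.hol hM hv⟩,
    fun F hF v hv => e8_dd hs hF hv, ?_, ?_⟩
  · intro F hF v hv
    rw [e8_wd hs hF hv]
    congr 1
    unfold wd
    refine Finset.sum_congr rfl fun j _ => ?_
    rw [mul_one]
    congr 1
    have r1 : ∀ (m : ℕ) (i : Fin (m + 1)) (x : ℂ) (w : Fin (m + 1) → ℂ),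
        Fin.removeNth (α := fun _ => ℂ) i.succ (Fin.cons x w) =
          Fin.cons x (Fin.removeNth i w) := by
      intro m i x w
      funext k
      refine Fin.cases ?_ (fun k => ?_) k
      · rw [Fin.removeNth_apply, Fin.succ_succAbove_zero, Fin.cons_zero, Fin.cons_zero]
      · rw [Fin.removeNth_apply, Fin.succ_succAbove_succ, Fin.cons_succ, Fin.cons_succ,
          Fin.removeNth_apply]
    unfold oc
    simp only [r1]
  · intro F hF v
    have hv : v ∈ PU 0 (St s) := fun i => i.elim0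
    rw [e8_wd hs hF hv, Finset.univ_eq_empty, Finset.sum_empty, sub_zero]

end Pool.Agent.Helper67.DO
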