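import Pool.Agent.Helper26.DO.X1WA

/-!
MP_d07457_gt, module X1W: the part of weight zero.
-/

set_option autoImplicit false

namespace Pool.Agent.Helper67.DO

open scoped BigOperators Real
open Set Filter Topology

noncomputable section

/-! ### insertion and alternation -/

lemma x1w_pd_ins {q : ℕ} (i : Fin (q + 1)) (G : (Fin (q + 1) → ℂ) → ℂ) (a : ℂ) (v : Fin q → ℂ) :
    lib_pd i G (i.insertNth a v) = deriv (fun t : ℂ => G (i.insertNth t v)) a := by
  unfold lib_pd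
  simp only [Fin.update_insertNth, Fin.insertNth_apply_same]

lemma x1w_upd_ins {q : ℕ} (i : Fin (q + 1)) (k : Fin q) (a t : ℂ) (v : Fin q → ℂ) :
    Function.update (i.insertNth a v : Fin (q + 1) → ℂ) (i.succAbove k) t = i.insertNth a (Function.update v k t) := by
  funext j
  refine Fin.succAboveCases i ?_ (fun l => ?_) j
  · rw [Function.update_of_ne (Fin.succAbove_ne i k).symm, Fin.insertNth_apply_same, Fin.insertNth_apply_same]
  · rw [Fin.insertNth_apply_succAbove]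
    by_cases hl : l = k
    · subst hl
      rw [Function.update_self, Function.update_self]
    · rw [Function.update_of_ne hl, Function.update_of_ne (fun h => hl (Fin.succAbove_right_injective h)),
        Fin.insertNth_apply_succAbove]

lemma x1w_pd_insS {q : ℕ} (i : Fin (q + 1)) (k : Fin q) (G : (Fin (q + 1) → ℂ) → ℂ) (a : ℂ) (v : Fin q → ℂ) :
    lib_pd (i.succAbove k) G (i.insertNth a v) = lib_pd k (fun v : Fin q → ℂ => G (i.insertNth a v)) v := by
  unfold lib_pd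
  simp only [x1w_upd_ins, Fin.insertNth_apply_succAbove]

/-- alternating functions -/
def x1wAlt (q : ℕ) (U : Set ℂ) (F : (Fin q → ℂ) → ℂ) : Prop :=
  ∀ z ∈ PU q U, ∀ σ : Equiv.Perm (Fin q), F (fun i => z (σ i)) = ((Equiv.Perm.sign σ : ℤ) : ℂ) * F z

lemma x1w_alt_cons {q : ℕ} {U : Set ℂ} {F : (Fin (q + 1) → ℂ) → ℂ} (hF : x1wAlt (q + 1) U F) {a : ℂ} (ha : a ∈ U) :
    x1wAlt q U (fun v => F (Fin.cons a v)) := by
  intro z hz σ
  show F (Fin.cons a (fun i => z (σ i))) = _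
  rw [e8_ext_cons, hF _ (lib_cons_PU ha hz) (e8_ext σ), e8_ext_sign]

lemma x1w_alt_ins {q : ℕ} {U : Set ℂ} {F : (Fin (q + 1) → ℂ) → ℂ} (hF : x1wAlt (q + 1) U F) {a : ℂ} (ha : a ∈ U)
    {v : Fin q → ℂ} (hv : v ∈ PU q U) (i : Fin (q + 1)) :
    F (i.insertNth a v) = (-1 : ℂ) ^ (i : ℕ) * F (Fin.cons a v) := by
  have h1 := hF (i.insertNth a v) (mem_PU_insert hv ha i) i.cycleRange.symm
  have h2 : (fun j => (i.insertNth a v : Fin (q + 1) → ℂ) (i.cycleRange.symm j)) = Fin.cons a v := by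
    funext j
    exact Fin.insertNth_apply_cycleRange_symm i a v j
  rw [h2, Equiv.Perm.sign_symm, Fin.sign_cycleRange] at h1
  rw [h1]
  push_cast
  have h3 : (-1 : ℂ) ^ (i : ℕ) * (-1 : ℂ) ^ (i : ℕ) = 1 := by
    rw [← mul_pow]
    simp
  linear_combination (-(F (i.insertNth a v))) * h3

lemma x1w_deriv_scal {U : Set ℂ} (hU : IsOpen U) {f g : ℂ → ℂ} {c : ℂ} (h : ∀ t ∈ U, f t = c * g t) :
    ∀ t ∈ U, deriv f t = c * deriv g t := by
  intro t ht
  have h1 : f =ᶠ[𝓝 t] fun t => c * g t := by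
    filter_upwards [hU.mem_nhds ht] with s hs
    exact h s hs
  rw [h1.deriv_eq, deriv_const_mul_field]

section
variable {b0 y e0 w h : ℝ} {V : Set ℂ}

/-! ### counting -/

lemma x1w_r0 {q : ℕ} {z : Fin q → ℂ} : x1r b0 e0 z = 0 ↔ ∀ j, ¬ InR b0 e0 (z j) := by
  classical
  unfold x1r
  rw [Finset.card_eq_zero, Finset.filter_eq_empty_iff]
  simp

lemma x1w_r_in {q : ℕ} {z : Fin (q + 1) → ℂ} {i : Fin (q + 1)} (hi : InR b0 e0 (z i)) :
    x1r b0 e0 z = x1r b0 e0 (i.removeNth z) + 1 := by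
  have := x1r_insert_in (b0 := b0) (e0 := e0) (i.removeNth z) i hi
  rwa [Fin.insertNth_self_removeNth] at this

lemma x1w_ext_in {q : ℕ} (F : (Fin q → ℂ) → ℂ) {z : Fin q → ℂ} (hz : x1r b0 e0 z = 0) : ext0 b0 e0 F z = F z := by
  unfold ext0
  rw [if_pos (x1w_r0.1 hz)]

lemma x1w_ext_out {q : ℕ} (F : (Fin q → ℂ) → ℂ) {z : Fin q → ℂ} (hz : x1r b0 e0 z ≠ 0) : ext0 b0 e0 F z = 0 := by
  unfold ext0
  rw [if_neg fun hc => hz (x1w_r0.2 hc)]

lemma x1w_supp {q : ℕ} (p : ℕ) {G : (Fin q → ℂ) → ℂ} {m : ℕ} (hG : ∀ v, x1r b0 e0 v ≠ m → G v = 0)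
    (z : Fin (q + 1) → ℂ) (hz : x1r b0 e0 z ≠ m + 1) : wd (sc b0 e0 y p) q G z = 0 := by
  unfold wd
  refine Finset.sum_eq_zero fun i _ => ?_
  by_cases hi : InR b0 e0 (z i)
  · rw [hG (i.removeNth z), mul_zero]
    intro h'
    apply hz
    rw [x1w_r_in hi, h']
  · rw [x1_sc_not y p hi, mul_zero, zero_mul]

lemma x1w_W1_zero : ∀ (q : ℕ) (F : (Fin q → ℂ) → ℂ) (z : Fin q → ℂ), x1r b0 e0 z ≠ 1 → x1W1 b0 e0 y q F z = 0
  | 0, _, _, _ => rfl
  | (_ + 1), _, z, hz => x1w_supp 1 (m := 0) (fun _ hv => x1w_ext_out _ hv) z hz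

lemma x1w_W2_zero : ∀ (q : ℕ) (F : (Fin q → ℂ) → ℂ) (z : Fin q → ℂ), x1r b0 e0 z ≠ 2 → x1W2 b0 e0 y q F z = 0
  | 0, _, _, _ => rfl
  | 1, _, _, _ => rfl
  | (_ + 2), _, z, hz => x1w_supp 0 (m := 1) (fun v hv => x1w_supp 2 (m := 0) (fun _ hu => x1w_ext_out _ hu) v hv) z hz

lemma x1w_W3_zero : ∀ (q : ℕ) (F : (Fin q → ℂ) → ℂ) (z : Fin q → ℂ), x1r b0 e0 z ≠ 3 → x1W3 b0 e0 y q F z = 0
  | 0, _, _, _ => rfl
  | 1, _, _, _ => rfl
  | 2, _, _, _ => rfl
  | (_ + 3), _, z, hz => x1w_supp 0 (m := 2) (fun v hv => x1w_supp 1 (m := 1) (fun u hu =>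
      x1w_supp 2 (m := 0) (fun _ ht => x1w_ext_out _ ht) u hu) v hv) z hz

/-! ### powers of `sc` -/

lemma x1w_sc2 (he : e0 ≤ b0 + 1) (z : ℂ) : sc b0 e0 y 2 z = sc b0 e0 y 1 z * sc b0 e0 y 1 z := by
  by_cases hz : InR b0 e0 z
  · rw [x1_sc_pow he y 2 hz, pow_two]
  · rw [x1_sc_not y 2 hz, x1_sc_not y 1 hz, mul_zero]

lemma x1w_sc0 (he : e0 ≤ b0 + 1) {z : ℂ} (hz : InR b0 e0 z) : sc b0 e0 y 0 z = 1 := by
  rw [x1_sc_pow he y 0 hz, pow_zero]

lemma x1w_sc01 (he : e0 ≤ b0 + 1) (z : ℂ) : sc b0 e0 y 0 z * sc b0 e0 y 1 z = sc b0 e0 y 1 z := by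
  by_cases hz : InR b0 e0 z
  · rw [x1w_sc0 he hz, one_mul]
  · rw [x1_sc_not y 1 hz, mul_zero]

lemma x1w_sum_sc0 {q : ℕ} (he : e0 ≤ b0 + 1) (z : Fin q → ℂ) : ∑ i, sc b0 e0 y 0 (z i) = (x1r b0 e0 z : ℂ) := by
  classical
  unfold x1r
  rw [← Finset.sum_boole]
  refine Finset.sum_congr rfl fun i _ => ?_
  by_cases hi : InR b0 e0 (z i)
  · rw [x1w_sc0 he hi, if_pos hi]
  · rw [x1_sc_not y 0 hi, if_neg hi]

/-! ### the base point -/

lemma x1w_A_in {q : ℕ} {z : Fin (q + 1) → ℂ} {i : Fin (q + 1)} (hi : InR b0 e0 (z i)) :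
    x1A b0 y e0 0 z = i.insertNth (y : ℂ) (x1A b0 y e0 0 (i.removeNth z)) := by
  have := x1A_insert_in (b0 := b0) (y := y) (e0 := e0) 0 (i.removeNth z) i hi
  rw [Fin.insertNth_self_removeNth, zero_mul, add_zero] at this
  exact this

lemma x1w_A_out {q : ℕ} {z : Fin q → ℂ} (hz : x1r b0 e0 z = 0) (t : ℂ) : x1A b0 y e0 t z = z := by
  funext j
  exact x1A_out t z (x1w_r0.1 hz j)

lemma x1w_A_y {q : ℕ} {z : Fin q → ℂ} {i : Fin q} (hi : InR b0 e0 (z i)) : x1A b0 y e0 0 z i = (y : ℂ) := by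
  rw [x1A_in 0 z hi, zero_mul, add_zero]

lemma x1w_rem_mem {q : ℕ} {U : Set ℂ} {z : Fin (q + 1) → ℂ} (hz : z ∈ PU (q + 1) U) (i : Fin (q + 1)) :
    i.removeNth z ∈ PU q U := fun j => hz (i.succAbove j)

/-! ### the three terms -/

lemma x1w_T1 (H : X1S b0 y e0 w h V) {q : ℕ} {F : (Fin (q + 1) → ℂ) → ℂ} (hF : X1F (q + 1) (x1U b0 e0 w h V) F)
    {z : Fin (q + 1) → ℂ} (hz : z ∈ PU (q + 1) (x1U b0 e0 w h V)) (hr : x1r b0 e0 z = 1) (i : Fin (q + 1)) :
    (-1 : ℂ) ^ (i : ℕ) * sc b0 e0 y 1 (z i) * ext0 b0 e0 (x1C1 y q F) (i.removeNth z) =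
      sc b0 e0 y 1 (z i) * lib_pds [i] F (x1A b0 y e0 0 z) := by
  by_cases hi : InR b0 e0 (z i)
  · have hU := H.opU
    have hyU : (y : ℂ) ∈ x1U b0 e0 w h V := H.Q_sub H.y_mem
    have hv := x1w_rem_mem hz i
    have hr' : x1r b0 e0 (i.removeNth z) = 0 := by
      have := x1w_r_in hi
      omega
    rw [x1w_ext_in _ hr', x1w_A_in hi, x1w_A_out hr']
    have e1 : lib_pds [i] F (i.insertNth (y : ℂ) (i.removeNth z)) =
        deriv (fun t : ℂ => F (i.insertNth t (i.removeNth z))) (y : ℂ) := by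
      simp only [lib_pds_cons, lib_pds_nil, x1w_pd_ins]
    rw [e1, x1w_deriv_scal hU (f := fun t : ℂ => F (i.insertNth t (i.removeNth z)))
      (g := fun t : ℂ => F (Fin.cons t (i.removeNth z))) (c := (-1 : ℂ) ^ (i : ℕ))
      (fun t ht => x1w_alt_ins hF.alt ht hv i) _ hyU]
    unfold x1C1
    ring
  · rw [x1_sc_not y 1 hi, mul_zero, zero_mul, zero_mul]

lemma x1w_T2 (H : X1S b0 y e0 w h V) {n : ℕ} {F : (Fin (n + 2) → ℂ) → ℂ} (hF : X1F (n + 2) (x1U b0 e0 w h V) F)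
    {z : Fin (n + 2) → ℂ} (hz : z ∈ PU (n + 2) (x1U b0 e0 w h V)) (hr : x1r b0 e0 z = 2) (i : Fin (n + 2))
    (j : Fin (n + 1)) :
    (-1 : ℂ) ^ (i : ℕ) * sc b0 e0 y 0 (z i) * ((-1 : ℂ) ^ (j : ℕ) * sc b0 e0 y 2 (i.removeNth z j) *
      ext0 b0 e0 (x1C2 y n F) (j.removeNth (i.removeNth z))) =
      sc b0 e0 y 0 (z i) * ((1 / 2) * (sc b0 e0 y 2 (z (i.succAbove j)) *
        lib_pds [i.succAbove j, i.succAbove j] F (x1A b0 y e0 0 z))) := by
  have hU := H.opU
  have hyU : (y : ℂ) ∈ x1U b0 e0 w h V := H.Q_sub H.y_mem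
  by_cases hi : InR b0 e0 (z i)
  swap
  · rw [x1_sc_not y 0 hi, mul_zero, zero_mul, zero_mul]
  have hv := x1w_rem_mem hz i
  have e0' : i.removeNth z j = z (i.succAbove j) := rfl
  by_cases hj : InR b0 e0 (z (i.succAbove j))
  swap
  · rw [e0', x1_sc_not y 2 hj, mul_zero, zero_mul, zero_mul, mul_zero, mul_zero, mul_zero]
  have hu := x1w_rem_mem hv j
  have hr' : x1r b0 e0 (j.removeNth (i.removeNth z)) = 0 := by
    have h1 := x1w_r_in hi
    have h2 := x1w_r_in (z := i.removeNth z) (i := j) hj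
    omega
  rw [x1w_ext_in _ hr', x1w_A_in hi, x1w_A_in (z := i.removeNth z) (i := j) hj, x1w_A_out hr', e0']
  set u := j.removeNth (i.removeNth z) with hu'
  have e1 : lib_pds [i.succAbove j, i.succAbove j] F (i.insertNth (y : ℂ) (j.insertNth (y : ℂ) u)) =
      deriv (fun t => deriv (fun s : ℂ => F (i.insertNth (y : ℂ) (j.insertNth s u))) t) (y : ℂ) := by
    simp only [lib_pds_cons, lib_pds_nil, x1w_pd_insS, x1w_pd_ins]
  have e2 : ∀ s ∈ x1U b0 e0 w h V, F (i.insertNth (y : ℂ) (j.insertNth s u)) =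
      ((-1 : ℂ) ^ (i : ℕ) * (-1 : ℂ) ^ (j : ℕ)) * F (Fin.cons (y : ℂ) (Fin.cons s u : Fin (n + 1) → ℂ)) := by
    intro s hs
    rw [x1w_alt_ins hF.alt hyU (mem_PU_insert hu hs j) i,
      x1w_alt_ins (F := fun v => F (Fin.cons (y : ℂ) v)) (x1w_alt_cons hF.alt hyU) hs hu j]
    ring
  have e3 := x1w_deriv_scal hU (x1w_deriv_scal hU e2) _ hyU
  rw [e1, e3]
  unfold x1C2
  rw [lib_iter2]
  ring

lemma x1w_T3 (H : X1S b0 y e0 w h V) {n : ℕ} {F : (Fin (n + 3) → ℂ) → ℂ} (hF : X1F (n + 3) (x1U b0 e0 w h V) F)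
    {z : Fin (n + 3) → ℂ} (hz : z ∈ PU (n + 3) (x1U b0 e0 w h V)) (hr : x1r b0 e0 z = 3) (i : Fin (n + 3))
    (j : Fin (n + 2)) (k : Fin (n + 1)) :
    (-1 : ℂ) ^ (i : ℕ) * sc b0 e0 y 0 (z i) * ((-1 : ℂ) ^ (j : ℕ) * sc b0 e0 y 1 (i.removeNth z j) *
      ((-1 : ℂ) ^ (k : ℕ) * sc b0 e0 y 2 (j.removeNth (i.removeNth z) k) *
        ext0 b0 e0 (c3 y n F) (k.removeNth (j.removeNth (i.removeNth z))))) =
      sc b0 e0 y 0 (z i) * ((1 / 2) * (sc b0 e0 y 1 (z (i.succAbove j)) *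
        (sc b0 e0 y 2 (z (i.succAbove (j.succAbove k))) *
        lib_pds [i.succAbove j, i.succAbove (j.succAbove k), i.succAbove (j.succAbove k)] F (x1A b0 y e0 0 z)))) := by
  have hU := H.opU
  have hyU : (y : ℂ) ∈ x1U b0 e0 w h V := H.Q_sub H.y_mem
  by_cases hi : InR b0 e0 (z i)
  swap
  · rw [x1_sc_not y 0 hi, mul_zero, zero_mul, zero_mul]
  have hv := x1w_rem_mem hz i
  have ej : i.removeNth z j = z (i.succAbove j) := rfl
  have ek : j.removeNth (i.removeNth z) k = z (i.succAbove (j.succAbove k)) := rfl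
  rw [ej, ek]
  by_cases hj : InR b0 e0 (z (i.succAbove j))
  swap
  · rw [x1_sc_not y 1 hj]
    ring
  by_cases hk : InR b0 e0 (z (i.succAbove (j.succAbove k)))
  swap
  · rw [x1_sc_not y 2 hk]
    ring
  have hv2 := x1w_rem_mem hv j
  have hu := x1w_rem_mem hv2 k
  have hr' : x1r b0 e0 (k.removeNth (j.removeNth (i.removeNth z))) = 0 := by
    have h1 := x1w_r_in hi
    have h2 := x1w_r_in (z := i.removeNth z) (i := j) hj
    have h3 := x1w_r_in (z := j.removeNth (i.removeNth z)) (i := k) hk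
    omega
  rw [x1w_ext_in _ hr', x1w_A_in hi, x1w_A_in (z := i.removeNth z) (i := j) hj,
    x1w_A_in (z := j.removeNth (i.removeNth z)) (i := k) hk, x1w_A_out hr']
  set u := k.removeNth (j.removeNth (i.removeNth z)) with hu'
  have e1 : lib_pds [i.succAbove j, i.succAbove (j.succAbove k), i.succAbove (j.succAbove k)] F
      (i.insertNth (y : ℂ) (j.insertNth (y : ℂ) (k.insertNth (y : ℂ) u))) =
      deriv (fun a => deriv (fun t => deriv (fun s : ℂ =>
        F (i.insertNth (y : ℂ) (j.insertNth a (k.insertNth s u)))) t) (y : ℂ)) (y : ℂ) := by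
    simp only [lib_pds_cons, lib_pds_nil, x1w_pd_insS, x1w_pd_ins]
  have e2 : ∀ a ∈ x1U b0 e0 w h V, ∀ s ∈ x1U b0 e0 w h V,
      F (i.insertNth (y : ℂ) (j.insertNth a (k.insertNth s u))) =
      ((-1 : ℂ) ^ (i : ℕ) * (-1 : ℂ) ^ (j : ℕ) * (-1 : ℂ) ^ (k : ℕ)) *
        F (Fin.cons (y : ℂ) (Fin.cons a (Fin.cons s u : Fin (n + 1) → ℂ) : Fin (n + 2) → ℂ)) := by
    intro a ha s hs
    rw [x1w_alt_ins hF.alt hyU (mem_PU_insert (mem_PU_insert hu hs k) ha j) i,
      x1w_alt_ins (F := fun v => F (Fin.cons (y : ℂ) v)) (x1w_alt_cons hF.alt hyU) ha (mem_PU_insert hu hs k) j,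
      x1w_alt_ins (F := fun v => F (Fin.cons (y : ℂ) (Fin.cons a v : Fin (n + 2) → ℂ)))
        (x1w_alt_cons (F := fun v => F (Fin.cons (y : ℂ) v)) (x1w_alt_cons hF.alt hyU) ha) hs hu k]
    ring
  have e3 := x1w_deriv_scal hU (fun a ha => x1w_deriv_scal hU (x1w_deriv_scal hU (e2 a ha)) _ hyU) _ hyU
  rw [e1, e3]
  unfold c3
  simp only [lib_iter2]
  ring

/-! ### the three cases -/

lemma x1w_r1 (H : X1S b0 y e0 w h V) {q : ℕ} {F : (Fin (q + 1) → ℂ) → ℂ} (hF : X1F (q + 1) (x1U b0 e0 w h V) F)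
    {z : Fin (q + 1) → ℂ} (hz : z ∈ PU (q + 1) (x1U b0 e0 w h V)) (hr : x1r b0 e0 z = 1) :
    x1W1 b0 e0 y (q + 1) F z = x1wS (fun j => sc b0 e0 y 1 (z j)) F (x1A b0 y e0 0 z) 1 [] := by
  show ∑ i : Fin (q + 1), (-1 : ℂ) ^ (i : ℕ) * sc b0 e0 y 1 (z i) * ext0 b0 e0 (x1C1 y q F) (i.removeNth z) =
    ∑ i : Fin (q + 1), sc b0 e0 y 1 (z i) * lib_pds [i] F (x1A b0 y e0 0 z)
  exact Finset.sum_congr rfl fun i _ => x1w_T1 H hF hz hr i

lemma x1w_sA {q : ℕ} (i : Fin (q + 1)) (g : Fin (q + 1) → ℂ) : ∑ j, g (i.succAbove j) = ∑ a, g a - g i := by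
  rw [Fin.sum_univ_succAbove g i]
  ring

lemma x1w_r2 (H : X1S b0 y e0 w h V) {n : ℕ} {F : (Fin (n + 2) → ℂ) → ℂ} (hF : X1F (n + 2) (x1U b0 e0 w h V) F)
    {z : Fin (n + 2) → ℂ} (hz : z ∈ PU (n + 2) (x1U b0 e0 w h V)) (hr : x1r b0 e0 z = 2) :
    x1W2 b0 e0 y (n + 2) F z = x1wS (fun j => sc b0 e0 y 1 (z j)) F (x1A b0 y e0 0 z) 2 [] / 2 := by
  have hU := H.opU
  have he := H.e1
  have hw0 : x1A b0 y e0 0 z ∈ PU (n + 2) (x1U b0 e0 w h V) := H.A_mem (H.slice hz).zero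
  set W := x1A b0 y e0 0 z with hW
  set g : Fin (n + 2) → ℂ := fun a => (1 / 2) * (sc b0 e0 y 2 (z a) * lib_pds [a, a] F W) with hg
  have e1 : x1W2 b0 e0 y (n + 2) F z = ∑ i : Fin (n + 2), ∑ j : Fin (n + 1), sc b0 e0 y 0 (z i) * g (i.succAbove j) := by
    have e0' : x1W2 b0 e0 y (n + 2) F z = ∑ i : Fin (n + 2), (-1 : ℂ) ^ (i : ℕ) * sc b0 e0 y 0 (z i) *
        ∑ j : Fin (n + 1), (-1 : ℂ) ^ (j : ℕ) * sc b0 e0 y 2 (i.removeNth z j) *
          ext0 b0 e0 (x1C2 y n F) (j.removeNth (i.removeNth z)) := rfl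
    rw [e0']
    refine Finset.sum_congr rfl fun i _ => ?_
    rw [Finset.mul_sum]
    exact Finset.sum_congr rfl fun j _ => x1w_T2 H hF hz hr i j
  have e2 : ∀ i : Fin (n + 2), ∑ j : Fin (n + 1), sc b0 e0 y 0 (z i) * g (i.succAbove j) =
      sc b0 e0 y 0 (z i) * (∑ a, g a) - g i := by
    intro i
    rw [← Finset.mul_sum, x1w_sA, mul_sub]
    congr 1
    show sc b0 e0 y 0 (z i) * ((1 / 2) * (sc b0 e0 y 2 (z i) * lib_pds [i, i] F W)) =
      (1 / 2) * (sc b0 e0 y 2 (z i) * lib_pds [i, i] F W)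
    rw [x1w_sc2 he]
    have := x1w_sc01 (y := y) he (z i)
    linear_combination (1 / 2 * sc b0 e0 y 1 (z i) * lib_pds [i, i] F W) * this
  rw [e1, Finset.sum_congr rfl fun i _ => e2 i, Finset.sum_sub_distrib, ← Finset.sum_mul, x1w_sum_sc0 he, hr]
  have e3 : x1wS (fun j => sc b0 e0 y 1 (z j)) F W 2 [] = ∑ a : Fin (n + 2), ∑ b : Fin (n + 2),
      sc b0 e0 y 1 (z a) * (sc b0 e0 y 1 (z b) * lib_pds [b, a] F W) := by
    show (∑ a : Fin (n + 2), sc b0 e0 y 1 (z a) * ∑ b : Fin (n + 2), sc b0 e0 y 1 (z b) * lib_pds [b, a] F W) = _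
    exact Finset.sum_congr rfl fun a _ => Finset.mul_sum _ _ _
  have e4 : ∀ a : Fin (n + 2), ∑ b : Fin (n + 2), sc b0 e0 y 1 (z a) * (sc b0 e0 y 1 (z b) * lib_pds [b, a] F W) =
      2 * g a := by
    intro a
    rw [Finset.sum_eq_single a]
    · show _ = 2 * ((1 / 2) * (sc b0 e0 y 2 (z a) * lib_pds [a, a] F W))
      rw [x1w_sc2 he]
      ring
    · intro b _ hb
      by_cases ha' : InR b0 e0 (z a)
      swap
      · rw [x1_sc_not y 1 ha', zero_mul]
      by_cases hb' : InR b0 e0 (z b)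
      swap
      · rw [x1_sc_not y 1 hb', zero_mul, mul_zero]
      have h1 : lib_pds [b, a] F W = 0 := by
        refine x1w_pds_count _ hU hF a b hb.symm ?_ hw0 ?_
        · rw [List.count_cons, List.count_cons, List.count_cons, List.count_cons, List.count_nil, List.count_nil]
          simp [hb, hb.symm]
        · rw [hW, x1w_A_y ha', x1w_A_y hb']
      rw [h1, mul_zero, mul_zero]
    · intro ha
      exact absurd (Finset.mem_univ a) ha
  have e5 : ∑ a, 2 * g a = 2 * ∑ a, g a := (Finset.mul_sum _ _ _).symm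
  rw [e3, Finset.sum_congr rfl fun a _ => e4 a, e5]
  push_cast
  ring

lemma x1w_r3 (H : X1S b0 y e0 w h V) {n : ℕ} {F : (Fin (n + 3) → ℂ) → ℂ} (hF : X1F (n + 3) (x1U b0 e0 w h V) F)
    {z : Fin (n + 3) → ℂ} (hz : z ∈ PU (n + 3) (x1U b0 e0 w h V)) (hr : x1r b0 e0 z = 3) :
    x1W3 b0 e0 y (n + 3) F z = x1wS (fun j => sc b0 e0 y 1 (z j)) F (x1A b0 y e0 0 z) 3 [] / 6 := by
  classical
  have hU := H.opU
  have he := H.e1
  have hw0 : x1A b0 y e0 0 z ∈ PU (n + 3) (x1U b0 e0 w h V) := H.A_mem (H.slice hz).zero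
  set W := x1A b0 y e0 0 z with hW
  set x : Fin (n + 3) → ℂ := fun a => sc b0 e0 y 1 (z a) with hx
  set T : Fin (n + 3) → Fin (n + 3) → ℂ := fun a b => if a = b then 0 else x a * (x b * x b * lib_pds [a, b, b] F W) with hT
  have hTself : ∀ a, T a a = 0 := fun a => if_pos rfl
  have hTne : ∀ a b, a ≠ b → T a b = x a * (x b * x b * lib_pds [a, b, b] F W) := fun a b hab => if_neg hab
  have hT0 : ∀ a b, sc b0 e0 y 0 (z a) * T a b = T a b := by
    intro a b
    by_cases hab : a = b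
    · rw [hab, hTself, mul_zero]
    · rw [hTne a b hab]
      have := x1w_sc01 (y := y) he (z a)
      show sc b0 e0 y 0 (z a) * (sc b0 e0 y 1 (z a) * (x b * x b * lib_pds [a, b, b] F W)) =
        sc b0 e0 y 1 (z a) * (x b * x b * lib_pds [a, b, b] F W)
      linear_combination (x b * x b * lib_pds [a, b, b] F W) * this
  have hT0' : ∀ a b, sc b0 e0 y 0 (z a) * T b a = T b a := by
    intro a b
    by_cases hab : b = a
    · rw [hab, hTself, mul_zero]
    · rw [hTne b a hab]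
      have := x1w_sc01 (y := y) he (z a)
      show sc b0 e0 y 0 (z a) * (x b * (sc b0 e0 y 1 (z a) * sc b0 e0 y 1 (z a) * lib_pds [b, a, a] F W)) =
        x b * (sc b0 e0 y 1 (z a) * sc b0 e0 y 1 (z a) * lib_pds [b, a, a] F W)
      linear_combination (x b * sc b0 e0 y 1 (z a) * lib_pds [b, a, a] F W) * this
  -- the right hand side
  have e1 : x1W3 b0 e0 y (n + 3) F z = ∑ i : Fin (n + 3), ∑ j : Fin (n + 2), ∑ k : Fin (n + 1),
      sc b0 e0 y 0 (z i) * ((1 / 2) * T (i.succAbove j) (i.succAbove (j.succAbove k))) := by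
    have e0' : x1W3 b0 e0 y (n + 3) F z = ∑ i : Fin (n + 3), (-1 : ℂ) ^ (i : ℕ) * sc b0 e0 y 0 (z i) *
        ∑ j : Fin (n + 2), (-1 : ℂ) ^ (j : ℕ) * sc b0 e0 y 1 (i.removeNth z j) *
          ∑ k : Fin (n + 1), (-1 : ℂ) ^ (k : ℕ) * sc b0 e0 y 2 (j.removeNth (i.removeNth z) k) *
            ext0 b0 e0 (c3 y n F) (k.removeNth (j.removeNth (i.removeNth z))) := rfl
    rw [e0']
    refine Finset.sum_congr rfl fun i _ => ?_
    rw [Finset.mul_sum]
    refine Finset.sum_congr rfl fun j _ => ?_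
    rw [Finset.mul_sum, Finset.mul_sum]
    refine Finset.sum_congr rfl fun k _ => ?_
    rw [x1w_T3 H hF hz hr i j k, hTne _ _ (fun hh => Fin.succAbove_ne j k (Fin.succAbove_right_injective hh).symm),
      x1w_sc2 he]
  set M : ℂ := ∑ a, ∑ b, T a b with hM
  have e2 : ∀ i : Fin (n + 3), ∑ j : Fin (n + 2), ∑ k : Fin (n + 1),
      sc b0 e0 y 0 (z i) * ((1 / 2) * T (i.succAbove j) (i.succAbove (j.succAbove k))) =
      (1 / 2) * (sc b0 e0 y 0 (z i) * M - ∑ b, T i b - ∑ a, T a i) := by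
    intro i
    have a1 : ∀ j : Fin (n + 2), ∑ k : Fin (n + 1), T (i.succAbove j) (i.succAbove (j.succAbove k)) =
        ∑ b, T (i.succAbove j) b - T (i.succAbove j) i := by
      intro j
      rw [x1w_sA j (fun l => T (i.succAbove j) (i.succAbove l)), hTself, sub_zero,
        x1w_sA i (fun l => T (i.succAbove j) l)]
    have a2 : ∑ j : Fin (n + 2), ∑ k : Fin (n + 1), T (i.succAbove j) (i.succAbove (j.succAbove k)) =
        M - ∑ b, T i b - ∑ a, T a i := by
      rw [Finset.sum_congr rfl fun j _ => a1 j, Finset.sum_sub_distrib,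
        x1w_sA i (fun a => ∑ b, T a b), x1w_sA i (fun a => T a i), hTself, sub_zero]
    have a3 : sc b0 e0 y 0 (z i) * (∑ b, T i b) = ∑ b, T i b := by
      rw [Finset.mul_sum]
      exact Finset.sum_congr rfl fun b _ => hT0 i b
    have a4 : sc b0 e0 y 0 (z i) * (∑ a, T a i) = ∑ a, T a i := by
      rw [Finset.mul_sum]
      exact Finset.sum_congr rfl fun a _ => hT0' i a
    simp only [← Finset.mul_sum]
    rw [a2]
    linear_combination (-(1 / 2) : ℂ) * a3 - (1 / 2) * a4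
  have e3 : x1W3 b0 e0 y (n + 3) F z = (1 / 2) * M := by
    rw [e1, Finset.sum_congr rfl fun i _ => e2 i, ← Finset.mul_sum, Finset.sum_sub_distrib,
      Finset.sum_sub_distrib, ← Finset.sum_mul, x1w_sum_sc0 he, hr, Finset.sum_comm (f := fun i a => T a i), ← hM]
    push_cast
    ring
  -- the left hand side
  have hS : ∀ a, ¬ InR b0 e0 (z a) → x a = 0 := fun a ha => x1_sc_not y 1 ha
  have hwy : ∀ a, InR b0 e0 (z a) → W a = (y : ℂ) := fun a ha => x1w_A_y ha
  have e4 : ∀ a b c : Fin (n + 3), x a * (x b * (x c * lib_pds [c, b, a] F W)) =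
      (if b = c then T a b else 0) + (if a = c then T b a else 0) + (if a = b then T c a else 0) := by
    intro a b c
    by_cases hab : a = b
    · subst hab
      by_cases hac : a = c
      · subst hac
        rw [if_pos rfl, hTself, add_zero, add_zero]
        by_cases ha : InR b0 e0 (z a)
        swap
        · rw [hS a ha, zero_mul]
        have hcard : (Finset.univ.filter fun j => InR b0 e0 (z j)).card = 3 := by
          have := hr
          unfold x1r at this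
          exact this
        have hcard2 : 1 < ((Finset.univ.filter fun j => InR b0 e0 (z j)).erase a).card := by
          rw [Finset.card_erase_of_mem (by rw [Finset.mem_filter]; exact ⟨Finset.mem_univ a, ha⟩), hcard]
          norm_num
        obtain ⟨p, hp, r, hr', hpr⟩ := Finset.one_lt_card.1 hcard2
        rw [Finset.mem_erase, Finset.mem_filter] at hp hr'
        have h1 : lib_pds [a, a, a] F W = 0 := by
          refine x1w_pds_count _ hU hF p r hpr ?_ hw0 ?_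
          · rw [List.count_eq_zero_of_not_mem, List.count_eq_zero_of_not_mem]
            · simp [hr'.1]
            · simp [hp.1]
          · rw [hwy p hp.2.2, hwy r hr'.2.2]
        rw [h1]
        ring
      · rw [if_neg hac, if_pos rfl, hTne c a (Ne.symm hac)]
        ring
    · by_cases hbc : b = c
      · subst hbc
        rw [if_pos rfl, if_neg hab, hTne a b hab]
        have h1 : lib_pds [b, b, a] F W = lib_pds [a, b, b] F W :=
          lib_pds_perm (List.perm_append_comm (l₁ := [b, b]) (l₂ := [a])) hU hF.hol W hw0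
        rw [h1]
        ring
      · by_cases hac : a = c
        · subst hac
          rw [if_neg hbc, if_pos rfl, if_neg hab, hTne b a (Ne.symm hab)]
          have h1 : lib_pds [a, b, a] F W = lib_pds [b, a, a] F W :=
            lib_pds_perm (List.Perm.swap b a [a]) hU hF.hol W hw0
          rw [h1]
          ring
        · rw [if_neg hbc, if_neg hac, if_neg hab, add_zero, add_zero]
          by_cases ha' : InR b0 e0 (z a)
          swap
          · rw [hS a ha', zero_mul]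
          by_cases hb' : InR b0 e0 (z b)
          swap
          · rw [hS b hb', zero_mul, mul_zero]
          have h1 : lib_pds [c, b, a] F W = 0 := by
            refine x1w_pds_count _ hU hF a b hab ?_ hw0 ?_
            · have n1 : c ≠ a := Ne.symm hac
              have n2 : c ≠ b := Ne.symm hbc
              have n3 : b ≠ a := Ne.symm hab
              simp [n1, n2, n3, hab]
            · rw [hwy a ha', hwy b hb']
          rw [h1]
          ring
  have e5 : x1wS x F W 3 [] = ∑ a, ∑ b, ∑ c, x a * (x b * (x c * lib_pds [c, b, a] F W)) := by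
    show (∑ a, x a * ∑ b, x b * ∑ c, x c * lib_pds [c, b, a] F W) = _
    refine Finset.sum_congr rfl fun a _ => ?_
    rw [Finset.mul_sum]
    refine Finset.sum_congr rfl fun b _ => ?_
    rw [Finset.mul_sum, Finset.mul_sum]
  have e6 : ∀ a b : Fin (n + 3), ∑ c, x a * (x b * (x c * lib_pds [c, b, a] F W)) =
      T a b + T b a + (if a = b then ∑ c, T c a else 0) := by
    intro a b
    rw [Finset.sum_congr rfl fun c _ => e4 a b c, Finset.sum_add_distrib, Finset.sum_add_distrib,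
      Finset.sum_ite_eq Finset.univ b (fun _ => T a b), if_pos (Finset.mem_univ b),
      Finset.sum_ite_eq Finset.univ a (fun _ => T b a), if_pos (Finset.mem_univ a)]
    congr 1
    by_cases hab : a = b
    · simp only [if_pos hab]
    · simp only [if_neg hab, Finset.sum_const_zero]
  have e7 : x1wS x F W 3 [] = 3 * M := by
    rw [e5]
    have e8 : ∀ a : Fin (n + 3), ∑ b, ∑ c, x a * (x b * (x c * lib_pds [c, b, a] F W)) =
        ∑ b, T a b + ∑ b, T b a + ∑ c, T c a := by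
      intro a
      rw [Finset.sum_congr rfl fun b _ => e6 a b, Finset.sum_add_distrib, Finset.sum_add_distrib,
        Finset.sum_ite_eq Finset.univ a (fun _ => ∑ c, T c a), if_pos (Finset.mem_univ a)]
    rw [Finset.sum_congr rfl fun a _ => e8 a, Finset.sum_add_distrib, Finset.sum_add_distrib,
      Finset.sum_comm (f := fun a b => T b a), ← hM]
    ring
  rw [e3, e7]
  ring

end

theorem st_X1W : ST_X1W := by
  classical
  intro b0 y e0 w h V H q F hF z hz
  have hU := H.opU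
  have hw0 : x1A b0 y e0 0 z ∈ PU q (x1U b0 e0 w h V) := H.A_mem (H.slice hz).zero
  have hcoef := x1w_coeff H hF.hol hz (x1r b0 e0 z)
  have hle := x1r_le (b0 := b0) (e0 := e0) z
  rcases Nat.lt_or_ge (x1r b0 e0 z) 4 with hlt | hge
  · interval_cases hr : x1r b0 e0 z
    · rw [x1w_W1_zero q F z (by omega), x1w_W2_zero q F z (by omega), x1w_W3_zero q F z (by omega),
        x1w_ext_in F hr, add_zero, add_zero, add_zero]
      show F (x1A b0 y e0 0 z) = F z
      rw [x1w_A_out hr]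
    · obtain ⟨n, rfl⟩ : ∃ n, q = n + 1 := ⟨q - 1, by omega⟩
      rw [hcoef, x1w_W2_zero _ F z (by omega), x1w_W3_zero _ F z (by omega), x1w_ext_out F (by omega),
        x1w_r1 H hF hz hr, zero_add, add_zero, add_zero, Nat.factorial_one, Nat.cast_one, div_one]
    · obtain ⟨n, rfl⟩ : ∃ n, q = n + 2 := ⟨q - 2, by omega⟩
      rw [hcoef, x1w_W1_zero _ F z (by omega), x1w_W3_zero _ F z (by omega), x1w_ext_out F (by omega),
        x1w_r2 H hF hz hr, zero_add, zero_add, add_zero, Nat.factorial_two, Nat.cast_ofNat]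
    · obtain ⟨n, rfl⟩ : ∃ n, q = n + 3 := ⟨q - 3, by omega⟩
      have e6 : ((Nat.factorial 3 : ℕ) : ℂ) = 6 := by norm_num [Nat.factorial]
      rw [hcoef, x1w_W1_zero _ F z (by omega), x1w_W2_zero _ F z (by omega), x1w_ext_out F (by omega),
        x1w_r3 H hF hz hr, zero_add, zero_add, zero_add, e6]
  · rw [x1w_W1_zero q F z (by omega), x1w_W2_zero q F z (by omega), x1w_W3_zero q F z (by omega),
      x1w_ext_out F (by omega), add_zero, add_zero, add_zero, hcoef]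
    have hcard : (Finset.univ.filter fun j => InR b0 e0 (z j)).card = x1r b0 e0 z := by
      unfold x1r
      rfl
    have h1 := x1wS_zero (fun j => sc b0 e0 y 1 (z j)) F (x1A b0 y e0 0 z)
      (Finset.univ.filter fun j => InR b0 e0 (z j)) (fun j hj => x1_sc_not y 1 (fun hi => hj (by
        rw [Finset.mem_filter]
        exact ⟨Finset.mem_univ j, hi⟩))) (x1r b0 e0 z) (fun l hl hlS => by
        obtain ⟨a, ha, b, hb, hab, hc⟩ := x1w_pigeon (Finset.univ.filter fun j => InR b0 e0 (z j)) (by omega) l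
          (by omega) hlS
        rw [Finset.mem_filter] at ha hb
        exact x1w_pds_count l hU hF a b hab hc hw0 (by rw [x1w_A_y ha.2, x1w_A_y hb.2])) (x1r b0 e0 z) []
      (by rw [List.length_nil, add_zero]) (by intro j hj; exact absurd hj List.not_mem_nil)
    rw [h1, zero_div]

end

end Pool.Agent.Helper67.DO
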