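import Pool.Agent.Helper59.DO.X1s
import Pool.Agent.Helper26.DO.E8

/-!
MP_d07457_gt, module X1W, part 1: Taylor coefficients of `t ↦ F (A_t z)` by partial derivatives.
-/

set_option autoImplicit false

namespace Pool.Agent.Helper67.DO

open scoped BigOperators Real
open Set Filter Topology

noncomputable section

lemma x1w_c_iter (n : ℕ) (g : ℂ → ℂ) : x1c n g = ((Function.swap dslope (0 : ℂ))^[n] g) 0 := by
  induction n generalizing g with
  | zero => rfl
  | succ n ih =>
    show x1c n (dslope g 0) = _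
    rw [ih, Function.iterate_succ_apply]

lemma x1w_c_eq (n : ℕ) {g : ℂ → ℂ} (hg : AnalyticAt ℂ g 0) : x1c n g = iteratedDeriv n g 0 / n.factorial := by
  rw [x1w_c_iter]
  have hp := hg.hasFPowerSeriesAt
  rw [← (hp.has_fpower_series_iterate_dslope_fslope n).coeff_zero 1, ← FormalMultilinearSeries.coeff,
    FormalMultilinearSeries.coeff_iterate_fslope, zero_add, FormalMultilinearSeries.coeff_ofScalars]

/-- derivative in the direction `x` -/
def x1wD {q : ℕ} (x : Fin q → ℂ) (F : (Fin q → ℂ) → ℂ) : (Fin q → ℂ) → ℂ := fun w => ∑ j, x j * lib_pd j F w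

section
variable {U : Set ℂ} {q : ℕ}

lemma x1wD_hol (hU : IsOpen U) (x : Fin q → ℂ) {F : (Fin q → ℂ) → ℂ} (hF : DifferentiableOn ℂ F (PU q U)) :
    DifferentiableOn ℂ (x1wD x F) (PU q U) :=
  DifferentiableOn.fun_sum fun j _ => (lib_pd_hol j hU hF).const_mul (x j)

lemma x1wD_iter_hol (hU : IsOpen U) (x : Fin q → ℂ) (n : ℕ) {F : (Fin q → ℂ) → ℂ}
    (hF : DifferentiableOn ℂ F (PU q U)) : DifferentiableOn ℂ ((x1wD x)^[n] F) (PU q U) := by
  induction n with
  | zero => exact hF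
  | succ n ih =>
    rw [Function.iterate_succ_apply']
    exact x1wD_hol hU x ih

lemma x1wD_congr (hU : IsOpen U) (x : Fin q → ℂ) {F G : (Fin q → ℂ) → ℂ} (h : ∀ z ∈ PU q U, F z = G z) :
    ∀ z ∈ PU q U, x1wD x F z = x1wD x G z := by
  intro z hz
  unfold x1wD
  exact Finset.sum_congr rfl fun j _ => by rw [lib_pd_congr j hU h hz]

lemma x1wD_iter_congr (hU : IsOpen U) (x : Fin q → ℂ) (n : ℕ) {F G : (Fin q → ℂ) → ℂ}
    (h : ∀ z ∈ PU q U, F z = G z) : ∀ z ∈ PU q U, ((x1wD x)^[n] F) z = ((x1wD x)^[n] G) z := by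
  induction n with
  | zero => exact h
  | succ n ih =>
    rw [Function.iterate_succ_apply', Function.iterate_succ_apply']
    exact x1wD_congr hU x ih

lemma x1wD_sum (hU : IsOpen U) (x : Fin q → ℂ) {J : Type} (S : Finset J) (c : J → ℂ) (G : J → (Fin q → ℂ) → ℂ)
    (hG : ∀ j ∈ S, DifferentiableOn ℂ (G j) (PU q U)) : ∀ z ∈ PU q U,
    x1wD x (fun z => ∑ j ∈ S, c j * G j z) z = ∑ j ∈ S, c j * x1wD x (G j) z := by
  intro z hz
  unfold x1wD
  have e : ∀ k : Fin q, lib_pd k (fun z => ∑ j ∈ S, c j * G j z) z = ∑ j ∈ S, c j * lib_pd k (G j) z := by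
    intro k
    rw [lib_pd_sum k S (fun j z => c j * G j z) hU (fun j hj => (hG j hj).const_mul (c j)) hz]
    exact Finset.sum_congr rfl fun j _ => lib_pd_const_mul _ _ _ _
  simp only [e, Finset.mul_sum]
  rw [Finset.sum_comm]
  refine Finset.sum_congr rfl fun j _ => Finset.sum_congr rfl fun k _ => ?_
  ring

lemma x1wD_iter_sum (hU : IsOpen U) (x : Fin q → ℂ) (n : ℕ) {J : Type} (S : Finset J) (c : J → ℂ)
    (G : J → (Fin q → ℂ) → ℂ) (hG : ∀ j ∈ S, DifferentiableOn ℂ (G j) (PU q U)) : ∀ z ∈ PU q U,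
    ((x1wD x)^[n] (fun z => ∑ j ∈ S, c j * G j z)) z = ∑ j ∈ S, c j * ((x1wD x)^[n] (G j)) z := by
  induction n with
  | zero => exact fun z _ => rfl
  | succ n ih =>
    intro z hz
    rw [Function.iterate_succ_apply', x1wD_congr hU x ih z hz,
      x1wD_sum hU x S c (fun j => (x1wD x)^[n] (G j)) (fun j hj => x1wD_iter_hol hU x n (hG j hj)) z hz]
    refine Finset.sum_congr rfl fun j _ => ?_
    rw [Function.iterate_succ_apply']

/-- expansion of the iterates -/
def x1wS (x : Fin q → ℂ) (F : (Fin q → ℂ) → ℂ) (w : Fin q → ℂ) : ℕ → List (Fin q) → ℂ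
  | 0, l => lib_pds l F w
  | (n + 1), l => ∑ j, x j * x1wS x F w n (j :: l)

lemma x1wS_eq (hU : IsOpen U) (x : Fin q → ℂ) {F : (Fin q → ℂ) → ℂ} (hF : DifferentiableOn ℂ F (PU q U))
    {w : Fin q → ℂ} (hw : w ∈ PU q U) (n : ℕ) : ∀ l : List (Fin q),
    ((x1wD x)^[n] (lib_pds l F)) w = x1wS x F w n l := by
  induction n with
  | zero => exact fun l => rfl
  | succ n ih =>
    intro l
    rw [Function.iterate_succ_apply]
    have e : x1wD x (lib_pds l F) = fun z => ∑ j, x j * (fun j => lib_pds (j :: l) F) j z := rfl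
    rw [e, x1wD_iter_sum hU x n Finset.univ x (fun j => lib_pds (j :: l) F)
      (fun j _ => lib_pds_hol _ hU hF) w hw]
    show _ = ∑ j, x j * x1wS x F w n (j :: l)
    exact Finset.sum_congr rfl fun j _ => by rw [ih]

/-- if all derivatives of order `m` along `S` vanish -/
lemma x1wS_zero (x : Fin q → ℂ) (F : (Fin q → ℂ) → ℂ) (w : Fin q → ℂ) (S : Finset (Fin q))
    (hx : ∀ j, j ∉ S → x j = 0) (m : ℕ)
    (h : ∀ l : List (Fin q), l.length = m → (∀ j ∈ l, j ∈ S) → lib_pds l F w = 0) (n : ℕ) :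
    ∀ l : List (Fin q), n + l.length = m → (∀ j ∈ l, j ∈ S) → x1wS x F w n l = 0 := by
  induction n with
  | zero =>
    intro l hl hS
    exact h l (by omega) hS
  | succ n ih =>
    intro l hl hS
    show ∑ j, x j * x1wS x F w n (j :: l) = 0
    refine Finset.sum_eq_zero fun j _ => ?_
    by_cases hj : j ∈ S
    · rw [ih (j :: l) (by rw [List.length_cons]; omega), mul_zero]
      intro k hk
      rcases List.mem_cons.1 hk with rfl | hk
      · exact hj
      · exact hS k hk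
    · rw [hx j hj, zero_mul]

/-- alternation without boundedness -/
lemma x1w_pds_zero (l : List (Fin q)) {F : (Fin q → ℂ) → ℂ} (hU : IsOpen U)
    (hF : X1F q U F) (a b : Fin q) (hab : a ≠ b) (hl : (l.map (Equiv.swap a b)).Perm l)
    {z : Fin q → ℂ} (hz : z ∈ PU q U) (he : z a = z b) : lib_pds l F z = 0 := by
  have h1 := lib_pds_alt (F := F) l hU (Equiv.swap a b) (c := -1) (by
    intro y hy
    rw [hF.alt y hy, Equiv.Perm.sign_swap hab]
    push_cast
    rfl) z hz
  rw [Equiv.symm_swap] at h1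
  have h2 : (fun i => z (Equiv.swap a b i)) = z := by
    funext i
    by_cases h3 : i = a
    · rw [h3, Equiv.swap_apply_left, he]
    by_cases h4 : i = b
    · rw [h4, Equiv.swap_apply_right, he]
    rw [Equiv.swap_apply_of_ne_of_ne h3 h4]
  rw [h2, lib_pds_perm hl hU hF.hol z hz] at h1
  linear_combination h1 / 2

lemma x1w_pds_count (l : List (Fin q)) {F : (Fin q → ℂ) → ℂ} (hU : IsOpen U)
    (hF : X1F q U F) (a b : Fin q) (hab : a ≠ b) (hl : l.count a = l.count b)
    {z : Fin q → ℂ} (hz : z ∈ PU q U) (he : z a = z b) : lib_pds l F z = 0 := by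
  refine x1w_pds_zero l hU hF a b hab ?_ hz he
  rw [List.perm_iff_count]
  intro c
  have h1 : List.count c (l.map (Equiv.swap a b)) = l.count (Equiv.swap a b c) := by
    have := List.count_map_of_injective l (Equiv.swap a b) (Equiv.swap a b).injective (Equiv.swap a b c)
    rwa [Equiv.swap_apply_self] at this
  rw [h1]
  by_cases h2 : c = a
  · rw [h2, Equiv.swap_apply_left, hl]
  by_cases h3 : c = b
  · rw [h3, Equiv.swap_apply_right, hl]
  rw [Equiv.swap_apply_of_ne_of_ne h2 h3]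

end

lemma x1w_sum_range (T : Finset ℕ) : ∑ i ∈ Finset.range T.card, i ≤ ∑ i ∈ T, i := by
  have h := Finset.sum_range_le_sum (s := T.map Nat.castEmbedding) (c := (0 : ℤ)) (by
    intro x hx
    rw [Finset.mem_map] at hx
    obtain ⟨n, _, rfl⟩ := hx
    exact Int.natCast_nonneg n)
  rw [Finset.card_map, Finset.sum_map] at h
  simp only [zero_add, Nat.castEmbedding_apply] at h
  have h' : ((∑ i ∈ Finset.range T.card, i : ℕ) : ℤ) ≤ ((∑ i ∈ T, i : ℕ) : ℤ) := by
    rw [Nat.cast_sum, Nat.cast_sum]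
    exact h
  exact Int.ofNat_le.1 h'

/-- pigeonhole -/
lemma x1w_pigeon {q : ℕ} (S : Finset (Fin q)) (hS : 4 ≤ S.card) (l : List (Fin q)) (hl : l.length = S.card)
    (hlS : ∀ j ∈ l, j ∈ S) : ∃ a ∈ S, ∃ b ∈ S, a ≠ b ∧ l.count a = l.count b := by
  by_contra hcon
  push Not at hcon
  have hinj : Set.InjOn (fun a => l.count a) (S : Set (Fin q)) := by
    intro a ha b hb hab
    by_contra hne
    exact hcon a ha b hb hne hab
  have h1 : ∑ a ∈ S, l.count a = S.card := by
    have h2 := Multiset.sum_count_eq_card (s := S) (m := (l : Multiset (Fin q))) (fun a ha => hlS a ha)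
    rw [Multiset.coe_card, hl] at h2
    simp only [Multiset.coe_count] at h2
    exact h2
  have h3 : (S.image fun a => l.count a).card = S.card := Finset.card_image_of_injOn hinj
  have h4 := x1w_sum_range (S.image fun a => l.count a)
  rw [h3, Finset.sum_image hinj, h1] at h4
  have h5 := Finset.sum_range_id_mul_two S.card
  have h6 : 4 * (S.card - 1) ≤ S.card * (S.card - 1) := Nat.mul_le_mul_right _ hS
  have h7 : ∑ i ∈ Finset.range S.card, i = ∑ i ∈ Finset.range S.card, (fun i => i) i := rfl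
  omega

/-! ### the retraction -/

section
variable {b0 y e0 w h : ℝ} {V : Set ℂ} {q : ℕ}

lemma x1w_A_deriv (z : Fin q → ℂ) (t : ℂ) :
    HasDerivAt (fun t : ℂ => x1A b0 y e0 t z) (fun j => sc b0 e0 y 1 (z j)) t := by
  rw [hasDerivAt_pi]
  intro j
  by_cases hj : InR b0 e0 (z j)
  · have e : (fun t : ℂ => x1A b0 y e0 t z j) = fun t : ℂ => (y : ℂ) + t * sc b0 e0 y 1 (z j) := by
      funext t
      exact x1A_in t z hj
    rw [e]
    have := ((hasDerivAt_id' t).mul_const (sc b0 e0 y 1 (z j))).const_add (y : ℂ)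
    rwa [one_mul] at this
  · have e : (fun t : ℂ => x1A b0 y e0 t z j) = fun t : ℂ => z j := by
      funext t
      exact x1A_out t z hj
    rw [e, x1_sc_not y 1 hj]
    exact hasDerivAt_const t (z j)

lemma x1w_comp_deriv (H : X1S b0 y e0 w h V) {G : (Fin q → ℂ) → ℂ}
    (hG : DifferentiableOn ℂ G (PU q (x1U b0 e0 w h V))) {z : Fin q → ℂ} {t : ℂ}
    (hp : (z, t) ∈ x1Om b0 y e0 w h V q) :
    HasDerivAt (fun t : ℂ => G (x1A b0 y e0 t z))
      (x1wD (fun j => sc b0 e0 y 1 (z j)) G (x1A b0 y e0 t z)) t := by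
  have hm := H.A_mem hp
  have hd : DifferentiableAt ℂ G (x1A b0 y e0 t z) :=
    (hG _ hm).differentiableAt ((isOpen_PU q H.opU).mem_nhds hm)
  have h1 := hd.hasFDerivAt.comp_hasDerivAt t (x1w_A_deriv (b0 := b0) (y := y) (e0 := e0) z t)
  have e : x1wD (fun j => sc b0 e0 y 1 (z j)) G (x1A b0 y e0 t z) =
      fderiv ℂ G (x1A b0 y e0 t z) (fun j => sc b0 e0 y 1 (z j)) := by
    unfold x1wD
    have e1 : (fun j => sc b0 e0 y 1 (z j)) =
        ∑ j, sc b0 e0 y 1 (z j) • (Pi.single j (1 : ℂ) : Fin q → ℂ) := by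
      funext k
      rw [Finset.sum_apply]
      simp only [Pi.smul_apply, Pi.single_apply, smul_eq_mul, mul_ite, mul_one, mul_zero]
      rw [Finset.sum_ite_eq Finset.univ k, if_pos (Finset.mem_univ k)]
    conv_rhs => rw [e1, map_sum]
    refine Finset.sum_congr rfl fun j _ => ?_
    rw [map_smul, lib_pd_eq_fderiv j hd, smul_eq_mul]
  rw [e]
  exact h1

lemma x1w_iter (H : X1S b0 y e0 w h V) {F : (Fin q → ℂ) → ℂ}
    (hF : DifferentiableOn ℂ F (PU q (x1U b0 e0 w h V))) {z : Fin q → ℂ} (n : ℕ) : ∀ t : ℂ,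
    (z, t) ∈ x1Om b0 y e0 w h V q → iteratedDeriv n (fun t : ℂ => F (x1A b0 y e0 t z)) t =
      ((x1wD (fun j => sc b0 e0 y 1 (z j)))^[n] F) (x1A b0 y e0 t z) := by
  induction n with
  | zero =>
    intro t _
    rw [iteratedDeriv_zero]
    rfl
  | succ n ih =>
    intro t ht
    rw [iteratedDeriv_succ, Function.iterate_succ_apply']
    have hO : IsOpen {t : ℂ | (z, t) ∈ x1Om b0 y e0 w h V q} := x1_slice_op (H.Om_open q) z
    have h1 : iteratedDeriv n (fun t : ℂ => F (x1A b0 y e0 t z)) =ᶠ[𝓝 t]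
        fun t => ((x1wD (fun j => sc b0 e0 y 1 (z j)))^[n] F) (x1A b0 y e0 t z) := by
      filter_upwards [hO.mem_nhds ht] with s hs
      exact ih s hs
    rw [h1.deriv_eq]
    exact (x1w_comp_deriv H (x1wD_iter_hol H.opU _ n hF) ht).deriv

/-- the Taylor coefficients -/
lemma x1w_coeff (H : X1S b0 y e0 w h V) {F : (Fin q → ℂ) → ℂ}
    (hF : DifferentiableOn ℂ F (PU q (x1U b0 e0 w h V))) {z : Fin q → ℂ} (hz : z ∈ PU q (x1U b0 e0 w h V))
    (n : ℕ) : x1c n (fun t => F (x1A b0 y e0 t z)) =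
      x1wS (fun j => sc b0 e0 y 1 (z j)) F (x1A b0 y e0 0 z) n [] / n.factorial := by
  have hO := H.slice hz
  have h0 := hO.zero
  have hd := H.slice_diff hF z
  have han : AnalyticAt ℂ (fun t => F (x1A b0 y e0 t z)) 0 := hd.analyticAt (hO.op.mem_nhds h0)
  rw [x1w_c_eq n han, x1w_iter H hF n 0 h0, ← x1wS_eq H.opU _ hF (H.A_mem h0) n []]
  rfl

end

end

end Pool.Agent.Helper67.DO
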