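import Pool.Agent.Helper67.DO.BaseE
import Pool.Agent.Helper26.DO.Lib
import Pool.Agent.Helper23.DO.E4

/-!
MP_d07457_gt, module X2, part 2: extension by zero and `u_3 ∧`.
-/

set_option autoImplicit false

namespace Pool.Agent.Helper67.DO

open scoped BigOperators Real
open Set Filter Topology

noncomputable section

/-! ### the periodic rectangle -/

lemma x2_add_re (z : ℂ) : (z + 1).re = z.re + 1 := by rw [Complex.add_re, Complex.one_re]

lemma x2_add_im (z : ℂ) : (z + 1).im = z.im := by rw [Complex.add_im, Complex.one_im, add_zero]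

lemma x2_inR_add (b0 e0 : ℝ) (z : ℂ) : InR b0 e0 (z + 1) ↔ InR b0 e0 z := by
  constructor
  · rintro ⟨k, h1, h2⟩
    rw [x2_add_re] at h1 h2
    refine ⟨k - 1, ?_, ?_⟩ <;> push_cast <;> linarith
  · rintro ⟨k, h1, h2⟩
    refine ⟨k + 1, ?_, ?_⟩ <;> rw [x2_add_re] <;> push_cast <;> linarith

lemma x2_RR_per (b0 e0 w h : ℝ) : Per (RR b0 e0 w h) := by
  intro z
  constructor
  · rintro ⟨h0, k, h1, h2⟩
    refine ⟨by rw [x2_add_im]; exact h0, k + 1, ?_, ?_⟩ <;> rw [x2_add_re] <;> push_cast <;> linarith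
  · rintro ⟨h0, k, h1, h2⟩
    rw [x2_add_im] at h0
    rw [x2_add_re] at h1 h2
    refine ⟨h0, k - 1, ?_, ?_⟩ <;> push_cast <;> linarith

lemma x2_RR_open (b0 e0 w h : ℝ) : IsOpen (RR b0 e0 w h) := by
  have e : RR b0 e0 w h = {z : ℂ | |z.im| < h} ∩ ⋃ k : ℤ, ({z : ℂ | b0 + w < z.re - k} ∩ {z : ℂ | z.re - k < e0 - w}) := by
    ext z
    simp only [RR, mem_ofPred_eq, mem_inter_iff, mem_iUnion]
  rw [e]
  refine IsOpen.inter (isOpen_lt Complex.continuous_im.abs continuous_const) (isOpen_iUnion fun k => ?_)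
  exact (isOpen_lt continuous_const (Complex.continuous_re.sub continuous_const)).inter
    (isOpen_lt (Complex.continuous_re.sub continuous_const) continuous_const)

lemma x2_RR_inR {b0 e0 w h : ℝ} (hw : 0 ≤ w) {z : ℂ} (hz : z ∈ RR b0 e0 w h) : InR b0 e0 z := by
  obtain ⟨_, k, h1, h2⟩ := hz
  exact ⟨k, by linarith, by linarith⟩

lemma x2_RR_mono {b0 e1 e0 w h : ℝ} (he : e1 ≤ e0) : RR b0 e1 w h ⊆ RR b0 e0 w h := by
  rintro z ⟨h0, k, h1, h2⟩
  exact ⟨h0, k, h1, by linarith⟩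

lemma x2_Per_union {A B : Set ℂ} (hA : Per A) (hB : Per B) : Per (A ∪ B) := by
  intro z
  rw [mem_union, mem_union, ← hA z, ← hB z]

/-! ### `sc` -/

lemma x2_k_unique {b0 e0 : ℝ} (he : e0 ≤ b0 + 1) {x : ℝ} {k l : ℤ} (h1 : b0 < x - k) (h2 : x - k < e0)
    (h3 : b0 < x - l) (h4 : x - l < e0) : k = l := by
  have a1 : (k : ℝ) - l < 1 := by linarith
  have a2 : (l : ℝ) - k < 1 := by linarith
  have b1 : k - l < 1 := by exact_mod_cast a1
  have b2 : l - k < 1 := by exact_mod_cast a2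
  omega

lemma x2_sc_eq {b0 e0 : ℝ} (he : e0 ≤ b0 + 1) (y : ℝ) (p : ℕ) {z : ℂ} {k : ℤ} (h1 : b0 < z.re - k)
    (h2 : z.re - k < e0) : sc b0 e0 y p z = (z - (k : ℂ) - y) ^ p := by
  have h : ∃ k : ℤ, b0 < z.re - k ∧ z.re - k < e0 := ⟨k, h1, h2⟩
  unfold sc
  rw [dif_pos h]
  have e : h.choose = k := x2_k_unique he h.choose_spec.1 h.choose_spec.2 h1 h2
  rw [e]

lemma x2_sc_zero {b0 e0 : ℝ} (y : ℝ) (p : ℕ) {z : ℂ} (h : ¬ InR b0 e0 z) : sc b0 e0 y p z = 0 := by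
  have h' : ¬ ∃ k : ℤ, b0 < z.re - k ∧ z.re - k < e0 := h
  unfold sc
  rw [dif_neg h']

lemma x2_sc_per {b0 e0 : ℝ} (he : e0 ≤ b0 + 1) (y : ℝ) (p : ℕ) (z : ℂ) : sc b0 e0 y p (z + 1) = sc b0 e0 y p z := by
  by_cases h : InR b0 e0 z
  · obtain ⟨k, h1, h2⟩ := h
    rw [x2_sc_eq he y p h1 h2, x2_sc_eq he y p (k := k + 1) (z := z + 1)]
    · push_cast
      congr 1
      ring
    · rw [x2_add_re]
      push_cast
      linarith
    · rw [x2_add_re]
      push_cast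
      linarith
  · rw [x2_sc_zero y p h, x2_sc_zero y p]
    rwa [x2_inR_add]

lemma x2_strip_open (b0 e0 : ℝ) (k : ℤ) : IsOpen {z : ℂ | b0 < z.re - k ∧ z.re - k < e0} :=
  (isOpen_lt continuous_const (Complex.continuous_re.sub continuous_const)).inter
    (isOpen_lt (Complex.continuous_re.sub continuous_const) continuous_const)

/-- near a point of the strip -/
lemma x2_sc_near {b0 e0 : ℝ} (he : e0 ≤ b0 + 1) (y : ℝ) (p : ℕ) {z : ℂ} {k : ℤ} (h1 : b0 < z.re - k)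
    (h2 : z.re - k < e0) : sc b0 e0 y p =ᶠ[𝓝 z] fun t => (t - (k : ℂ) - y) ^ p := by
  filter_upwards [(x2_strip_open b0 e0 k).mem_nhds ⟨h1, h2⟩] with t ht
  exact x2_sc_eq he y p ht.1 ht.2

lemma x2_sc_near0 {b0 e0 : ℝ} (y : ℝ) (p : ℕ) {V : Set ℂ} (hV : IsOpen V) (nV : ∀ z ∈ V, ¬ InR b0 e0 z)
    {z : ℂ} (hz : z ∈ V) : sc b0 e0 y p =ᶠ[𝓝 z] fun _ => 0 := by
  filter_upwards [hV.mem_nhds hz] with t ht
  exact x2_sc_zero y p (nV t ht)

lemma x2_pow_deriv (c : ℂ) (p : ℕ) (z : ℂ) : HasDerivAt (fun t : ℂ => (t - c) ^ p) (p * (z - c) ^ (p - 1)) z := by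
  have := ((hasDerivAt_id z).sub_const c).fun_pow p
  rw [mul_one] at this
  exact this

/-- the derivative of `sc` -/
lemma x2_sc_hasDeriv {b0 e0 w h y : ℝ} (hw : 0 ≤ w) (he : e0 ≤ b0 + 1) (p : ℕ) {V : Set ℂ} (hV : IsOpen V)
    (nV : ∀ z ∈ V, ¬ InR b0 e0 z) {z : ℂ} (hz : z ∈ V ∪ RR b0 e0 w h) :
    HasDerivAt (sc b0 e0 y p) (p * sc b0 e0 y (p - 1) z) z := by
  rcases hz with hz | hz
  · rw [x2_sc_zero y _ (nV z hz), mul_zero]
    exact (hasDerivAt_const z (0 : ℂ)).congr_of_eventuallyEq (x2_sc_near0 y p hV nV hz)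
  · obtain ⟨k, h1, h2⟩ := x2_RR_inR hw hz
    rw [x2_sc_eq he y _ h1 h2]
    refine HasDerivAt.congr_of_eventuallyEq ?_ (x2_sc_near he y p h1 h2)
    have := x2_pow_deriv ((k : ℂ) + y) p z
    simpa only [sub_sub] using this

lemma x2_sc_diff {b0 e0 w h y : ℝ} (hw : 0 ≤ w) (he : e0 ≤ b0 + 1) (p : ℕ) {V : Set ℂ} (hV : IsOpen V)
    (nV : ∀ z ∈ V, ¬ InR b0 e0 z) : DifferentiableOn ℂ (sc b0 e0 y p) (V ∪ RR b0 e0 w h) := fun _ hz =>
  (x2_sc_hasDeriv hw he p hV nV hz).differentiableAt.differentiableWithinAt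

lemma x2_sc_mul {b0 e0 : ℝ} (he : e0 ≤ b0 + 1) (y : ℝ) (p r : ℕ) (z : ℂ) :
    sc b0 e0 y p z * sc b0 e0 y r z = sc b0 e0 y (p + r) z := by
  by_cases h : InR b0 e0 z
  · obtain ⟨k, h1, h2⟩ := h
    rw [x2_sc_eq he y p h1 h2, x2_sc_eq he y r h1 h2, x2_sc_eq he y (p + r) h1 h2, pow_add]
  · rw [x2_sc_zero y p h, x2_sc_zero y (p + r) h, zero_mul]

lemma x2_sc_bound {b0 e0 w h y : ℝ} (hw : 0 ≤ w) (hh : 0 < h) (he : e0 ≤ b0 + 1) (hy1 : b0 < y) (hy2 : y < e0) (p : ℕ)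
    {V : Set ℂ} (nV : ∀ z ∈ V, ¬ InR b0 e0 z) {z : ℂ} (hz : z ∈ V ∪ RR b0 e0 w h) :
    ‖sc b0 e0 y p z‖ ≤ (1 + h) ^ p := by
  rcases hz with hz | hz
  · rw [x2_sc_zero y _ (nV z hz), norm_zero]
    positivity
  · obtain ⟨k, h1, h2⟩ := x2_RR_inR hw hz
    rw [x2_sc_eq he y _ h1 h2, norm_pow]
    refine pow_le_pow_left₀ (norm_nonneg _) ?_ p
    have e1 : (z - (k : ℂ) - y).re = z.re - k - y := by
      simp
    have e2 : (z - (k : ℂ) - y).im = z.im := by
      simp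
    refine (Complex.norm_le_abs_re_add_abs_im _).trans ?_
    rw [e1, e2]
    refine add_le_add ?_ hz.1.le
    rw [abs_le]
    constructor <;> linarith

/-! ### extension by zero -/

section
variable {b0 e0 w h : ℝ} {V : Set ℂ}

lemma x2_mem_V (hw : 0 ≤ w) {q : ℕ} {z : Fin q → ℂ} (hz : z ∈ PU q (V ∪ RR b0 e0 w h))
    (h : ∀ j, ¬ InR b0 e0 (z j)) : z ∈ PU q V := by
  intro j
  rcases hz j with h1 | h1
  · exact h1
  · exact absurd (x2_RR_inR hw h1) (h j)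

lemma x2_mem_R (nV : ∀ z ∈ V, ¬ InR b0 e0 z) {z : ℂ} (hz : z ∈ V ∪ RR b0 e0 w h) (hi : InR b0 e0 z) :
    z ∈ RR b0 e0 w h := by
  rcases hz with h1 | h1
  · exact absurd hi (nV z h1)
  · exact h1

lemma x2_ext_V (nV : ∀ z ∈ V, ¬ InR b0 e0 z) {q : ℕ} (F : (Fin q → ℂ) → ℂ) {z : Fin q → ℂ} (hz : z ∈ PU q V) :
    ext0 b0 e0 F z = F z := by
  unfold ext0
  rw [if_pos fun j => nV _ (hz j)]

lemma x2_ext_R {q : ℕ} (F : (Fin q → ℂ) → ℂ) {z : Fin q → ℂ} (j : Fin q) (h : InR b0 e0 (z j)) :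
    ext0 b0 e0 F z = 0 := by
  unfold ext0
  rw [if_neg]
  intro h'
  exact h' j h

lemma x2_ext_near {q : ℕ} (F : (Fin q → ℂ) → ℂ) {z : Fin q → ℂ} (j : Fin q) (hj : InR b0 e0 (z j)) :
    ext0 b0 e0 F =ᶠ[𝓝 z] fun _ => 0 := by
  obtain ⟨k, h1, h2⟩ := hj
  have h3 : {x : Fin q → ℂ | b0 < (x j).re - k ∧ (x j).re - k < e0} ∈ 𝓝 z := by
    have h4 : IsOpen ((fun x : Fin q → ℂ => x j) ⁻¹' {z : ℂ | b0 < z.re - k ∧ z.re - k < e0}) :=
      (x2_strip_open b0 e0 k).preimage (continuous_apply j)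
    have h5 : z ∈ ((fun x : Fin q → ℂ => x j) ⁻¹' {z : ℂ | b0 < z.re - k ∧ z.re - k < e0}) := ⟨h1, h2⟩
    exact h4.mem_nhds h5
  filter_upwards [h3] with x hx
  exact x2_ext_R F j ⟨k, hx.1, hx.2⟩

/-- (4) -/
lemma x2_ext_BO (hw : 0 ≤ w) (hV : IsOpen V) (hP : Per V) (nV : ∀ z ∈ V, ¬ InR b0 e0 z) {q : ℕ}
    {F : (Fin q → ℂ) → ℂ} (hF : BO q V F) : BO q (V ∪ RR b0 e0 w h) (ext0 b0 e0 F) := by
  refine ⟨?_, ?_, ?_, ?_⟩
  · intro z hz
    refine DifferentiableAt.differentiableWithinAt ?_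
    by_cases hc : ∀ j, ¬ InR b0 e0 (z j)
    · have hzV := x2_mem_V hw hz hc
      have hn := (lib_isOpen_PU q hV).mem_nhds hzV
      refine ((hF.hol z hzV).differentiableAt hn).congr_of_eventuallyEq ?_
      filter_upwards [hn] with x hx
      exact x2_ext_V nV F hx
    · push Not at hc
      obtain ⟨j, hj⟩ := hc
      exact (differentiableAt_const (0 : ℂ)).congr_of_eventuallyEq (x2_ext_near F j hj)
  · intro z hz i
    by_cases hc : ∀ j, ¬ InR b0 e0 (z j)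
    · have hzV := x2_mem_V hw hz hc
      have h1 : Function.update z i (z i + 1) ∈ PU q V := lib_update_PU i ((hP _).1 (hzV i)) hzV
      rw [x2_ext_V nV F hzV, x2_ext_V nV F h1]
      exact hF.per z hzV i
    · push Not at hc
      obtain ⟨j, hj⟩ := hc
      rw [x2_ext_R F j hj, x2_ext_R F j]
      by_cases hji : j = i
      · subst hji
        rw [Function.update_self, x2_inR_add]
        exact hj
      · rw [Function.update_of_ne hji]
        exact hj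
  · intro z hz σ
    by_cases hc : ∀ j, ¬ InR b0 e0 (z j)
    · have hzV := x2_mem_V hw hz hc
      have h1 : (fun i => z (σ i)) ∈ PU q V := fun i => hzV (σ i)
      rw [x2_ext_V nV F hzV, x2_ext_V nV F h1]
      exact hF.alt z hzV σ
    · push Not at hc
      obtain ⟨j, hj⟩ := hc
      rw [x2_ext_R F j hj, mul_zero, x2_ext_R F (σ.symm j)]
      show InR b0 e0 (z (σ (σ.symm j)))
      rw [Equiv.apply_symm_apply]
      exact hj
  · obtain ⟨C, hC⟩ := hF.bdd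
    refine ⟨|C|, fun z hz => ?_⟩
    by_cases hc : ∀ j, ¬ InR b0 e0 (z j)
    · have hzV := x2_mem_V hw hz hc
      rw [x2_ext_V nV F hzV]
      exact (hC z hzV).trans (le_abs_self C)
    · push Not at hc
      obtain ⟨j, hj⟩ := hc
      rw [x2_ext_R F j hj, norm_zero]
      exact abs_nonneg C

/-- bound for the extension -/
lemma x2_ext_bound (hw : 0 ≤ w) (nV : ∀ z ∈ V, ¬ InR b0 e0 z) {q : ℕ} {F : (Fin q → ℂ) → ℂ} {B : ℝ}
    (hB0 : 0 ≤ B) (hB : ∀ z ∈ PU q V, ‖F z‖ ≤ B) {z : Fin q → ℂ} (hz : z ∈ PU q (V ∪ RR b0 e0 w h)) :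
    ‖ext0 b0 e0 F z‖ ≤ B := by
  by_cases hc : ∀ j, ¬ InR b0 e0 (z j)
  · have hzV := x2_mem_V hw hz hc
    rw [x2_ext_V nV F hzV]
    exact hB z hzV
  · push Not at hc
    obtain ⟨j, hj⟩ := hc
    rw [x2_ext_R F j hj, norm_zero]
    exact hB0

/-- (5) -/
lemma x2_ext_dd (hw : 0 ≤ w) (hV : IsOpen V) (nV : ∀ z ∈ V, ¬ InR b0 e0 z) {q : ℕ}
    (F : (Fin (q + 1) → ℂ) → ℂ) {z : Fin q → ℂ} (hz : z ∈ PU q (V ∪ RR b0 e0 w h)) :
    dd q (ext0 b0 e0 F) z = ext0 b0 e0 (dd q F) z := by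
  by_cases hc : ∀ j, ¬ InR b0 e0 (z j)
  · have hzV := x2_mem_V hw hz hc
    rw [x2_ext_V nV _ hzV]
    exact dd_congr hV (fun x hx => x2_ext_V nV F hx) hzV
  · push Not at hc
    obtain ⟨j, hj⟩ := hc
    rw [x2_ext_R _ j hj]
    unfold dd
    refine Finset.sum_eq_zero fun i _ => ?_
    have e : (fun t : ℂ => ext0 b0 e0 F (i.succ.insertNth t z)) = fun _ => 0 := by
      funext t
      refine x2_ext_R F (i.succ.succAbove j) ?_
      rw [Fin.insertNth_apply_succAbove]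
      exact hj
    rw [e, deriv_const, mul_zero]

/-! ### the Lie derivative -/

/-- Lie derivative on chains -/
def x2_L (a : ℂ → ℂ) (q : ℕ) (F : (Fin q → ℂ) → ℂ) (z : Fin q → ℂ) : ℂ :=
  ∑ j, (a (z j) * lib_pd j F z - deriv a (z j) * F z)

lemma x2_wd_congr {U : Set ℂ} {a a' : ℂ → ℂ} {q : ℕ} {F G : (Fin q → ℂ) → ℂ} (ha : ∀ z ∈ U, a z = a' z)
    (h : ∀ z ∈ PU q U, F z = G z) {z : Fin (q + 1) → ℂ} (hz : z ∈ PU (q + 1) U) : wd a q F z = wd a' q G z := by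
  unfold wd
  refine Finset.sum_congr rfl fun i _ => ?_
  rw [h _ (e4_removeNth_mem hz i), ha _ (hz i)]

lemma x2_wd_lin (a : ℂ → ℂ) (q : ℕ) (c d : ℂ) (F G : (Fin q → ℂ) → ℂ) (z : Fin (q + 1) → ℂ) :
    wd a q (fun x => c * F x + d * G x) z = c * wd a q F z + d * wd a q G z := by
  unfold wd
  rw [Finset.mul_sum, Finset.mul_sum, ← Finset.sum_add_distrib]
  refine Finset.sum_congr rfl fun i _ => ?_
  ring

lemma x2_wd_smul (c : ℂ) (a : ℂ → ℂ) (q : ℕ) (F : (Fin q → ℂ) → ℂ) (z : Fin (q + 1) → ℂ) :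
    wd (fun t => c * a t) q F z = c * wd a q F z := by
  unfold wd
  rw [Finset.mul_sum]
  refine Finset.sum_congr rfl fun i _ => ?_
  ring

lemma x2_wd_zero (a : ℂ → ℂ) (q : ℕ) (z : Fin (q + 1) → ℂ) : wd a q (fun _ => 0) z = 0 := by
  unfold wd
  refine Finset.sum_eq_zero fun i _ => ?_
  rw [mul_zero]

lemma x2_wd_wd (a : ℂ → ℂ) (q : ℕ) (F : (Fin q → ℂ) → ℂ) (z : Fin (q + 2) → ℂ) :
    wd a (q + 1) (wd a q F) z = 0 := by
  have e0 : wd a (q + 1) (wd a q F) z = ∑ p : Fin (q + 2) × Fin (q + 1),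
      (-1 : ℂ) ^ ((p.1 : ℕ) + (p.2 : ℕ)) * (a (z p.1) * a (z (p.1.succAbove p.2))) *
        F (p.2.removeNth (p.1.removeNth z)) := by
    unfold wd
    rw [Fintype.sum_prod_type]
    refine Finset.sum_congr rfl fun i _ => ?_
    rw [Finset.mul_sum]
    refine Finset.sum_congr rfl fun j _ => ?_
    rw [pow_add, Fin.removeNth_apply]
    ring
  rw [e0]
  refine Finset.sum_involution (fun ij _ => (ij.1.succAbove ij.2, ij.2.predAbove ij.1)) ?_ ?_ ?_ ?_
  · rintro ⟨i, j⟩ -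
    have e1 : j.removeNth (i.removeNth z) = (j.predAbove i).removeNth ((i.succAbove j).removeNth z) :=
      Fin.removeNth_removeNth_eq_swap z j i
    have e2 : (-1 : ℂ) ^ (((i.succAbove j : Fin (q + 2)) : ℕ) + ((j.predAbove i : Fin (q + 1)) : ℕ))
        = - (-1 : ℂ) ^ ((i : ℕ) + (j : ℕ)) := Fin.neg_one_pow_succAbove_add_predAbove (R := ℂ) i j
    have e3 : (i.succAbove j).succAbove (j.predAbove i) = i := Fin.succAbove_succAbove_predAbove i j
    simp only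
    rw [← e1, e2, e3]
    ring
  · rintro ⟨i, j⟩ - _ h
    have h1 := congrArg Prod.fst h
    exact Fin.succAbove_ne i j h1
  · intro _ _
    exact Finset.mem_univ _
  · rintro ⟨i, j⟩ -
    simp only [Prod.mk.injEq]
    exact ⟨Fin.succAbove_succAbove_predAbove i j, Fin.predAbove_predAbove_succAbove i j⟩

lemma x2_L_wd {q : ℕ} {U : Set ℂ} (hU : IsOpen U) (a : ℂ → ℂ) {b : ℂ → ℂ} (hb : DifferentiableOn ℂ b U)
    {F : (Fin q → ℂ) → ℂ} (hF : DifferentiableOn ℂ F (PU q U)) {z : Fin (q + 1) → ℂ} (hz : z ∈ PU (q + 1) U) :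
    x2_L a (q + 1) (wd b q F) z =
      wd (fun t => a t * deriv b t - b t * deriv a t) q F z + wd b q (x2_L a q F) z := by
  have hG : ∀ i : Fin (q + 1), DifferentiableOn ℂ (fun z : Fin (q + 1) → ℂ => b (z i) * F (i.removeNth z))
      (PU (q + 1) U) := by
    intro i
    refine DifferentiableOn.mul ?_ ?_
    · exact hb.comp (f := fun z : Fin (q + 1) → ℂ => z i) (differentiable_apply i).differentiableOn fun z hz => hz i
    · refine hF.comp (f := fun z : Fin (q + 1) → ℂ => i.removeNth z) ?_ fun z hz => e4_removeNth_mem hz i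
      have hd : Differentiable ℂ fun z : Fin (q + 1) → ℂ => i.removeNth z := by
        rw [differentiable_pi]
        intro j
        exact differentiable_apply (i.succAbove j)
      exact hd.differentiableOn
  have e1 : ∀ j, lib_pd j (wd b q F) z =
      ∑ i : Fin (q + 1), (-1 : ℂ) ^ (i : ℕ) * lib_pd j (fun z => b (z i) * F (i.removeNth z)) z := by
    intro j
    have e0 : wd b q F = fun z => ∑ i : Fin (q + 1), (-1 : ℂ) ^ (i : ℕ) * (b (z i) * F (i.removeNth z)) := by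
      funext x
      unfold wd
      refine Finset.sum_congr rfl fun i _ => ?_
      ring
    rw [e0, lib_pd_sum j Finset.univ (fun (i : Fin (q + 1)) z => (-1 : ℂ) ^ (i : ℕ) * (b (z i) * F (i.removeNth z))) hU
      (fun i _ => (hG i).const_mul _) hz]
    refine Finset.sum_congr rfl fun i _ => ?_
    rw [lib_pd_const_mul]
  have e2 : ∀ i : Fin (q + 1), lib_pd i (fun z => b (z i) * F (i.removeNth z)) z =
      deriv b (z i) * F (i.removeNth z) := by
    intro i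
    unfold lib_pd
    simp only [Function.update_self, e4_removeNth_update_self]
    rw [deriv_mul_const_field]
  have e3 : ∀ (i : Fin (q + 1)) (k : Fin q), lib_pd (i.succAbove k) (fun z => b (z i) * F (i.removeNth z)) z =
      b (z i) * lib_pd k F (i.removeNth z) := by
    intro i k
    unfold lib_pd
    simp only [Function.update_of_ne (Fin.succAbove_ne i k).symm, e4_removeNth_update]
    rw [deriv_const_mul_field]
    rfl
  have e4 : ∀ j, a (z j) * lib_pd j (wd b q F) z - deriv a (z j) * wd b q F z =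
      ∑ i : Fin (q + 1), (-1 : ℂ) ^ (i : ℕ) * (a (z j) * lib_pd j (fun z => b (z i) * F (i.removeNth z)) z -
        deriv a (z j) * (b (z i) * F (i.removeNth z))) := by
    intro j
    rw [e1]
    unfold wd
    rw [Finset.mul_sum, Finset.mul_sum, ← Finset.sum_sub_distrib]
    refine Finset.sum_congr rfl fun i _ => ?_
    ring
  have e5 : x2_L a (q + 1) (wd b q F) z = ∑ j, ∑ i : Fin (q + 1), (-1 : ℂ) ^ (i : ℕ) *
      (a (z j) * lib_pd j (fun z => b (z i) * F (i.removeNth z)) z - deriv a (z j) * (b (z i) * F (i.removeNth z))) := by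
    unfold x2_L
    exact Finset.sum_congr rfl fun j _ => e4 j
  rw [e5, Finset.sum_comm]
  have e6 : ∀ i : Fin (q + 1), (∑ j, (-1 : ℂ) ^ (i : ℕ) *
      (a (z j) * lib_pd j (fun z => b (z i) * F (i.removeNth z)) z - deriv a (z j) * (b (z i) * F (i.removeNth z)))) =
      (-1 : ℂ) ^ (i : ℕ) * (a (z i) * deriv b (z i) - b (z i) * deriv a (z i)) * F (i.removeNth z) +
      (-1 : ℂ) ^ (i : ℕ) * b (z i) * x2_L a q F (i.removeNth z) := by
    intro i
    rw [← Finset.mul_sum, Fin.sum_univ_succAbove _ i, e2]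
    have e7 : (∑ k : Fin q, (a (z (i.succAbove k)) * lib_pd (i.succAbove k) (fun z => b (z i) * F (i.removeNth z)) z -
        deriv a (z (i.succAbove k)) * (b (z i) * F (i.removeNth z)))) = b (z i) * x2_L a q F (i.removeNth z) := by
      unfold x2_L
      rw [Finset.mul_sum]
      refine Finset.sum_congr rfl fun k _ => ?_
      rw [e3, Fin.removeNth_apply]
      ring
    rw [e7]
    ring
  rw [Finset.sum_congr rfl fun i _ => e6 i, Finset.sum_add_distrib]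
  rfl

end

end

end Pool.Agent.Helper67.DO
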