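import Pool.Agent.Helper26.DO.X2A
import Pool.Agent.Helper26.DO.X2B

/-!
MP_d07457_gt, module X2: `Π`, `u_3 ∧`, `c_3`, extension by zero.
-/

set_option autoImplicit false

namespace Pool.Agent.Helper67.DO

open scoped BigOperators Real
open Set Filter Topology

noncomputable section

/-- constant for `u_3 ∧` -/
def x2_C (h : ℝ) (n : ℕ) : ℝ := ((n : ℝ) + 3) * (n + 2) * (n + 1) * (1 + h) ^ 3

section
variable {b0 e0 w h y : ℝ} {V : Set ℂ}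

lemma x2_wd_sc (h4 : ST_E4) (hw : 0 ≤ w) (hh : 0 < h) (he : e0 ≤ b0 + 1) (hy1 : b0 < y) (hy2 : y < e0)
    (hV : IsOpen V) (hP : Per V) (nV : ∀ z ∈ V, ¬ InR b0 e0 z) (p : ℕ) {q : ℕ} {F : (Fin q → ℂ) → ℂ}
    (hF : BO q (V ∪ RR b0 e0 w h) F) :
    BO (q + 1) (V ∪ RR b0 e0 w h) (wd (sc b0 e0 y p) q F) ∧ ∀ M : ℝ,
      (∀ z ∈ PU q (V ∪ RR b0 e0 w h), ‖F z‖ ≤ M) → ∀ z ∈ PU (q + 1) (V ∪ RR b0 e0 w h),
        ‖wd (sc b0 e0 y p) q F z‖ ≤ (q + 1) * (1 + h) ^ p * M :=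
  h4 q _ (sc b0 e0 y p) ((1 + h) ^ p) (hV.union (x2_RR_open _ _ _ _)) (x2_Per_union hP (x2_RR_per _ _ _ _))
    (x2_sc_diff hw he p hV nV) (fun z _ => x2_sc_per he y p z)
    (fun _ hz => x2_sc_bound hw hh he hy1 hy2 p nV hz) F hF

lemma x2_uw (h4 : ST_E4) (hw : 0 ≤ w) (hh : 0 < h) (he : e0 ≤ b0 + 1) (hy1 : b0 < y) (hy2 : y < e0)
    (hV : IsOpen V) (hP : Per V) (nV : ∀ z ∈ V, ¬ InR b0 e0 z) {n : ℕ} {G : (Fin n → ℂ) → ℂ} (hG : BO n V G) :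
    BO (n + 3) (V ∪ RR b0 e0 w h) (uw b0 e0 y n G) ∧ ∀ B : ℝ, 0 ≤ B → (∀ z ∈ PU n V, ‖G z‖ ≤ B) →
      ∀ z ∈ PU (n + 3) (V ∪ RR b0 e0 w h), ‖uw b0 e0 y n G z‖ ≤ x2_C h n * B := by
  have hH : BO n (V ∪ RR b0 e0 w h) (ext0 b0 e0 G) := x2_ext_BO hw hV hP nV hG
  have k2 := x2_wd_sc h4 hw hh he hy1 hy2 hV hP nV 2 hH
  have k1 := x2_wd_sc h4 hw hh he hy1 hy2 hV hP nV 1 k2.1
  have k0 := x2_wd_sc h4 hw hh he hy1 hy2 hV hP nV 0 k1.1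
  refine ⟨k0.1, fun B hB0 hB z hz => ?_⟩
  have b2 := k2.2 B (fun x hx => x2_ext_bound hw nV hB0 hB hx)
  have b1 := k1.2 _ b2
  have b0' := k0.2 _ b1 z hz
  refine b0'.trans (le_of_eq ?_)
  unfold x2_C
  push_cast
  ring

lemma x2_bound0 (hw : 0 ≤ w) {n : ℕ} (hn : ¬ (PU n V).Nonempty) (G : (Fin n → ℂ) → ℂ) {z : Fin (n + 3) → ℂ}
    (hz : z ∈ PU (n + 3) (V ∪ RR b0 e0 w h)) : uw b0 e0 y n G z = 0 := by
  have h0 : ∀ x ∈ PU n (V ∪ RR b0 e0 w h), ext0 b0 e0 G x = (fun _ => (0 : ℂ)) x := by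
    intro x hx
    unfold ext0
    rw [if_neg]
    intro hc
    exact hn ⟨x, x2_mem_V hw hx hc⟩
  unfold uw
  rw [x2_wd_congr (fun _ _ => rfl) (fun x hx => x2_wd_congr (a' := sc b0 e0 y 1) (fun _ _ => rfl)
    (fun u hu => x2_wd_congr (a' := sc b0 e0 y 2) (fun _ _ => rfl) h0 hu) hx) hz]
  have e2 : wd (sc b0 e0 y 2) n (fun _ => 0) = fun _ => 0 := funext fun x => x2_wd_zero _ _ _
  have e1 : wd (sc b0 e0 y 1) (n + 1) (fun _ => 0) = fun _ => 0 := funext fun x => x2_wd_zero _ _ _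
  rw [e2, e1, x2_wd_zero]

/-! ### chain rule for `uw` -/

lemma x2_L_ext (hw : 0 ≤ w) (he : e0 ≤ b0 + 1) (hV : IsOpen V) (nV : ∀ z ∈ V, ¬ InR b0 e0 z) (p : ℕ) {q : ℕ}
    (G : (Fin q → ℂ) → ℂ) {z : Fin q → ℂ} (hz : z ∈ PU q (V ∪ RR b0 e0 w h)) :
    x2_L (sc b0 e0 y p) q (ext0 b0 e0 G) z = 0 := by
  unfold x2_L
  refine Finset.sum_eq_zero fun j _ => ?_
  rw [(x2_sc_hasDeriv hw he p hV nV (hz j)).deriv]
  by_cases hc : ∀ j, ¬ InR b0 e0 (z j)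
  · rw [x2_sc_zero y _ (hc j), x2_sc_zero y _ (hc j), mul_zero, zero_mul, zero_mul, sub_zero]
  · push Not at hc
    obtain ⟨k, hk⟩ := hc
    have h1 : lib_pd j (ext0 b0 e0 G) z = 0 := by
      unfold lib_pd
      have h2 : Tendsto (fun t : ℂ => Function.update z j t) (𝓝 (z j)) (𝓝 z) := by
        have h3 : ContinuousAt (fun t : ℂ => Function.update z j t) (z j) :=
          (continuous_const.update j continuous_id).continuousAt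
        have h5 : Tendsto (fun t : ℂ => Function.update z j t) (𝓝 (z j)) (𝓝 (Function.update z j (z j))) := h3
        rwa [Function.update_eq_self] at h5
      have h4 : (fun t : ℂ => ext0 b0 e0 G (Function.update z j t)) =ᶠ[𝓝 (z j)] fun _ => 0 :=
        h2.eventually (x2_ext_near G k hk)
      rw [h4.deriv_eq, deriv_const]
    rw [h1, x2_ext_R G k hk, mul_zero, mul_zero, sub_zero]

lemma x2_factC (hw : 0 ≤ w) (he : e0 ≤ b0 + 1) (hV : IsOpen V) (hP : Per V) (nV : ∀ z ∈ V, ¬ InR b0 e0 z) {m : ℕ}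
    {G : (Fin m → ℂ) → ℂ} (hG : BO m V G) {z : Fin (m + 1) → ℂ} (hz : z ∈ PU (m + 1) (V ∪ RR b0 e0 w h)) :
    x2_L (sc b0 e0 y 1) (m + 1) (wd (sc b0 e0 y 2) m (ext0 b0 e0 G)) z = wd (sc b0 e0 y 2) m (ext0 b0 e0 G) z := by
  have hU : IsOpen (V ∪ RR b0 e0 w h) := hV.union (x2_RR_open _ _ _ _)
  have hH : BO m (V ∪ RR b0 e0 w h) (ext0 b0 e0 G) := x2_ext_BO hw hV hP nV hG
  rw [x2_L_wd hU _ (x2_sc_diff hw he 2 hV nV) hH.hol hz]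
  rw [x2_wd_congr (U := V ∪ RR b0 e0 w h) (a := sc b0 e0 y 2) (a' := sc b0 e0 y 2) (G := fun _ => 0)
    (fun _ _ => rfl) (fun x hx => x2_L_ext hw he hV nV 1 G hx) hz, x2_wd_zero, add_zero]
  refine x2_wd_congr (U := V ∪ RR b0 e0 w h) ?_ (fun _ _ => rfl) hz
  intro t ht
  have d1 := (x2_sc_hasDeriv (y := y) hw he 1 hV nV ht).deriv
  have d2 := (x2_sc_hasDeriv (y := y) hw he 2 hV nV ht).deriv
  have m1 := x2_sc_mul he y 1 1 t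
  have m2 := x2_sc_mul he y 2 0 t
  simp only [Nat.sub_self, Nat.cast_one, Nat.cast_ofNat, Nat.add_zero, Nat.reduceAdd, Nat.reduceSub] at d1 d2 m1 m2
  rw [d1, d2]
  linear_combination 2 * m1 - m2

lemma x2_factE (h4 : ST_E4) (hw : 0 ≤ w) (hh : 0 < h) (he : e0 ≤ b0 + 1) (hy1 : b0 < y) (hy2 : y < e0)
    (hV : IsOpen V) (hP : Per V) (nV : ∀ z ∈ V, ¬ InR b0 e0 z) {m : ℕ}
    {G : (Fin m → ℂ) → ℂ} (hG : BO m V G) {z : Fin (m + 2) → ℂ} (hz : z ∈ PU (m + 2) (V ∪ RR b0 e0 w h)) :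
    x2_L (sc b0 e0 y 0) (m + 2) (wd (sc b0 e0 y 1) (m + 1) (wd (sc b0 e0 y 2) m (ext0 b0 e0 G))) z =
      wd (sc b0 e0 y 0) (m + 1) (wd (sc b0 e0 y 2) m (ext0 b0 e0 G)) z := by
  have hU : IsOpen (V ∪ RR b0 e0 w h) := hV.union (x2_RR_open _ _ _ _)
  have hH : BO m (V ∪ RR b0 e0 w h) (ext0 b0 e0 G) := x2_ext_BO hw hV hP nV hG
  have hK2 := (x2_wd_sc h4 hw hh he hy1 hy2 hV hP nV 2 hH).1
  have hd0 : ∀ t ∈ V ∪ RR b0 e0 w h, deriv (sc b0 e0 y 0) t = 0 := by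
    intro t ht
    rw [(x2_sc_hasDeriv (y := y) hw he 0 hV nV ht).deriv, Nat.cast_zero, zero_mul]
  rw [x2_L_wd hU _ (x2_sc_diff hw he 1 hV nV) hK2.hol hz]
  have e1 : ∀ x ∈ PU (m + 1) (V ∪ RR b0 e0 w h),
      x2_L (sc b0 e0 y 0) (m + 1) (wd (sc b0 e0 y 2) m (ext0 b0 e0 G)) x =
        (fun x => 2 * wd (sc b0 e0 y 1) m (ext0 b0 e0 G) x + 0 * 0) x := by
    intro x hx
    rw [x2_L_wd hU _ (x2_sc_diff hw he 2 hV nV) hH.hol hx]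
    rw [x2_wd_congr (U := V ∪ RR b0 e0 w h) (a := sc b0 e0 y 2) (a' := sc b0 e0 y 2) (G := fun _ => 0)
      (fun _ _ => rfl) (fun x hx => x2_L_ext hw he hV nV 0 G hx) hx, x2_wd_zero, add_zero]
    simp only [mul_zero, add_zero]
    rw [← x2_wd_smul]
    refine x2_wd_congr (U := V ∪ RR b0 e0 w h) ?_ (fun _ _ => rfl) hx
    intro t ht
    have d2 := (x2_sc_hasDeriv (y := y) hw he 2 hV nV ht).deriv
    have m1 := x2_sc_mul he y 0 1 t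
    simp only [Nat.cast_ofNat, Nat.zero_add, Nat.reduceSub] at d2 m1
    rw [hd0 t ht, d2]
    linear_combination 2 * m1
  have e2 : wd (sc b0 e0 y 1) (m + 1) (x2_L (sc b0 e0 y 0) (m + 1) (wd (sc b0 e0 y 2) m (ext0 b0 e0 G))) z = 0 := by
    rw [x2_wd_congr (U := V ∪ RR b0 e0 w h) (a := sc b0 e0 y 1) (a' := sc b0 e0 y 1) (fun _ _ => rfl) e1 hz]
    have e3 := x2_wd_lin (sc b0 e0 y 1) (m + 1) 2 0 (wd (sc b0 e0 y 1) m (ext0 b0 e0 G)) (fun _ => 0) z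
    rw [e3, x2_wd_wd]
    ring
  rw [e2, add_zero]
  refine x2_wd_congr (U := V ∪ RR b0 e0 w h) ?_ (fun _ _ => rfl) hz
  intro t ht
  have d1 := (x2_sc_hasDeriv (y := y) hw he 1 hV nV ht).deriv
  have m1 := x2_sc_mul he y 0 0 t
  simp only [Nat.sub_self, Nat.cast_one, Nat.add_zero] at d1 m1
  rw [hd0 t ht, d1]
  linear_combination m1

/-- Cartan formula -/
lemma x2_cartan (h3 : ST_E3) (hw : 0 ≤ w) (he : e0 ≤ b0 + 1) (hV : IsOpen V) (hP : Per V)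
    (nV : ∀ z ∈ V, ¬ InR b0 e0 z) (p : ℕ) {q : ℕ} {F : (Fin (q + 1) → ℂ) → ℂ} (hF : BO (q + 1) (V ∪ RR b0 e0 w h) F)
    {z : Fin (q + 1) → ℂ} (hz : z ∈ PU (q + 1) (V ∪ RR b0 e0 w h)) :
    dd (q + 1) (wd (sc b0 e0 y p) (q + 1) F) z =
      x2_L (sc b0 e0 y p) (q + 1) F z - wd (sc b0 e0 y p) q (dd q F) z := by
  have := h3 q _ (sc b0 e0 y p) (hV.union (x2_RR_open b0 e0 w h)) (x2_Per_union hP (x2_RR_per _ _ _ _))
    (x2_sc_diff hw he p hV nV) F hF z hz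
  rw [eq_sub_iff_add_eq, this]
  rfl

/-- (8) -/
lemma x2_uw_dd (h3 : ST_E3) (h4 : ST_E4) (hw : 0 ≤ w) (hh : 0 < h) (he : e0 ≤ b0 + 1) (hy1 : b0 < y) (hy2 : y < e0)
    (hV : IsOpen V) (hP : Per V) (nV : ∀ z ∈ V, ¬ InR b0 e0 z) {n : ℕ}
    {G : (Fin (n + 1) → ℂ) → ℂ} (hG : BO (n + 1) V G) {z : Fin (n + 3) → ℂ}
    (hz : z ∈ PU (n + 3) (V ∪ RR b0 e0 w h)) :
    dd (n + 3) (uw b0 e0 y (n + 1) G) z = - uw b0 e0 y n (dd n G) z := by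
  have hH : BO (n + 1) (V ∪ RR b0 e0 w h) (ext0 b0 e0 G) := x2_ext_BO hw hV hP nV hG
  have hK2 := (x2_wd_sc h4 hw hh he hy1 hy2 hV hP nV 2 hH).1
  have hK1 := (x2_wd_sc h4 hw hh he hy1 hy2 hV hP nV 1 hK2).1
  have fB : ∀ x ∈ PU (n + 1) (V ∪ RR b0 e0 w h), dd (n + 1) (wd (sc b0 e0 y 2) (n + 1) (ext0 b0 e0 G)) x =
      - wd (sc b0 e0 y 2) n (ext0 b0 e0 (dd n G)) x := by
    intro x hx
    rw [x2_cartan h3 hw he hV hP nV 2 hH hx, x2_L_ext hw he hV nV 2 G hx, zero_sub]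
    rw [x2_wd_congr (U := V ∪ RR b0 e0 w h) (a := sc b0 e0 y 2) (a' := sc b0 e0 y 2) (fun _ _ => rfl)
      (fun u hu => x2_ext_dd hw hV nV G hu) hx]
  have fD : ∀ x ∈ PU (n + 2) (V ∪ RR b0 e0 w h),
      dd (n + 2) (wd (sc b0 e0 y 1) (n + 2) (wd (sc b0 e0 y 2) (n + 1) (ext0 b0 e0 G))) x =
      (fun x => 1 * wd (sc b0 e0 y 2) (n + 1) (ext0 b0 e0 G) x +
        1 * wd (sc b0 e0 y 1) (n + 1) (wd (sc b0 e0 y 2) n (ext0 b0 e0 (dd n G))) x) x := by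
    intro x hx
    rw [x2_cartan h3 hw he hV hP nV 1 hK2 hx, x2_factC hw he hV hP nV hG hx]
    have e1 : ∀ u ∈ PU (n + 1) (V ∪ RR b0 e0 w h), dd (n + 1) (wd (sc b0 e0 y 2) (n + 1) (ext0 b0 e0 G)) u =
        (fun u => (-1) * wd (sc b0 e0 y 2) n (ext0 b0 e0 (dd n G)) u + 0 * 0) u := by
      intro u hu
      rw [fB u hu]
      ring
    rw [x2_wd_congr (U := V ∪ RR b0 e0 w h) (a := sc b0 e0 y 1) (a' := sc b0 e0 y 1) (fun _ _ => rfl) e1 hx]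
    have e3 := x2_wd_lin (sc b0 e0 y 1) (n + 1) (-1) 0 (wd (sc b0 e0 y 2) n (ext0 b0 e0 (dd n G))) (fun _ => 0) x
    rw [e3]
    ring
  show dd (n + 3) (wd (sc b0 e0 y 0) (n + 3) (wd (sc b0 e0 y 1) (n + 2)
    (wd (sc b0 e0 y 2) (n + 1) (ext0 b0 e0 G)))) z = _
  rw [x2_cartan h3 hw he hV hP nV 0 hK1 hz, x2_factE h4 hw hh he hy1 hy2 hV hP nV hG hz]
  rw [x2_wd_congr (U := V ∪ RR b0 e0 w h) (a := sc b0 e0 y 0) (a' := sc b0 e0 y 0) (fun _ _ => rfl) fD hz,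
    x2_wd_lin]
  unfold uw
  ring

/-- (9) -/
lemma x2_uw_dd0 (h3 : ST_E3) (h4 : ST_E4) (hw : 0 ≤ w) (hh : 0 < h) (he : e0 ≤ b0 + 1) (hy1 : b0 < y) (hy2 : y < e0)
    (hV : IsOpen V) (hP : Per V) (nV : ∀ z ∈ V, ¬ InR b0 e0 z)
    {G : (Fin 0 → ℂ) → ℂ} (hG : BO 0 V G) {z : Fin 2 → ℂ} (hz : z ∈ PU 2 (V ∪ RR b0 e0 w h)) :
    dd 2 (uw b0 e0 y 0 G) z = 0 := by
  have hH : BO 0 (V ∪ RR b0 e0 w h) (ext0 b0 e0 G) := x2_ext_BO hw hV hP nV hG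
  have hK2 := (x2_wd_sc h4 hw hh he hy1 hy2 hV hP nV 2 hH).1
  have hK1 := (x2_wd_sc h4 hw hh he hy1 hy2 hV hP nV 1 hK2).1
  have fB : dd 0 (wd (sc b0 e0 y 2) 0 (ext0 b0 e0 G)) = fun _ => 0 := by
    funext x
    unfold dd
    rw [Finset.univ_eq_empty, Finset.sum_empty]
  have fD : ∀ x ∈ PU 1 (V ∪ RR b0 e0 w h), dd 1 (wd (sc b0 e0 y 1) 1 (wd (sc b0 e0 y 2) 0 (ext0 b0 e0 G))) x =
      wd (sc b0 e0 y 2) 0 (ext0 b0 e0 G) x := by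
    intro x hx
    have e1 := x2_cartan (y := y) h3 hw he hV hP nV 1 hK2 hx
    have e2 := x2_factC (y := y) hw he hV hP nV hG hx
    rw [fB, x2_wd_zero, sub_zero] at e1
    exact e1.trans e2
  have e1 := x2_cartan (y := y) h3 hw he hV hP nV 0 hK1 hz
  have e2 := x2_factE h4 hw hh he hy1 hy2 hV hP nV hG hz
  have e3 := x2_wd_congr (U := V ∪ RR b0 e0 w h) (a := sc b0 e0 y 0) (a' := sc b0 e0 y 0) (fun _ _ => rfl) fD hz
  have e4 : dd 2 (uw b0 e0 y 0 G) z = _ := e1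
  rw [e4]
  have e5 : wd (sc b0 e0 y 0) 1 (dd 1 (wd (sc b0 e0 y 1) 1 (wd (sc b0 e0 y 2) 0 (ext0 b0 e0 G)))) z =
    wd (sc b0 e0 y 0) 1 (wd (sc b0 e0 y 2) 0 (ext0 b0 e0 G)) z := e3
  have e6 : x2_L (sc b0 e0 y 0) 2 (wd (sc b0 e0 y 1) 1 (wd (sc b0 e0 y 2) 0 (ext0 b0 e0 G))) z =
    wd (sc b0 e0 y 0) 1 (wd (sc b0 e0 y 2) 0 (ext0 b0 e0 G)) z := e2
  exact (congrArg₂ (fun a b : ℂ => a - b) e6 e5).trans (sub_self _)

/-! ### comparison of the two rectangles -/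

lemma x2_inR_iff {e1 : ℝ} (hw : 0 ≤ w) (hee : e1 ≤ e0) (nV : ∀ z ∈ V, ¬ InR b0 e0 z) {z : ℂ}
    (hz : z ∈ V ∪ RR b0 e1 w h) : InR b0 e0 z ↔ InR b0 e1 z := by
  constructor
  · intro hi
    rcases hz with hz | hz
    · exact absurd hi (nV z hz)
    · exact x2_RR_inR hw hz
  · rintro ⟨k, h1, h2⟩
    exact ⟨k, h1, by linarith⟩

lemma x2_ext_eq {e1 : ℝ} (hw : 0 ≤ w) (hee : e1 ≤ e0) (nV : ∀ z ∈ V, ¬ InR b0 e0 z) {q : ℕ}
    (F : (Fin q → ℂ) → ℂ) {z : Fin q → ℂ} (hz : z ∈ PU q (V ∪ RR b0 e1 w h)) : ext0 b0 e0 F z = ext0 b0 e1 F z := by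
  have e : (∀ j, ¬ InR b0 e0 (z j)) ↔ ∀ j, ¬ InR b0 e1 (z j) := by
    constructor
    · intro h j hj
      exact h j ((x2_inR_iff hw hee nV (hz j)).2 hj)
    · intro h j hj
      exact h j ((x2_inR_iff hw hee nV (hz j)).1 hj)
  unfold ext0
  by_cases hc : ∀ j, ¬ InR b0 e0 (z j)
  · rw [if_pos hc, if_pos (e.1 hc)]
  · rw [if_neg hc, if_neg fun h => hc (e.2 h)]

lemma x2_sc_eq2 {e1 : ℝ} (hw : 0 ≤ w) (hee : e1 ≤ e0) (he : e0 ≤ b0 + 1) (nV : ∀ z ∈ V, ¬ InR b0 e0 z) (p : ℕ) :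
    ∀ z ∈ V ∪ RR b0 e1 w h, sc b0 e0 y p z = sc b0 e1 y p z := by
  intro z hz
  by_cases hi : InR b0 e1 z
  · obtain ⟨k, h1, h2⟩ := hi
    rw [x2_sc_eq he y p h1 (by linarith), x2_sc_eq (by linarith) y p h1 h2]
  · rw [x2_sc_zero y p hi, x2_sc_zero y p]
    intro h'
    exact hi ((x2_inR_iff hw hee nV hz).1 h')

lemma x2_uw_eq {e1 : ℝ} (hw : 0 ≤ w) (hee : e1 ≤ e0) (he : e0 ≤ b0 + 1) (nV : ∀ z ∈ V, ¬ InR b0 e0 z) {n : ℕ}
    (G : (Fin n → ℂ) → ℂ) {z : Fin (n + 3) → ℂ} (hz : z ∈ PU (n + 3) (V ∪ RR b0 e1 w h)) :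
    uw b0 e0 y n G z = uw b0 e1 y n G z := by
  unfold uw
  exact x2_wd_congr (x2_sc_eq2 hw hee he nV 0) (fun x hx => x2_wd_congr (x2_sc_eq2 hw hee he nV 1)
    (fun u hu => x2_wd_congr (x2_sc_eq2 hw hee he nV 2) (fun t ht => x2_ext_eq hw hee nV G ht) hu) hx) hz

/-- `uw` depends on the values in `V` only -/
lemma x2_uw_congr (hw : 0 ≤ w) (nV : ∀ z ∈ V, ¬ InR b0 e0 z) {n : ℕ}
    {G G' : (Fin n → ℂ) → ℂ} (hG : ∀ x ∈ PU n V, G x = G' x) {z : Fin (n + 3) → ℂ}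
    (hz : z ∈ PU (n + 3) (V ∪ RR b0 e0 w h)) : uw b0 e0 y n G z = uw b0 e0 y n G' z := by
  unfold uw
  refine x2_wd_congr (fun _ _ => rfl) (fun x hx => x2_wd_congr (fun _ _ => rfl)
    (fun u hu => x2_wd_congr (fun _ _ => rfl) (fun t ht => ?_) hu) hx) hz
  by_cases hc : ∀ j, ¬ InR b0 e0 (t j)
  · have hV := x2_mem_V hw ht hc
    rw [x2_ext_V nV G hV, x2_ext_V nV G' hV, hG t hV]
  · push Not at hc
    obtain ⟨j, hj⟩ := hc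
    rw [x2_ext_R G j hj, x2_ext_R G' j hj]

lemma x2_uw_neg {n : ℕ} (G : (Fin n → ℂ) → ℂ) (z : Fin (n + 3) → ℂ) :
    uw b0 e0 y n (fun x => - G x) z = - uw b0 e0 y n G z := by
  have e0' : ext0 b0 e0 (fun x => - G x) = fun x => (-1) * ext0 b0 e0 G x + 0 * 0 := by
    funext x
    unfold ext0
    by_cases hc : ∀ j, ¬ InR b0 e0 (x j)
    · rw [if_pos hc, if_pos hc]
      ring
    · rw [if_neg hc, if_neg hc]
      ring
  have key : ∀ (a : ℂ → ℂ) (q : ℕ) (F : (Fin q → ℂ) → ℂ),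
      wd a q (fun x => (-1) * F x + 0 * 0) = fun x => (-1) * wd a q F x + 0 * 0 := by
    intro a q F
    funext x
    rw [x2_wd_lin a q (-1) 0 F (fun _ => 0) x]
    ring
  unfold uw
  rw [e0', key, key, key]
  ring

end

theorem st_X2 (h3 : ST_E3) (h4 : ST_E4) : ST_X2 := by
  intro b0 y e1 e0 w h hb hye hee he hw hh V hV hP nV
  have hy1 : b0 < y := by linarith
  have hy2 : y < e0 := by linarith
  have hU1 : IsOpen (V ∪ RR b0 e1 w h) := hV.union (x2_RR_open _ _ _ _)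
  have hP1 : Per (V ∪ RR b0 e1 w h) := x2_Per_union hP (x2_RR_per _ _ _ _)
  have hU0 : IsOpen (V ∪ RR b0 e0 w h) := hV.union (x2_RR_open _ _ _ _)
  have hVU : V ⊆ V ∪ RR b0 e1 w h := subset_union_left
  -- the radius
  obtain ⟨r, hr, hball⟩ : ∃ r : ℝ, 0 < r ∧ Metric.closedBall (y : ℂ) r ⊆ V ∪ RR b0 e1 w h := by
    have hyR : (y : ℂ) ∈ RR b0 e1 w h := by
      refine ⟨?_, 0, ?_, ?_⟩
      · rw [Complex.ofReal_im, abs_zero]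
        exact hh
      · rw [Complex.ofReal_re, Int.cast_zero, sub_zero]
        exact hb
      · rw [Complex.ofReal_re, Int.cast_zero, sub_zero]
        exact hye
    obtain ⟨ε, hε, hε'⟩ := Metric.isOpen_iff.1 (x2_RR_open b0 e1 w h) (y : ℂ) hyR
    exact ⟨ε / 2, by positivity, (Metric.closedBall_subset_ball (by linarith)).trans
      (hε'.trans subset_union_right)⟩
  have hyU : (y : ℂ) ∈ V ∪ RR b0 e1 w h := hball (Metric.mem_closedBall_self hr.le)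
  have hB0 : ∀ (q : ℕ) (F : (Fin q → ℂ) → ℂ) (B : ℝ), (∀ z ∈ PU q (V ∪ RR b0 e1 w h), ‖F z‖ ≤ B) → 0 ≤ B :=
    fun q F B hB => (norm_nonneg _).trans (hB (fun _ => (y : ℂ)) fun _ => hyU)
  have hc3 : ∀ n F, BO (n + 3) (V ∪ RR b0 e1 w h) F → BO n V (c3 y n F) := fun n F hF =>
    (x2_BO hU1 hP1 hF hr hball).mono hVU
  have hc3b : ∀ n F, BO (n + 3) (V ∪ RR b0 e1 w h) F → ∀ B : ℝ,
      (∀ z ∈ PU (n + 3) (V ∪ RR b0 e1 w h), ‖F z‖ ≤ B) → ∀ z ∈ PU n V, ‖c3 y n F z‖ ≤ 1 / r ^ 3 * B :=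
    fun n F hF B hB z hz => x2_bound hU1 hF.hol hB hr hball (PU_mono hVU hz)
  have hc3d : ∀ n F, BO (n + 4) (V ∪ RR b0 e1 w h) F → ∀ z ∈ PU n V,
      c3 y n (dd (n + 3) F) z = - dd n (c3 y (n + 1) F) z := fun n F hF z hz =>
    x2_dd hU1 hF hyU (PU_mono hVU hz)
  have hext : ∀ q F, BO q V F → BO q (V ∪ RR b0 e0 w h) (ext0 b0 e0 F) := fun q F hF =>
    x2_ext_BO hw hV hP nV hF
  have huw : ∀ n G, BO n V G → BO (n + 3) (V ∪ RR b0 e0 w h) (uw b0 e0 y n G) := fun n G hG =>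
    (x2_uw h4 hw hh he hy1 hy2 hV hP nV hG).1
  have hCu : ∀ n, 0 ≤ x2_C h n := fun n => by unfold x2_C; positivity
  have hPi : ∀ q F, BO q (V ∪ RR b0 e1 w h) F → BO q (V ∪ RR b0 e0 w h) (PiE b0 e0 y q F) := by
    intro q F hF
    match q, F, hF with
    | 0, F, hF => exact hext 0 F (hF.mono hVU)
    | 1, F, hF => exact hext 1 F (hF.mono hVU)
    | 2, F, hF => exact hext 2 F (hF.mono hVU)
    | (n + 3), F, hF => exact (hext (n + 3) F (hF.mono hVU)).add (huw n _ (hc3 n F hF))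
  refine ⟨fun q F hF => ⟨hPi q F hF, ?_⟩, ?_, ?_, hext, ?_, huw, ?_, ?_, ?_, hc3, ?_, hc3d⟩
  · intro z hz
    match q, F, hF, z, hz with
    | 0, F, hF, z, hz => exact x2_ext_eq hw hee nV F hz
    | 1, F, hF, z, hz => exact x2_ext_eq hw hee nV F hz
    | 2, F, hF, z, hz => exact x2_ext_eq hw hee nV F hz
    | (n + 3), F, hF, z, hz =>
      show ext0 b0 e0 F z + uw b0 e0 y n (c3 y n F) z = ext0 b0 e1 F z + uw b0 e1 y n (c3 y n F) z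
      rw [x2_ext_eq hw hee nV F hz, x2_uw_eq hw hee he nV _ hz]
  · refine ⟨fun q => 1 + x2_C h (q - 3) * (1 / r ^ 3), fun q F hF B hB z hz => ?_⟩
    have hB' := hB0 q F B hB
    have hq : 0 ≤ x2_C h (q - 3) * (1 / r ^ 3) * B := mul_nonneg (mul_nonneg (hCu _) (by positivity)) hB'
    have hV' : ∀ z ∈ PU q V, ‖F z‖ ≤ B := fun x hx => hB x (PU_mono hVU hx)
    have hb1 : ‖ext0 b0 e0 F z‖ ≤ B := x2_ext_bound hw nV hB' hV' hz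
    show ‖PiE b0 e0 y q F z‖ ≤ (1 + x2_C h (q - 3) * (1 / r ^ 3)) * B
    have hgoal : ‖ext0 b0 e0 F z‖ ≤ (1 + x2_C h (q - 3) * (1 / r ^ 3)) * B := by
      rw [add_mul, one_mul]
      linarith
    match q, F, hF, z, hz, hB, hb1, hgoal with
    | 0, F, hF, z, hz, hB, hb1, hgoal => exact hgoal
    | 1, F, hF, z, hz, hB, hb1, hgoal => exact hgoal
    | 2, F, hF, z, hz, hB, hb1, hgoal => exact hgoal
    | (n + 3), F, hF, z, hz, hB, hb1, hgoal =>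
      have hb2 := (x2_uw h4 hw hh he hy1 hy2 hV hP nV (hc3 n F hF)).2 (1 / r ^ 3 * B)
        (mul_nonneg (by positivity) hB') (hc3b n F hF B hB) z hz
      have e1 : n + 3 - 3 = n := by omega
      rw [e1]
      show ‖ext0 b0 e0 F z + uw b0 e0 y n (c3 y n F) z‖ ≤ _
      refine (norm_add_le _ _).trans ?_
      rw [add_mul, one_mul, mul_assoc]
      exact add_le_add hb1 hb2
  · intro q F hF z hz
    have hFV := hF.mono hVU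
    match q, F, hF, z, hz, hFV with
    | 0, F, hF, z, hz, hFV => exact x2_ext_dd hw hV nV F hz
    | 1, F, hF, z, hz, hFV => exact x2_ext_dd hw hV nV F hz
    | 2, F, hF, z, hz, hFV =>
      show dd 2 (fun z => ext0 b0 e0 F z + uw b0 e0 y 0 (c3 y 0 F) z) z = ext0 b0 e0 (dd 2 F) z
      have e1 := dd_add hU0 (hext 3 F hFV).hol (huw 0 _ (hc3 0 F hF)).hol hz
      have e2 := x2_uw_dd0 h3 h4 hw hh he hy1 hy2 hV hP nV (hc3 0 F hF) hz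
      have e3 := x2_ext_dd hw hV nV F hz
      exact e1.trans (by rw [e3]; exact (congrArg (fun a => ext0 b0 e0 (dd 2 F) z + a) e2).trans (add_zero _))
    | (n + 3), F, hF, z, hz, hFV =>
      show dd (n + 3) (fun z => ext0 b0 e0 F z + uw b0 e0 y (n + 1) (c3 y (n + 1) F) z) z =
        ext0 b0 e0 (dd (n + 3) F) z + uw b0 e0 y n (c3 y n (dd (n + 3) F)) z
      have e1 := dd_add hU0 (hext (n + 4) F hFV).hol (huw (n + 1) _ (hc3 (n + 1) F hF)).hol hz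
      have e2 := x2_uw_dd h3 h4 hw hh he hy1 hy2 hV hP nV (hc3 (n + 1) F hF) hz
      have e3 := x2_ext_dd hw hV nV F hz
      have e4 : uw b0 e0 y n (c3 y n (dd (n + 3) F)) z = uw b0 e0 y n (fun x => - dd n (c3 y (n + 1) F) x) z :=
        x2_uw_congr hw nV (hc3d n F hF) hz
      rw [e1, e3, e2, e4, x2_uw_neg]
  · exact fun q F _ z hz => x2_ext_dd hw hV nV F hz
  · intro n
    by_cases hn : (PU n V).Nonempty
    · refine ⟨x2_C h n, fun G hG B hB z hz => ?_⟩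
      obtain ⟨x, hx⟩ := hn
      exact (x2_uw h4 hw hh he hy1 hy2 hV hP nV hG).2 B ((norm_nonneg _).trans (hB x hx)) hB z hz
    · refine ⟨0, fun G hG B hB z hz => ?_⟩
      rw [x2_bound0 hw hn G hz, norm_zero, zero_mul]
  · exact fun n G hG z hz => x2_uw_dd h3 h4 hw hh he hy1 hy2 hV hP nV hG hz
  · exact fun G hG z hz => x2_uw_dd0 h3 h4 hw hh he hy1 hy2 hV hP nV hG hz
  · exact fun n => ⟨1 / r ^ 3, fun F hF B hB z hz => hc3b n F hF B hB z hz⟩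

end

end Pool.Agent.Helper67.DO
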