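import Pool.Agent.Helper67.DO.BaseE
import Pool.Agent.Helper26.DO.E8

/-!
MP_d07457_gt, module X2, part 1: the coefficient of `u_3`.
-/

set_option autoImplicit false

namespace Pool.Agent.Helper67.DO

open scoped BigOperators Real
open Set Filter Topology

noncomputable section

lemma x2_c3_eq (y : ℝ) (n : ℕ) (F : (Fin (n + 3) → ℂ) → ℂ) (v : Fin n → ℂ) :
    c3 y n F v = (1 / 2) * lib_pds (e8_l n) F (e8_c3 (y : ℂ) v) := by
  unfold c3 e8_l e8_c3
  simp only [lib_pds_cons, lib_pds_nil, lib_pd_succ_cons, lib_pd_zero_cons, lib_iter2]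

section
variable {U : Set ℂ}

lemma x2_lin {n : ℕ} (hU : IsOpen U) {J : Type} (S : Finset J) (c : J → ℂ) (G : J → (Fin n → ℂ) → ℂ)
    (hG : ∀ j ∈ S, DifferentiableOn ℂ (G j) (PU n U)) (l : List (Fin n)) : ∀ z ∈ PU n U,
    lib_pds l (fun z => ∑ j ∈ S, c j * G j z) z = ∑ j ∈ S, c j * lib_pds l (G j) z := by
  induction l with
  | nil => exact fun z _ => rfl
  | cons k l ih =>
    intro z hz
    rw [lib_pds_cons, lib_pd_congr k hU ih hz]
    rw [lib_pd_sum k S (fun j z => c j * lib_pds l (G j) z) hU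
      (fun j hj => (lib_pds_hol l hU (hG j hj)).const_mul (c j)) hz]
    refine Finset.sum_congr rfl fun j _ => ?_
    rw [lib_pd_const_mul, lib_pds_cons]

lemma x2_pds_per {n : ℕ} (hU : IsOpen U) (hP : Per U) {F : (Fin n → ℂ) → ℂ} (hF : BO n U F)
    (l : List (Fin n)) (i : Fin n) : ∀ z ∈ PU n U, lib_pds l F (z + Pi.single i 1) = lib_pds l F z := by
  have hO := lib_isOpen_PU n hU
  induction l with
  | nil =>
    intro z hz
    rw [← e8_update_add]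
    exact hF.per z hz i
  | cons k l ih =>
    intro z hz
    have hH := lib_pds_hol l hU hF.hol
    have hz' : z + Pi.single i 1 ∈ PU n U := by
      rw [← e8_update_add]
      exact lib_update_PU i ((hP _).1 (hz i)) hz
    rw [lib_pds_cons, lib_pd_eq_fderiv k ((hH z hz).differentiableAt (hO.mem_nhds hz)),
      lib_pd_eq_fderiv k ((hH _ hz').differentiableAt (hO.mem_nhds hz')), ← fderiv_comp_add_right]
    have h1 : (fun y => lib_pds l F (y + Pi.single i 1)) =ᶠ[𝓝 z] lib_pds l F := by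
      filter_upwards [hO.mem_nhds hz] with y hy
      exact ih y hy
    rw [h1.fderiv_eq]

/-- derivatives in the remaining variables -/
lemma x2_pd {q : ℕ} (hU : IsOpen U) {F : (Fin (q + 3) → ℂ) → ℂ} (hF : DifferentiableOn ℂ F (PU (q + 3) U))
    {y : ℝ} (hy : (y : ℂ) ∈ U) (k : Fin q) {v : Fin q → ℂ} (hv : v ∈ PU q U) :
    lib_pd k (c3 y q F) v = (1 / 2) * lib_pds (e8_l q) (lib_pd k.succ.succ.succ F) (e8_c3 (y : ℂ) v) := by
  have e : c3 y q F = fun v => (1 / 2) * lib_pds (e8_l q) F (e8_c3 (y : ℂ) v) :=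
    funext fun v => x2_c3_eq y q F v
  rw [e, lib_pd_const_mul]
  congr 1
  have h3 : lib_pd k (fun v : Fin q → ℂ => lib_pds (e8_l q) F (e8_c3 (y : ℂ) v)) v =
      lib_pds (k.succ.succ.succ :: e8_l q) F (e8_c3 (y : ℂ) v) := by
    rw [lib_pds_cons]
    unfold e8_c3
    rw [lib_pd_succ_cons, lib_pd_succ_cons, lib_pd_succ_cons]
  have h4 : lib_pds (e8_l q) (lib_pd k.succ.succ.succ F) (e8_c3 (y : ℂ) v) =
      lib_pds (e8_l q ++ [k.succ.succ.succ]) F (e8_c3 (y : ℂ) v) := by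
    unfold lib_pds
    rw [List.foldr_append]
    rfl
  rw [h3, h4]
  exact lib_pds_perm (List.perm_append_singleton _ _).symm hU hF _ (e8_c3_mem hy hv)

lemma x2_bound {q : ℕ} (hU : IsOpen U) {F : (Fin (q + 3) → ℂ) → ℂ}
    (hF : DifferentiableOn ℂ F (PU (q + 3) U)) {M : ℝ}
    (hM : ∀ z ∈ PU (q + 3) U, ‖F z‖ ≤ M) {y r : ℝ} (hr : 0 < r)
    (hball : Metric.closedBall (y : ℂ) r ⊆ U) {v : Fin q → ℂ} (hv : v ∈ PU q U) :
    ‖c3 y q F v‖ ≤ 1 / r ^ 3 * M := by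
  have hys : (y : ℂ) ∈ U := hball (Metric.mem_closedBall_self hr.le)
  rw [x2_c3_eq]
  set H : ℂ → ℂ := fun a => iteratedDeriv 2 (fun t : ℂ => F (Fin.cons (y : ℂ)
    (Fin.cons a (Fin.cons t v : Fin (q + 1) → ℂ) : Fin (q + 2) → ℂ))) (y : ℂ) with hH
  have e1 : lib_pds (e8_l q) F (e8_c3 (y : ℂ) v) = deriv H (y : ℂ) := by
    unfold e8_l e8_c3
    simp only [hH, lib_pds_cons, lib_pds_nil, lib_pd_succ_cons, lib_pd_zero_cons, lib_iter2]
  have e2 : ∀ a, H a = lib_pds [Fin.succ (Fin.succ 0), Fin.succ (Fin.succ 0)] F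
      (Fin.cons (y : ℂ) (Fin.cons a (Fin.cons (y : ℂ) v : Fin (q + 1) → ℂ) :
        Fin (q + 2) → ℂ)) := by
    intro a
    simp only [hH, lib_pds_cons, lib_pds_nil, lib_pd_succ_cons, lib_pd_zero_cons, lib_iter2]
  have hHd : DifferentiableOn ℂ H U := by
    have h1 := lib_pds_hol [Fin.succ (Fin.succ (0 : Fin (q + 1))), Fin.succ (Fin.succ 0)] hU hF
    have h2 : H = fun a => lib_pds [Fin.succ (Fin.succ 0), Fin.succ (Fin.succ 0)] F
      (Fin.cons (y : ℂ) (Fin.cons a (Fin.cons (y : ℂ) v : Fin (q + 1) → ℂ) :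
        Fin (q + 2) → ℂ)) := funext e2
    rw [h2]
    refine h1.comp (t := PU (q + 3) U) (f := fun a : ℂ => (Fin.cons (y : ℂ) (Fin.cons a
      (Fin.cons (y : ℂ) v : Fin (q + 1) → ℂ) : Fin (q + 2) → ℂ) : Fin (q + 3) → ℂ)) ?_ ?_
    · refine Differentiable.differentiableOn ?_
      refine differentiable_pi.2 fun i => ?_
      refine Fin.cases ?_ (fun i => ?_) i
      · exact differentiable_const _
      refine Fin.cases ?_ (fun i => ?_) i
      · exact differentiable_id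
      · exact differentiable_const _
    · intro a ha
      exact lib_cons_PU hys (lib_cons_PU ha (lib_cons_PU hys hv))
  have hHb : ∀ a ∈ U, ‖H a‖ ≤ 2 / r ^ 2 * M := by
    intro a ha
    have hd : DifferentiableOn ℂ (fun t : ℂ => F (Fin.cons (y : ℂ)
        (Fin.cons a (Fin.cons t v : Fin (q + 1) → ℂ) : Fin (q + 2) → ℂ))) U := by
      refine hF.comp (t := PU (q + 3) U) (f := fun t : ℂ => (Fin.cons (y : ℂ) (Fin.cons a
        (Fin.cons t v : Fin (q + 1) → ℂ) : Fin (q + 2) → ℂ) : Fin (q + 3) → ℂ)) ?_ ?_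
      · refine Differentiable.differentiableOn ?_
        refine differentiable_pi.2 fun i => ?_
        refine Fin.cases ?_ (fun i => ?_) i
        · exact differentiable_const _
        refine Fin.cases ?_ (fun i => ?_) i
        · exact differentiable_const _
        refine Fin.cases ?_ (fun i => ?_) i
        · exact differentiable_id
        · exact differentiable_const _
      · intro t ht
        exact lib_cons_PU hys (lib_cons_PU ha (lib_cons_PU ht hv))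
    have h1 := Complex.norm_iteratedDeriv_le_of_forall_mem_sphere_norm_le (c := (y : ℂ))
      (R := r) (C := M) 2 hr (f := fun t : ℂ => F (Fin.cons (y : ℂ)
        (Fin.cons a (Fin.cons t v : Fin (q + 1) → ℂ) : Fin (q + 2) → ℂ))) (by
        refine DifferentiableOn.diffContOnCl ?_
        rw [closure_ball _ hr.ne']
        exact hd.mono hball) (by
        intro t ht
        exact hM _ (lib_cons_PU hys (lib_cons_PU ha
          (lib_cons_PU (hball (Metric.sphere_subset_closedBall ht)) hv))))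
    refine h1.trans (le_of_eq ?_)
    rw [Nat.factorial_two]
    push_cast
    field_simp
  rw [e1]
  have h2 := Complex.norm_deriv_le_of_forall_mem_sphere_norm_le (c := (y : ℂ)) (R := r)
    (C := 2 / r ^ 2 * M) (f := H) hr (by
      refine DifferentiableOn.diffContOnCl ?_
      rw [closure_ball _ hr.ne']
      exact hHd.mono hball) (by
      intro a ha
      exact hHb a (hball (Metric.sphere_subset_closedBall ha)))
  rw [norm_mul]
  have h3 : ‖(1 / 2 : ℂ)‖ = 1 / 2 := by norm_num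
  rw [h3]
  calc 1 / 2 * ‖deriv H (y : ℂ)‖ ≤ 1 / 2 * (2 / r ^ 2 * M / r) := by linarith
    _ = 1 / r ^ 3 * M := by
      field_simp

lemma x2_alt {q : ℕ} (hU : IsOpen U) {F : (Fin (q + 3) → ℂ) → ℂ} (hF : BO (q + 3) U F) {y : ℝ}
    (hy : (y : ℂ) ∈ U) {v : Fin q → ℂ} (hv : v ∈ PU q U) (σ : Equiv.Perm (Fin q)) :
    c3 y q F (fun i => v (σ i)) = ((Equiv.Perm.sign σ : ℤ) : ℂ) * c3 y q F v := by
  rw [x2_c3_eq, x2_c3_eq]
  have h1 : e8_c3 (y : ℂ) (fun i => v (σ i)) =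
      fun i => e8_c3 (y : ℂ) v (e8_ext (e8_ext (e8_ext σ)) i) := by
    unfold e8_c3
    rw [e8_ext_cons, e8_ext_cons, e8_ext_cons]
  have h2 := lib_pds_alt (F := F) (e8_l q) hU (e8_ext (e8_ext (e8_ext σ)))
    (c := ((Equiv.Perm.sign σ : ℤ) : ℂ)) (by
      intro z hz
      rw [hF.alt z hz, e8_ext_sign, e8_ext_sign, e8_ext_sign]) (e8_c3 (y : ℂ) v)
    (e8_c3_mem hy hv)
  have h3 : (e8_l q).map (e8_ext (e8_ext (e8_ext σ))).symm = e8_l q := by
    unfold e8_l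
    simp only [List.map_cons, List.map_nil, e8_ext_symm_succ, e8_ext_symm_zero]
  rw [h3] at h2
  rw [h1, h2]
  ring

/-- (10) -/
lemma x2_BO {q : ℕ} (hU : IsOpen U) (hP : Per U) {F : (Fin (q + 3) → ℂ) → ℂ} (hF : BO (q + 3) U F) {y r : ℝ}
    (hr : 0 < r) (hball : Metric.closedBall (y : ℂ) r ⊆ U) : BO q U (c3 y q F) := by
  have hy : (y : ℂ) ∈ U := hball (Metric.mem_closedBall_self hr.le)
  have e : c3 y q F = fun v => (1 / 2) * lib_pds (e8_l q) F (e8_c3 (y : ℂ) v) :=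
    funext fun v => x2_c3_eq y q F v
  obtain ⟨C, hC⟩ := hF.bdd
  refine ⟨?_, ?_, fun v hv σ => x2_alt hU hF hy hv σ, 1 / r ^ 3 * C,
    fun v hv => x2_bound hU hF.hol hC hr hball hv⟩
  · rw [e]
    refine DifferentiableOn.const_mul ?_ _
    refine (lib_pds_hol (e8_l q) hU hF.hol).comp (e8_c3_diff q (y : ℂ)).differentiableOn ?_
    intro v hv
    exact e8_c3_mem hy hv
  · intro v hv i
    rw [x2_c3_eq, x2_c3_eq]
    have h1 : e8_c3 (y : ℂ) (Function.update v i (v i + 1)) =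
        e8_c3 (y : ℂ) v + Pi.single i.succ.succ.succ 1 := by
      rw [← e8_update_add]
      unfold e8_c3
      rw [Fin.cons_update, Fin.cons_update, Fin.cons_update]
      simp only [Fin.cons_succ]
    rw [h1, x2_pds_per hU hP hF _ _ _ (e8_c3_mem hy hv)]

/-! ### the differential -/

lemma x2_dup_hol {n : ℕ} (hU : IsOpen U) {F : (Fin (n + 1) → ℂ) → ℂ}
    (hF : DifferentiableOn ℂ F (PU (n + 1) U)) (i : Fin n) :
    DifferentiableOn ℂ (fun z : Fin n → ℂ => lib_pd i.succ F (i.succ.insertNth (z i) z))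
      (PU n U) := by
  refine (lib_pd_hol i.succ hU hF).comp
    (f := fun z : Fin n → ℂ => (i.succ.insertNth (z i) z : Fin (n + 1) → ℂ)) ?_ ?_
  · refine Differentiable.differentiableOn ?_
    refine differentiable_pi.2 fun k => ?_
    refine Fin.succAboveCases i.succ ?_ (fun k => ?_) k
    · simp only [Fin.insertNth_apply_same]
      exact differentiable_apply _
    · simp only [Fin.insertNth_apply_succAbove]
      exact differentiable_apply _
  · intro z hz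
    exact mem_PU_insert hz (hz i) i.succ

lemma x2_pd_add {n : ℕ} (hU : IsOpen U) (i : Fin n) {F G : (Fin n → ℂ) → ℂ}
    (hF : DifferentiableOn ℂ F (PU n U)) (hG : DifferentiableOn ℂ G (PU n U))
    {z : Fin n → ℂ} (hz : z ∈ PU n U) :
    lib_pd i (fun z => F z + G z) z = lib_pd i F z + lib_pd i G z := by
  have hO := lib_isOpen_PU n hU
  have h1 : DifferentiableAt ℂ F z := (hF z hz).differentiableAt (hO.mem_nhds hz)
  have h2 : DifferentiableAt ℂ G z := (hG z hz).differentiableAt (hO.mem_nhds hz)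
  rw [lib_pd_eq_fderiv (F := fun z => F z + G z) i (h1.add h2), lib_pd_eq_fderiv i h1, lib_pd_eq_fderiv i h2]
  have h3 : fderiv ℂ (fun z => F z + G z) z = fderiv ℂ F z + fderiv ℂ G z := fderiv_fun_add h1 h2
  rw [h3]
  rfl

lemma x2_diag23 {q : ℕ} (hU : IsOpen U) {Q : (Fin (q + 4) → ℂ) → ℂ}
    (hQ : DifferentiableOn ℂ Q (PU (q + 4) U)) {v : Fin q → ℂ} (hv : v ∈ PU q U)
    {x a t : ℂ} (hx : x ∈ U) (ha : a ∈ U) (ht : t ∈ U) :
    deriv (fun t : ℂ => Q (Fin.cons x (Fin.cons a (Fin.cons t (Fin.cons t v :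
        Fin (q + 1) → ℂ) : Fin (q + 2) → ℂ) : Fin (q + 3) → ℂ))) t =
      lib_pd (Fin.succ (Fin.succ 0)) Q (Fin.cons x (Fin.cons a (Fin.cons t (Fin.cons t v :
        Fin (q + 1) → ℂ) : Fin (q + 2) → ℂ) : Fin (q + 3) → ℂ)) +
      lib_pd (Fin.succ (Fin.succ (Fin.succ 0))) Q (Fin.cons x (Fin.cons a (Fin.cons t (Fin.cons t v :
        Fin (q + 1) → ℂ) : Fin (q + 2) → ℂ) : Fin (q + 3) → ℂ)) := by
  set z : Fin (q + 4) → ℂ := Fin.cons x (Fin.cons a (Fin.cons t (Fin.cons t v :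
        Fin (q + 1) → ℂ) : Fin (q + 2) → ℂ) : Fin (q + 3) → ℂ) with hz
  have hmem : z ∈ PU (q + 4) U :=
    lib_cons_PU hx (lib_cons_PU ha (lib_cons_PU ht (lib_cons_PU ht hv)))
  have hO := lib_isOpen_PU (q + 4) hU
  have h1 : DifferentiableAt ℂ Q z := (hQ z hmem).differentiableAt (hO.mem_nhds hmem)
  have h2 := lib_pd_diag (Fin.succ (Fin.succ 0)) (Fin.succ (Fin.succ (Fin.succ 0))) (e8_n23 q)
    (t0 := t) (by rw [hz, Fin.cons_succ, Fin.cons_succ, Fin.cons_zero])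
    (by rw [hz, Fin.cons_succ, Fin.cons_succ, Fin.cons_succ, Fin.cons_zero]) h1
  rw [← h2]
  simp only [hz, ← Fin.cons_update, Fin.update_cons_zero]

lemma x2_diag12 {q : ℕ} (hU : IsOpen U) {Q : (Fin (q + 4) → ℂ) → ℂ}
    (hQ : DifferentiableOn ℂ Q (PU (q + 4) U)) {v : Fin q → ℂ} (hv : v ∈ PU q U)
    {x : ℂ} (hx : x ∈ U) :
    deriv (fun t : ℂ => Q (Fin.cons x (Fin.cons t (Fin.cons t (Fin.cons x v :
        Fin (q + 1) → ℂ) : Fin (q + 2) → ℂ) : Fin (q + 3) → ℂ))) x =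
      lib_pd (Fin.succ 0) Q (e8_c4 x v) + lib_pd (Fin.succ (Fin.succ 0)) Q (e8_c4 x v) := by
  have hmem : e8_c4 x v ∈ PU (q + 4) U := lib_cons_PU hx (e8_c3_mem hx hv)
  have hO := lib_isOpen_PU (q + 4) hU
  have h1 : DifferentiableAt ℂ Q (e8_c4 x v) :=
    (hQ _ hmem).differentiableAt (hO.mem_nhds hmem)
  have h2 := lib_pd_diag (Fin.succ 0) (Fin.succ (Fin.succ 0)) (e8_n12 q) (t0 := x)
    (by unfold e8_c4 e8_c3; rw [Fin.cons_succ, Fin.cons_zero])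
    (by unfold e8_c4 e8_c3; rw [Fin.cons_succ, Fin.cons_succ, Fin.cons_zero]) h1
  rw [← h2]
  unfold e8_c4 e8_c3
  simp only [← Fin.cons_update, Fin.update_cons_zero]

/-- vanishing on the diagonal -/
lemma x2_van {q : ℕ} (hU : IsOpen U) {F : (Fin (q + 4) → ℂ) → ℂ}
    (hF : BO (q + 4) U F) {v : Fin q → ℂ} (hv : v ∈ PU q U) {x : ℂ} (hx : x ∈ U)
    (a b c d e f : Fin (q + 4)) (hab : a ≠ b) (he : e8_c4 x v a = e8_c4 x v b)
    (hl : ([c, d, e, f].map (Equiv.swap a b)).Perm [c, d, e, f]) :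
    lib_pds [c, d, e, f] F (e8_c4 x v) = 0 := by
  have hmem : e8_c4 x v ∈ PU (q + 4) U := lib_cons_PU hx (e8_c3_mem hx hv)
  exact lib_pds_zero _ hU hF a b hab hl hmem he

lemma x2_van0 {q : ℕ} (hU : IsOpen U) {F : (Fin (q + 4) → ℂ) → ℂ}
    (hF : BO (q + 4) U F) {v : Fin q → ℂ} (hv : v ∈ PU q U) {x : ℂ} (hx : x ∈ U) :
    lib_pds [Fin.succ (Fin.succ 0), Fin.succ (Fin.succ (Fin.succ 0)),
      Fin.succ (Fin.succ (Fin.succ 0)), Fin.succ 0] F (e8_c4 x v) = 0 := by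
  refine x2_van hU hF hv hx (Fin.succ 0) (Fin.succ (Fin.succ 0)) _ _ _ _ (e8_n12 q) ?_ ?_
  · unfold e8_c4 e8_c3
    simp only [Fin.cons_succ, Fin.cons_zero]
  · simp only [List.map_cons, List.map_nil]
    rw [Equiv.swap_apply_right, Equiv.swap_apply_left,
      Equiv.swap_apply_of_ne_of_ne (e8_n13 q).symm (e8_n23 q).symm]
    refine e8_perm4 _ _ _ _ _ _ _ _ fun x => ?_
    ring

lemma x2_van1 {q : ℕ} (hU : IsOpen U) {F : (Fin (q + 4) → ℂ) → ℂ}
    (hF : BO (q + 4) U F) {v : Fin q → ℂ} (hv : v ∈ PU q U) {x : ℂ} (hx : x ∈ U) :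
    lib_pds [Fin.succ 0, Fin.succ (Fin.succ (Fin.succ 0)),
      Fin.succ (Fin.succ (Fin.succ 0)), Fin.succ (Fin.succ 0)] F (e8_c4 x v) = 0 := by
  refine x2_van hU hF hv hx (Fin.succ 0) (Fin.succ (Fin.succ 0)) _ _ _ _ (e8_n12 q) ?_ ?_
  · unfold e8_c4 e8_c3
    simp only [Fin.cons_succ, Fin.cons_zero]
  · simp only [List.map_cons, List.map_nil]
    rw [Equiv.swap_apply_right, Equiv.swap_apply_left,
      Equiv.swap_apply_of_ne_of_ne (e8_n13 q).symm (e8_n23 q).symm]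
    refine e8_perm4 _ _ _ _ _ _ _ _ fun x => ?_
    ring

lemma x2_van2 {q : ℕ} (hU : IsOpen U) {F : (Fin (q + 4) → ℂ) → ℂ}
    (hF : BO (q + 4) U F) {v : Fin q → ℂ} (hv : v ∈ PU q U) {x : ℂ} (hx : x ∈ U) :
    lib_pds [Fin.succ (Fin.succ 0), Fin.succ (Fin.succ (Fin.succ 0)),
      Fin.succ (Fin.succ (Fin.succ 0)), Fin.succ (Fin.succ 0)] F (e8_c4 x v) = 0 := by
  refine x2_van hU hF hv hx (Fin.succ (Fin.succ 0)) (Fin.succ (Fin.succ (Fin.succ 0))) _ _ _ _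
    (e8_n23 q) ?_ ?_
  · unfold e8_c4 e8_c3
    simp only [Fin.cons_succ, Fin.cons_zero]
  · simp only [List.map_cons, List.map_nil]
    rw [Equiv.swap_apply_right, Equiv.swap_apply_left]
    refine e8_perm4 _ _ _ _ _ _ _ _ fun x => ?_
    ring

lemma x2_van3 {q : ℕ} (hU : IsOpen U) {F : (Fin (q + 4) → ℂ) → ℂ}
    (hF : BO (q + 4) U F) {v : Fin q → ℂ} (hv : v ∈ PU q U) {x : ℂ} (hx : x ∈ U) :
    lib_pds [Fin.succ 0, Fin.succ (Fin.succ 0), Fin.succ (Fin.succ 0),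
      Fin.succ (Fin.succ (Fin.succ 0))] F (e8_c4 x v) = 0 := by
  refine x2_van hU hF hv hx (Fin.succ 0) (Fin.succ (Fin.succ (Fin.succ 0))) _ _ _ _
    (e8_n13 q) ?_ ?_
  · unfold e8_c4 e8_c3
    simp only [Fin.cons_succ, Fin.cons_zero]
  · simp only [List.map_cons, List.map_nil]
    rw [Equiv.swap_apply_right, Equiv.swap_apply_left,
      Equiv.swap_apply_of_ne_of_ne (e8_n12 q).symm (e8_n23 q)]
    refine e8_perm4 _ _ _ _ _ _ _ _ fun x => ?_
    ring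

lemma x2_van4 {q : ℕ} (hU : IsOpen U) {F : (Fin (q + 4) → ℂ) → ℂ}
    (hF : BO (q + 4) U F) {v : Fin q → ℂ} (hv : v ∈ PU q U) {x : ℂ} (hx : x ∈ U) :
    lib_pds [Fin.succ 0, Fin.succ (Fin.succ 0), Fin.succ (Fin.succ (Fin.succ 0)),
      Fin.succ (Fin.succ (Fin.succ 0))] F (e8_c4 x v) = 0 := by
  refine x2_van hU hF hv hx (Fin.succ 0) (Fin.succ (Fin.succ 0)) _ _ _ _ (e8_n12 q) ?_ ?_
  · unfold e8_c4 e8_c3
    simp only [Fin.cons_succ, Fin.cons_zero]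
  · simp only [List.map_cons, List.map_nil]
    rw [Equiv.swap_apply_right, Equiv.swap_apply_left,
      Equiv.swap_apply_of_ne_of_ne (e8_n13 q).symm (e8_n23 q).symm]
    refine e8_perm4 _ _ _ _ _ _ _ _ fun x => ?_
    ring

lemma x2_van5 {q : ℕ} (hU : IsOpen U) {F : (Fin (q + 4) → ℂ) → ℂ}
    (hF : BO (q + 4) U F) {v : Fin q → ℂ} (hv : v ∈ PU q U) {x : ℂ} (hx : x ∈ U) :
    lib_pds [Fin.succ 0, Fin.succ (Fin.succ (Fin.succ 0)), Fin.succ (Fin.succ 0),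
      Fin.succ (Fin.succ (Fin.succ 0))] F (e8_c4 x v) = 0 := by
  refine x2_van hU hF hv hx (Fin.succ 0) (Fin.succ (Fin.succ 0)) _ _ _ _ (e8_n12 q) ?_ ?_
  · unfold e8_c4 e8_c3
    simp only [Fin.cons_succ, Fin.cons_zero]
  · simp only [List.map_cons, List.map_nil]
    rw [Equiv.swap_apply_right, Equiv.swap_apply_left,
      Equiv.swap_apply_of_ne_of_ne (e8_n13 q).symm (e8_n23 q).symm]
    refine e8_perm4 _ _ _ _ _ _ _ _ fun x => ?_
    ring

lemma x2_van6 {q : ℕ} (hU : IsOpen U) {F : (Fin (q + 4) → ℂ) → ℂ}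
    (hF : BO (q + 4) U F) {v : Fin q → ℂ} (hv : v ∈ PU q U) {x : ℂ} (hx : x ∈ U) :
    lib_pds [Fin.succ 0, Fin.succ (Fin.succ (Fin.succ 0)), Fin.succ (Fin.succ (Fin.succ 0)),
      Fin.succ (Fin.succ (Fin.succ 0))] F (e8_c4 x v) = 0 := by
  refine x2_van hU hF hv hx 0 (Fin.succ (Fin.succ 0)) _ _ _ _ (e8_n02 q) ?_ ?_
  · unfold e8_c4 e8_c3
    simp only [Fin.cons_succ, Fin.cons_zero]
  · simp only [List.map_cons, List.map_nil]
    rw [Equiv.swap_apply_of_ne_of_ne (e8_n01 q).symm (e8_n12 q),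
      Equiv.swap_apply_of_ne_of_ne (e8_n03 q).symm (e8_n23 q).symm]

/-- the form of `lib_pds (e8_l q)` used below -/
lemma x2_l_eq {q : ℕ} (F : (Fin (q + 3) → ℂ) → ℂ) (x : ℂ) (v : Fin q → ℂ) :
    lib_pds (e8_l q) F (e8_c3 x v) = deriv (fun a : ℂ => deriv (deriv (fun t : ℂ =>
      F (Fin.cons x (Fin.cons a (Fin.cons t v : Fin (q + 1) → ℂ) : Fin (q + 2) → ℂ)))) x) x := by
  unfold e8_l e8_c3
  simp only [lib_pds_cons, lib_pds_nil, lib_pd_succ_cons, lib_pd_zero_cons]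

lemma x2_term0 {q : ℕ} (hU : IsOpen U) {F : (Fin (q + 4) → ℂ) → ℂ}
    (hF : BO (q + 4) U F) {v : Fin q → ℂ} (hv : v ∈ PU q U) {x : ℂ} (hx : x ∈ U) :
    lib_pds (e8_l q) (fun z : Fin (q + 3) → ℂ => lib_pd (Fin.succ 0) F ((Fin.succ 0).insertNth (z 0) z))
      (e8_c3 x v) = 0 := by
  rw [← x2_van0 hU hF hv hx, x2_l_eq]
  unfold e8_c4 e8_c3
  simp only [lib_pds_cons, lib_pds_nil, lib_pd_succ_cons, lib_pd_zero_cons, e8_ins_succ, e8_ins_zero,
    Fin.cons_zero]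

lemma x2_term1 {q : ℕ} (hU : IsOpen U) {F : (Fin (q + 4) → ℂ) → ℂ}
    (hF : BO (q + 4) U F) {v : Fin q → ℂ} (hv : v ∈ PU q U) {x : ℂ} (hx : x ∈ U) :
    lib_pds (e8_l q) (fun z : Fin (q + 3) → ℂ => lib_pd (Fin.succ (Fin.succ 0)) F
      ((Fin.succ (Fin.succ 0)).insertNth (z (Fin.succ 0)) z)) (e8_c3 x v) = 0 := by
  have h1 := x2_diag12 hU (lib_pds_hol [Fin.succ (Fin.succ (Fin.succ 0)),
    Fin.succ (Fin.succ (Fin.succ 0)), Fin.succ (Fin.succ 0)] hU hF.hol) hv hx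
  rw [← lib_pds_cons, ← lib_pds_cons, x2_van1 hU hF hv hx, x2_van2 hU hF hv hx, add_zero] at h1
  rw [← h1, x2_l_eq]
  simp only [lib_pds_cons, lib_pds_nil, lib_pd_succ_cons, lib_pd_zero_cons, e8_ins_succ, e8_ins_zero,
    Fin.cons_zero, Fin.cons_succ]

lemma x2_term2 {q : ℕ} (hU : IsOpen U) {F : (Fin (q + 4) → ℂ) → ℂ}
    (hF : BO (q + 4) U F) {v : Fin q → ℂ} (hv : v ∈ PU q U) {x : ℂ} (hx : x ∈ U) :
    lib_pds (e8_l q) (fun z : Fin (q + 3) → ℂ => lib_pd (Fin.succ (Fin.succ (Fin.succ 0))) F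
      ((Fin.succ (Fin.succ (Fin.succ 0))).insertNth (z (Fin.succ (Fin.succ 0))) z)) (e8_c3 x v) = 0 := by
  have hO := lib_isOpen_PU (q + 4) hU
  rw [x2_l_eq]
  set c2 : Fin (q + 4) := Fin.succ (Fin.succ 0) with hc2
  set c3 : Fin (q + 4) := Fin.succ (Fin.succ (Fin.succ 0)) with hc3
  set Q : (Fin (q + 4) → ℂ) → ℂ := lib_pd c3 F with hQ
  have hQh : DifferentiableOn ℂ Q (PU (q + 4) U) := lib_pd_hol c3 hU hF.hol
  set Q1 : (Fin (q + 4) → ℂ) → ℂ := fun z => lib_pd c2 Q z + lib_pd c3 Q z with hQ1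
  have hQ1h : DifferentiableOn ℂ Q1 (PU (q + 4) U) :=
    (lib_pd_hol c2 hU hQh).add (lib_pd_hol c3 hU hQh)
  set Q2 : (Fin (q + 4) → ℂ) → ℂ := fun z => lib_pd c2 Q1 z + lib_pd c3 Q1 z with hQ2
  have hd1 : ∀ a ∈ U, ∀ t ∈ U, deriv (fun t : ℂ => Q (Fin.cons x (Fin.cons a
      (Fin.cons t (Fin.cons t v : Fin (q + 1) → ℂ) : Fin (q + 2) → ℂ) : Fin (q + 3) → ℂ))) t =
      Q1 (Fin.cons x (Fin.cons a
      (Fin.cons t (Fin.cons t v : Fin (q + 1) → ℂ) : Fin (q + 2) → ℂ) : Fin (q + 3) → ℂ)) :=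
    fun a ha t ht => x2_diag23 hU hQh hv hx ha ht
  have hd2 : ∀ a ∈ U, deriv (deriv (fun t : ℂ => Q (Fin.cons x (Fin.cons a
      (Fin.cons t (Fin.cons t v : Fin (q + 1) → ℂ) : Fin (q + 2) → ℂ) : Fin (q + 3) → ℂ))))
      x = Q2 (Fin.cons x (Fin.cons a (Fin.cons x (Fin.cons x v :
        Fin (q + 1) → ℂ) : Fin (q + 2) → ℂ) : Fin (q + 3) → ℂ)) := by
    intro a ha
    have h1 : (deriv fun t : ℂ => Q (Fin.cons x (Fin.cons a
      (Fin.cons t (Fin.cons t v : Fin (q + 1) → ℂ) : Fin (q + 2) → ℂ) : Fin (q + 3) → ℂ)))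
      =ᶠ[𝓝 x] fun t : ℂ => Q1 (Fin.cons x (Fin.cons a
      (Fin.cons t (Fin.cons t v : Fin (q + 1) → ℂ) : Fin (q + 2) → ℂ) : Fin (q + 3) → ℂ)) := by
      filter_upwards [hU.mem_nhds hx] with t ht
      exact hd1 a ha t ht
    rw [h1.deriv_eq]
    exact x2_diag23 hU hQ1h hv hx ha hx
  have hd3 : deriv (fun a : ℂ => deriv (deriv (fun t : ℂ => Q (Fin.cons x (Fin.cons a
      (Fin.cons t (Fin.cons t v : Fin (q + 1) → ℂ) : Fin (q + 2) → ℂ) : Fin (q + 3) → ℂ))))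
      x) x = lib_pd (Fin.succ 0) Q2 (e8_c4 x v) := by
    have h1 : (fun a : ℂ => deriv (deriv (fun t : ℂ => Q (Fin.cons x (Fin.cons a
      (Fin.cons t (Fin.cons t v : Fin (q + 1) → ℂ) : Fin (q + 2) → ℂ) : Fin (q + 3) → ℂ))))
      x) =ᶠ[𝓝 x] fun a : ℂ => Q2 (Fin.cons x (Fin.cons a
        (Fin.cons x (Fin.cons x v :
        Fin (q + 1) → ℂ) : Fin (q + 2) → ℂ) : Fin (q + 3) → ℂ)) := by
      filter_upwards [hU.mem_nhds hx] with a ha
      exact hd2 a ha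
    rw [h1.deriv_eq]
    unfold e8_c4 e8_c3
    rw [lib_pd_succ_cons, lib_pd_zero_cons]
  have hmem : e8_c4 x v ∈ PU (q + 4) U := lib_cons_PU hx (e8_c3_mem hx hv)
  have hexp : ∀ z ∈ PU (q + 4) U, Q2 z = (lib_pds [c2, c2, c3] F z + lib_pds [c2, c3, c3] F z) +
      (lib_pds [c3, c2, c3] F z + lib_pds [c3, c3, c3] F z) := by
    intro z hz
    show lib_pd c2 Q1 z + lib_pd c3 Q1 z = _
    rw [x2_pd_add hU c2 (lib_pd_hol c2 hU hQh) (lib_pd_hol c3 hU hQh) hz,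
      x2_pd_add hU c3 (lib_pd_hol c2 hU hQh) (lib_pd_hol c3 hU hQh) hz]
    rfl
  have hfin : lib_pd (Fin.succ 0) Q2 (e8_c4 x v) = 0 := by
    have hA : DifferentiableOn ℂ (fun z => lib_pds [c2, c2, c3] F z + lib_pds [c2, c3, c3] F z)
        (PU (q + 4) U) := (lib_pds_hol _ hU hF.hol).add (lib_pds_hol _ hU hF.hol)
    have hB : DifferentiableOn ℂ (fun z => lib_pds [c3, c2, c3] F z + lib_pds [c3, c3, c3] F z)
        (PU (q + 4) U) := (lib_pds_hol _ hU hF.hol).add (lib_pds_hol _ hU hF.hol)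
    rw [lib_pd_congr (Fin.succ 0) hU hexp hmem, x2_pd_add hU (Fin.succ 0) hA hB hmem,
      x2_pd_add hU (Fin.succ 0) (lib_pds_hol _ hU hF.hol) (lib_pds_hol _ hU hF.hol) hmem,
      x2_pd_add hU (Fin.succ 0) (lib_pds_hol _ hU hF.hol) (lib_pds_hol _ hU hF.hol) hmem,
      ← lib_pds_cons, ← lib_pds_cons, ← lib_pds_cons, ← lib_pds_cons, hc2, hc3, x2_van3 hU hF hv hx,
      x2_van4 hU hF hv hx, x2_van5 hU hF hv hx, x2_van6 hU hF hv hx, add_zero, add_zero]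
  rw [← hfin, ← hd3]
  simp only [e8_ins_succ, e8_ins_zero, Fin.cons_zero, Fin.cons_succ, hc3]

/-- (12) -/
lemma x2_dd {q : ℕ} (hU : IsOpen U) {F : (Fin (q + 4) → ℂ) → ℂ}
    (hF : BO (q + 4) U F) {y : ℝ} (hy : (y : ℂ) ∈ U) {v : Fin q → ℂ} (hv : v ∈ PU q U) :
    c3 y q (dd (q + 3) F) v = - dd q (c3 y (q + 1) F) v := by
  have e1 : dd (q + 3) F = fun z => ∑ i : Fin (q + 3), (-1 : ℂ) ^ (i : ℕ) *
      (fun z : Fin (q + 3) → ℂ => lib_pd i.succ F (i.succ.insertNth (z i) z)) z := by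
    funext z
    exact lib_dd_eq (q + 3) F z
  rw [x2_c3_eq, e1, x2_lin hU Finset.univ (fun i : Fin (q + 3) => (-1 : ℂ) ^ (i : ℕ))
    (fun i (z : Fin (q + 3) → ℂ) => lib_pd i.succ F (i.succ.insertNth (z i) z))
    (fun i _ => x2_dup_hol hU hF.hol i) _ _ (e8_c3_mem hy hv)]
  rw [Fin.sum_univ_succ, Fin.sum_univ_succ, Fin.sum_univ_succ, x2_term0 hU hF hv hy,
    x2_term1 hU hF hv hy, x2_term2 hU hF hv hy, lib_dd_eq, ← Finset.sum_neg_distrib]
  simp only [mul_zero, zero_add]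
  rw [Finset.mul_sum]
  refine Finset.sum_congr rfl fun j _ => ?_
  have hw : (j.succ.insertNth (v j) v : Fin (q + 1) → ℂ) ∈ PU (q + 1) U := mem_PU_insert hv (hv j) j.succ
  rw [x2_pd hU hF.hol hy j.succ hw]
  have e2 : lib_pds (e8_l q) (fun z : Fin (q + 3) → ℂ => lib_pd j.succ.succ.succ.succ F
      (j.succ.succ.succ.succ.insertNth (z j.succ.succ.succ) z)) (e8_c3 (y : ℂ) v) =
      lib_pds (e8_l (q + 1)) (lib_pd j.succ.succ.succ.succ F) (e8_c3 (y : ℂ) (j.succ.insertNth (v j) v)) := by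
    rw [x2_l_eq, x2_l_eq]
    simp only [e8_ins_succ, Fin.cons_succ]
  rw [e2, Fin.val_succ, Fin.val_succ, Fin.val_succ]
  ring

end

end

end Pool.Agent.Helper67.DO
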